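import Pool.Agent.Lib.MP_fc2a59_co.CW.Chk

/-!
# MP_fc2a59_co (Jaeger), bounded cutwidth: the classes
-/

set_option autoImplicit false
set_option maxRecDepth 100000

namespace Pool.CW.Dt

/-- class 0 -/
def c0 : Cls := ⟨3, 1, [[0,0,3], [0,3,0], [0,3,3]], []⟩
/-- class 1 -/
def c1 : Cls := ⟨6, 2, [[0,0,3,0,3,3], [0,0,3,0,3,4], [0,0,3,0,4,3], [0,0,3,3,0,3], [0,0,3,3,0,4], [0,0,3,3,3,0], [0,0,3,3,4,0], [0,0,3,4,0,3], [0,0,3,4,3,0], [0,3,0,0,3,3], [0,3,0,0,3,4], [0,3,0,0,4,3], [0,3,0,3,0,3], [0,3,0,3,0,4], [0,3,0,3,3,0], [0,3,0,3,4,0], [0,3,0,4,0,3], [0,3,0,4,3,0], [0,3,3,0,0,3], [0,3,3,0,3,0], [0,3,3,0,3,5], [0,3,3,0,5,3], [0,3,3,3,0,0], [0,3,3,3,0,5], [0,3,3,3,5,0], [0,3,3,5,0,3], [0,3,3,5,3,0], [0,3,4,0,3,4], [0,2,5,0,2,5], [0,3,5,0,3,5], [0,3,4,0,4,3], [0,2,5,0,5,2], [0,3,5,0,5,3], [0,3,4,3,0,4], [0,2,5,2,0,5], [0,3,5,3,0,5], [0,3,4,3,4,0], [0,2,5,2,5,0], [0,3,5,3,5,0],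 [0,3,4,4,0,3], [0,2,5,5,0,2], [0,3,5,5,0,3], [0,3,4,4,3,0], [0,2,5,5,2,0], [0,3,5,5,3,0]], [⟨1, [true,false,false,false,false,false], 2⟩, ⟨1, [false,true,false,false,false,false], 2⟩, ⟨1, [true,true,false,false,false,false], 1⟩, ⟨1, [false,false,true,false,false,false], 2⟩, ⟨1, [true,false,true,false,false,false], 1⟩, ⟨1, [false,true,true,false,false,false], 1⟩, ⟨1, [true,true,true,false,false,false], 0⟩, ⟨1, [false,false,false,true,false,false], 2⟩, ⟨1, [false,false,false,false,true,false], 2⟩, ⟨1, [false,false,false,true,true,false], 1⟩, ⟨1, [false,false,false,false,false,true], 2⟩, ⟨1, [false,false,false,true,false,true], 1⟩, ⟨1, [false,false,false,false,true,true], 1⟩, ⟨1, [false,false,false,true,true,true], 0⟩]⟩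
/-- class 2 -/
def c2 : Cls := ⟨4, 2, [[0,0,0,0], [0,0,0,3], [0,0,3,0]], [⟨1, [true,false,false,false], 2⟩, ⟨1, [false,true,false,false], 2⟩, ⟨1, [true,true,false,false], 1⟩, ⟨1, [false,false,true,false], 2⟩, ⟨1, [false,false,false,true], 2⟩, ⟨1, [false,false,true,true], 1⟩]⟩
/-- class 3 -/
def c3 : Cls := ⟨4, 2, [[0,0,3,3], [0,3,3,0]], [⟨1, [true,false,false,false], 2⟩, ⟨1, [false,true,false,false], 2⟩, ⟨1, [false,false,true,false], 2⟩, ⟨1, [false,false,false,true], 2⟩, ⟨2, [true,false,true,false], 2⟩, ⟨2, [false,true,false,true], 2⟩]⟩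
/-- class 4 -/
def c4 : Cls := ⟨6, 2, [[0,0,3,3,0,3], [0,0,3,3,0,4], [0,0,3,3,3,0], [0,0,3,3,4,0], [0,0,2,5,0,5], [0,0,2,5,2,5], [0,0,2,5,5,0], [0,0,2,5,5,2], [0,3,0,3,0,3], [0,3,0,3,0,4], [0,3,0,3,3,0], [0,3,0,3,4,0], [0,2,0,5,0,5], [0,2,0,5,2,5], [0,2,0,5,5,0], [0,2,0,5,5,2], [0,3,4,3,0,4], [0,3,4,3,4,0], [0,2,5,5,0,2], [0,2,5,5,2,0]], [⟨1, [true,false,false,false,false,false], 2⟩, ⟨1, [false,true,false,false,false,false], 2⟩, ⟨1, [false,false,true,false,false,false], 2⟩, ⟨1, [false,true,true,false,false,false], 1⟩, ⟨1, [false,false,false,true,false,false], 2⟩, ⟨1, [false,false,false,false,true,false], 2⟩, ⟨1, [false,false,false,false,false,true], 2⟩, ⟨1, [false,false,false,false,true,true], 1⟩, ⟨2, [false,true,true,false,false,false], 2⟩, ⟨2, [true,false,false,true,false,false], 2⟩, ⟨2, [true,true,false,true,false,false], 2⟩, ⟨2, [true,false,true,true,false,false],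 2⟩, ⟨2, [false,true,true,true,false,false], 2⟩, ⟨2, [true,true,true,true,false,false], 1⟩, ⟨2, [true,false,false,true,true,false], 2⟩, ⟨2, [true,false,false,true,false,true], 2⟩, ⟨2, [false,false,false,false,true,true], 2⟩, ⟨2, [false,true,true,false,true,true], 2⟩, ⟨2, [false,false,false,true,true,true], 2⟩, ⟨2, [true,false,false,true,true,true], 1⟩]⟩
/-- class 5 -/
def c5 : Cls := ⟨6, 2, [[0,0,0,3,0,3], [0,0,0,3,3,0], [0,0,0,3,3,3], [0,0,0,3,3,4], [0,0,0,3,3,5], [0,0,0,3,4,3], [0,0,0,3,5,3], [0,0,3,3,0,3], [0,0,3,3,0,4], [0,0,3,3,3,0], [0,0,3,3,4,0], [0,2,0,5,2,5], [0,2,0,5,5,2], [0,2,2,5,0,5], [0,2,2,5,5,0], [0,2,5,5,0,2], [0,2,5,5,2,0]], [⟨1, [true,false,false,false,false,false], 2⟩, ⟨1, [false,true,false,false,false,false], 2⟩, ⟨1, [false,false,true,false,false,false], 2⟩, ⟨1, [false,false,false,true,false,false], 2⟩, ⟨1, [false,false,false,false,true,false],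 2⟩, ⟨1, [false,false,false,false,false,true], 2⟩, ⟨1, [false,false,false,false,true,true], 1⟩, ⟨2, [true,true,false,false,false,false], 2⟩, ⟨2, [true,false,false,true,false,false], 2⟩, ⟨2, [false,true,false,true,false,false], 2⟩, ⟨2, [true,true,false,true,false,false], 1⟩, ⟨2, [true,false,true,true,false,false], 2⟩, ⟨2, [false,true,true,true,false,false], 2⟩, ⟨2, [true,true,true,true,false,false], 1⟩, ⟨2, [false,false,true,false,true,false], 2⟩, ⟨2, [false,false,true,false,false,true], 2⟩, ⟨2, [false,false,false,false,true,true], 2⟩, ⟨2, [false,false,true,false,true,true], 1⟩]⟩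
/-- class 6 -/
def c6 : Cls := ⟨6, 2, [[0,0,0,3,0,3], [0,0,0,2,0,5], [0,0,0,3,3,0], [0,0,0,2,2,5], [0,0,0,3,3,5], [0,0,0,2,5,0], [0,0,0,2,5,2], [0,0,0,3,5,3], [0,0,3,0,0,3], [0,0,2,0,0,5], [0,0,3,0,3,0], [0,0,2,0,2,5], [0,0,3,0,3,5], [0,0,2,0,5,0], [0,0,2,0,5,2], [0,0,3,0,5,3], [0,2,0,2,0,2], [0,2,0,2,0,5], [0,2,0,2,2,0], [0,2,0,2,2,5], [0,2,0,2,5,0], [0,2,0,2,5,2], [0,2,2,0,0,2], [0,2,2,0,0,5], [0,2,2,0,2,0], [0,2,2,0,2,5], [0,2,2,0,5,0], [0,2,2,0,5,2]], [⟨1, [true,false,false,false,false,false], 2⟩, ⟨1, [false,true,false,false,false,false], 2⟩, ⟨1, [false,false,true,false,false,false], 2⟩, ⟨1, [false,false,false,true,false,false], 2⟩, ⟨1, [false,false,true,true,false,false], 1⟩, ⟨1, [false,false,false,false,true,false], 2⟩, ⟨1, [false,false,false,false,false,true], 2⟩, ⟨1, [false,false,false,false,true,true], 1⟩, ⟨2, [true,true,false,false,false,false], 2⟩, ⟨2, [false,false,true,true,false,false],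 2⟩, ⟨2, [true,true,true,true,false,false], 1⟩, ⟨2, [true,true,false,false,true,false], 2⟩, ⟨2, [true,true,false,false,false,true], 2⟩, ⟨2, [false,false,false,false,true,true], 2⟩, ⟨2, [true,false,false,false,true,true], 2⟩, ⟨2, [false,true,false,false,true,true], 2⟩, ⟨2, [true,true,false,false,true,true], 1⟩, ⟨2, [false,false,true,true,true,true], 2⟩]⟩
/-- class 7 -/
def c7 : Cls := ⟨5, 2, [[0,0,3,0,3], [0,0,3,3,3], [0,3,3,0,3], [0,3,3,3,0]], [⟨1, [true,false,false,false,false], 2⟩, ⟨1, [false,true,false,false,false], 2⟩, ⟨1, [false,false,true,false,false], 2⟩, ⟨1, [false,false,false,true,false], 2⟩, ⟨1, [false,false,false,false,true], 2⟩, ⟨2, [true,false,true,false,false], 2⟩, ⟨2, [true,true,true,false,false], 2⟩, ⟨2, [true,false,true,true,false], 2⟩, ⟨2, [false,true,false,false,true], 2⟩, ⟨2, [false,false,false,true,true], 2⟩, ⟨2, [false,true,false,true,true], 2⟩]⟩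
/-- class 8 -/
def c8 : Cls := ⟨5, 2, [[0,0,0,3,3], [0,0,0,2,5], [0,0,3,0,3], [0,0,2,0,5], [0,2,0,2,5], [0,2,2,0,5]], [⟨1, [true,false,false,false,false], 2⟩, ⟨1, [false,true,false,false,false], 2⟩, ⟨1, [false,false,true,false,false], 2⟩, ⟨1, [false,false,false,true,false], 2⟩, ⟨1, [false,false,true,true,false], 1⟩, ⟨1, [false,false,false,false,true], 2⟩, ⟨2, [true,true,false,false,false], 2⟩, ⟨2, [false,false,true,true,false], 2⟩, ⟨2, [true,false,false,false,true], 2⟩, ⟨2, [false,true,false,false,true], 2⟩, ⟨2, [true,true,false,false,true], 1⟩]⟩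
/-- class 9 -/
def c9 : Cls := ⟨5, 2, [[0,3,0,0,3], [0,3,0,3,0], [0,3,3,0,3], [0,3,3,3,0]], [⟨1, [true,false,false,false,false], 2⟩, ⟨1, [false,true,false,false,false], 2⟩, ⟨1, [false,false,true,false,false], 2⟩, ⟨1, [false,false,false,true,false], 2⟩, ⟨1, [false,false,false,false,true], 2⟩, ⟨2, [true,true,false,false,false], 2⟩, ⟨2, [true,true,true,false,false], 2⟩, ⟨2, [false,false,false,true,true], 2⟩, ⟨2, [false,false,true,true,true], 2⟩]⟩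
/-- class 10 -/
def c10 : Cls := ⟨6, 2, [[0,0,0,3,0,3], [0,0,0,3,3,0], [0,0,0,3,3,5], [0,0,0,3,5,3], [0,0,3,0,0,3], [0,0,3,0,3,0], [0,0,3,0,3,5], [0,0,3,0,5,3], [0,3,0,3,0,3], [0,3,0,3,0,4], [0,3,0,3,3,0], [0,3,0,3,4,0], [0,3,3,3,0,3], [0,3,3,3,0,4], [0,3,3,3,3,0], [0,3,3,3,4,0], [0,3,4,3,0,4], [0,3,4,3,4,0]], [⟨1, [true,false,false,false,false,false], 2⟩, ⟨1, [false,true,false,false,false,false], 2⟩, ⟨1, [false,false,true,false,false,false], 2⟩, ⟨1, [false,false,false,true,false,false], 2⟩, ⟨1, [false,false,false,false,true,false], 2⟩, ⟨1, [false,false,false,false,false,true], 2⟩, ⟨1, [false,false,false,false,true,true], 1⟩, ⟨2, [true,true,true,false,false,false], 2⟩, ⟨2, [true,false,false,true,false,false], 2⟩, ⟨2, [true,true,false,true,false,false], 2⟩, ⟨2, [false,false,true,true,false,false], 2⟩, ⟨2, [true,false,true,true,false,false], 2⟩, ⟨2, [false,true,true,true,false,false],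 2⟩, ⟨2, [true,true,true,true,false,false], 1⟩, ⟨2, [false,false,false,false,true,true], 2⟩, ⟨2, [false,true,false,false,true,true], 2⟩, ⟨2, [true,true,false,false,true,true], 2⟩, ⟨2, [false,true,true,false,true,true], 2⟩]⟩
/-- class 11 -/
def c11 : Cls := ⟨6, 2, [[0,3,0,3,0,3], [0,3,0,3,0,4], [0,3,0,3,3,0], [0,3,0,3,3,5], [0,3,0,3,4,0], [0,3,0,3,5,3], [0,3,0,5,3,5], [0,3,0,5,5,3], [0,3,3,0,0,3], [0,3,3,0,3,0], [0,3,3,0,3,5], [0,3,3,0,5,3], [0,3,3,3,0,3], [0,3,3,3,0,4], [0,3,3,3,3,0], [0,3,3,3,4,0], [0,3,5,0,3,5], [0,3,5,0,5,3], [0,3,4,3,0,4], [0,3,4,3,4,0]], [⟨1, [true,false,false,false,false,false], 2⟩, ⟨1, [false,true,false,false,false,false], 2⟩, ⟨1, [false,false,true,false,false,false], 2⟩, ⟨1, [false,false,false,true,false,false], 2⟩, ⟨1, [false,false,false,false,true,false], 2⟩, ⟨1, [false,false,false,false,false,true], 2⟩, ⟨1, [false,false,false,false,true,true],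 1⟩, ⟨2, [true,true,false,false,false,false], 2⟩, ⟨2, [true,true,true,false,false,false], 2⟩, ⟨2, [true,true,false,true,false,false], 2⟩, ⟨2, [false,false,true,true,false,false], 2⟩, ⟨2, [true,false,true,true,false,false], 2⟩, ⟨2, [false,true,true,true,false,false], 2⟩, ⟨2, [true,true,true,true,false,false], 1⟩, ⟨2, [false,false,false,false,true,true], 2⟩, ⟨2, [true,true,false,false,true,true], 2⟩, ⟨2, [false,false,false,true,true,true], 2⟩, ⟨2, [false,false,true,true,true,true], 2⟩]⟩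
/-- class 12 -/
def c12 : Cls := ⟨6, 2, [[0,0,0,3,0,3], [0,0,0,3,3,0], [0,0,0,3,3,5], [0,0,0,3,5,3], [0,0,3,3,0,3], [0,0,3,3,3,0], [0,0,3,3,3,5], [0,0,3,3,5,3], [0,0,3,5,3,5], [0,0,3,5,5,3], [0,3,0,3,0,3], [0,3,0,3,3,0], [0,3,0,3,3,5], [0,3,0,3,5,3], [0,3,0,5,3,5], [0,3,0,5,5,3], [0,3,3,0,0,3], [0,3,3,0,3,0], [0,3,3,0,3,5], [0,3,3,0,5,3], [0,3,5,0,3,5], [0,3,5,0,5,3]], [⟨1, [true,false,false,false,false,false], 2⟩, ⟨1, [false,true,false,false,false,false], 2⟩, ⟨1, [false,false,true,false,false,false], 2⟩, ⟨1, [false,false,false,true,false,false], 2⟩, ⟨1, [false,false,false,false,true,false], 2⟩, ⟨1, [false,false,false,false,false,true], 2⟩, ⟨1, [false,false,false,false,true,true], 1⟩, ⟨2, [true,true,true,false,false,false], 2⟩, ⟨2, [false,true,false,true,false,false], 2⟩, ⟨2, [true,true,false,true,false,false], 2⟩, ⟨2, [false,false,true,true,false,false], 2⟩, ⟨2, [true,false,true,true,false,false],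 2⟩, ⟨2, [false,true,true,true,false,false], 2⟩, ⟨2, [true,true,true,true,false,false], 1⟩, ⟨2, [false,false,false,false,true,true], 2⟩, ⟨2, [true,false,false,false,true,true], 2⟩, ⟨2, [true,true,false,false,true,true], 2⟩, ⟨2, [true,false,true,false,true,true], 2⟩]⟩
/-- class 13 -/
def c13 : Cls := ⟨6, 2, [[0,0,3,0,0,3], [0,0,3,0,3,0], [0,0,3,0,3,5], [0,0,3,0,5,3], [0,0,3,3,0,3], [0,0,3,3,3,0], [0,0,3,3,3,5], [0,0,3,3,5,3], [0,0,3,5,3,5], [0,0,3,5,5,3], [0,3,3,0,0,3], [0,3,3,0,3,0], [0,3,3,0,3,5], [0,3,3,0,5,3], [0,3,3,3,0,3], [0,3,3,3,0,4], [0,3,3,3,3,0], [0,3,3,3,4,0], [0,3,5,0,3,5], [0,3,5,0,5,3]], [⟨1, [true,false,false,false,false,false], 2⟩, ⟨1, [false,true,false,false,false,false], 2⟩, ⟨1, [false,false,true,false,false,false], 2⟩, ⟨1, [false,false,false,true,false,false], 2⟩, ⟨1, [false,false,false,false,true,false], 2⟩, ⟨1, [false,false,false,false,false,true],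 2⟩, ⟨1, [false,false,false,false,true,true], 1⟩, ⟨2, [true,false,true,false,false,false], 2⟩, ⟨2, [true,true,true,false,false,false], 2⟩, ⟨2, [true,true,false,true,false,false], 2⟩, ⟨2, [true,false,true,true,false,false], 2⟩, ⟨2, [false,true,true,true,false,false], 2⟩, ⟨2, [true,true,true,true,false,false], 1⟩, ⟨2, [false,false,false,false,true,true], 2⟩, ⟨2, [false,true,false,false,true,true], 2⟩, ⟨2, [false,false,false,true,true,true], 2⟩, ⟨2, [false,true,false,true,true,true], 2⟩]⟩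
/-- class 14 -/
def c14 : Cls := ⟨4, 2, [[0,0,0,0], [0,0,0,3]], [⟨1, [true,false,false,false], 2⟩, ⟨1, [false,true,false,false], 2⟩, ⟨1, [false,false,true,false], 2⟩, ⟨1, [false,false,false,true], 2⟩]⟩
/-- class 15 -/
def c15 : Cls := ⟨6, 2, [[0,0,0,0,0,0], [0,0,0,0,0,3], [0,0,0,0,3,0], [0,0,0,0,3,5], [0,0,0,3,0,0], [0,0,0,3,0,3], [0,0,0,3,0,4], [0,0,0,3,0,5], [0,0,0,3,3,0], [0,0,0,3,4,0], [0,0,0,3,5,0], [0,0,2,5,0,2], [0,0,2,5,2,0], [0,2,0,5,0,2], [0,2,0,5,2,0], [0,2,2,5,0,2], [0,2,2,5,2,0]], [⟨1, [true,false,false,false,false,false], 2⟩, ⟨1, [false,true,false,false,false,false], 2⟩, ⟨1, [false,false,true,false,false,false], 2⟩, ⟨1, [false,false,false,true,false,false], 2⟩, ⟨1, [false,false,false,false,true,false], 2⟩, ⟨1, [false,false,false,false,false,true], 2⟩, ⟨1, [false,false,false,false,true,true], 1⟩, ⟨2, [true,true,false,false,false,false], 2⟩, ⟨2, [true,false,true,false,false,false],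 2⟩, ⟨2, [false,true,true,false,false,false], 2⟩, ⟨2, [true,true,true,false,false,false], 1⟩, ⟨2, [true,true,false,true,false,false], 2⟩, ⟨2, [true,false,true,true,false,false], 2⟩, ⟨2, [false,true,true,true,false,false], 2⟩, ⟨2, [true,true,true,true,false,false], 1⟩, ⟨2, [false,false,false,false,true,true], 2⟩, ⟨2, [false,false,false,true,true,true], 1⟩]⟩
/-- class 16 -/
def c16 : Cls := ⟨6, 2, [[0,0,0,3,0,3], [0,0,0,3,3,0], [0,0,0,3,3,5], [0,0,0,3,5,3], [0,0,3,0,0,3], [0,0,3,0,3,0], [0,0,3,0,3,5], [0,0,3,0,5,3], [0,3,0,3,0,3], [0,3,0,3,3,0], [0,3,0,3,3,5], [0,3,0,3,5,3], [0,3,0,5,3,5], [0,3,0,5,5,3], [0,3,3,0,0,3], [0,3,3,0,3,0], [0,3,3,0,3,5], [0,3,3,0,5,3], [0,3,5,0,3,5], [0,3,5,0,5,3]], [⟨1, [true,false,false,false,false,false], 2⟩, ⟨1, [false,true,false,false,false,false], 2⟩, ⟨1, [false,false,true,false,false,false], 2⟩, ⟨1, [false,false,false,true,false,false],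 2⟩, ⟨1, [false,false,false,false,true,false], 2⟩, ⟨1, [false,false,false,false,false,true], 2⟩, ⟨1, [false,false,false,false,true,true], 1⟩, ⟨2, [true,true,true,false,false,false], 2⟩, ⟨2, [true,true,false,true,false,false], 2⟩, ⟨2, [false,false,true,true,false,false], 2⟩, ⟨2, [true,false,true,true,false,false], 2⟩, ⟨2, [false,true,true,true,false,false], 2⟩, ⟨2, [true,true,true,true,false,false], 1⟩, ⟨2, [false,false,false,false,true,true], 2⟩, ⟨2, [true,false,false,false,true,true], 2⟩, ⟨2, [true,true,false,false,true,true], 2⟩]⟩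
/-- class 17 -/
def c17 : Cls := ⟨6, 2, [[0,3,0,3,0,3], [0,3,0,3,0,4], [0,3,0,3,3,0], [0,3,0,3,3,5], [0,3,0,3,4,0], [0,3,0,3,5,3], [0,3,0,5,3,5], [0,3,0,5,5,3], [0,3,3,0,0,3], [0,3,3,0,0,4], [0,3,3,0,3,0], [0,3,3,0,3,5], [0,3,3,0,4,0], [0,3,3,0,5,3], [0,3,3,4,0,4], [0,3,3,4,4,0], [0,3,5,0,3,5], [0,3,5,0,5,3], [0,3,4,3,0,4], [0,3,4,3,4,0]], [⟨1, [true,false,false,false,false,false], 2⟩, ⟨1, [false,true,false,false,false,false], 2⟩, ⟨1, [false,false,true,false,false,false], 2⟩, ⟨1, [false,false,false,true,false,false], 2⟩, ⟨1, [false,false,false,false,true,false], 2⟩, ⟨1, [false,false,false,false,false,true], 2⟩, ⟨1, [false,false,false,false,true,true], 1⟩, ⟨2, [true,true,false,false,false,false], 2⟩, ⟨2, [true,true,true,false,false,false], 2⟩, ⟨2, [true,true,false,true,false,false], 2⟩, ⟨2, [false,false,true,true,false,false], 2⟩, ⟨2, [true,false,true,true,false,false],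 2⟩, ⟨2, [false,true,true,true,false,false], 2⟩, ⟨2, [true,true,true,true,false,false], 1⟩, ⟨2, [false,false,false,false,true,true], 2⟩, ⟨2, [true,true,false,false,true,true], 2⟩, ⟨2, [false,false,true,true,true,true], 2⟩]⟩
/-- class 18 -/
def c18 : Cls := ⟨5, 2, [[0,0,0,0,0], [0,0,0,0,3], [0,0,0,3,0], [0,0,0,3,5]], [⟨1, [true,false,false,false,false], 2⟩, ⟨1, [false,true,false,false,false], 2⟩, ⟨1, [false,false,true,false,false], 2⟩, ⟨1, [false,false,false,true,false], 2⟩, ⟨1, [false,false,false,false,true], 2⟩, ⟨1, [false,false,false,true,true], 1⟩, ⟨2, [true,true,false,false,false], 2⟩, ⟨2, [true,false,true,false,false], 2⟩, ⟨2, [false,true,true,false,false], 2⟩, ⟨2, [true,true,true,false,false], 1⟩, ⟨2, [false,false,false,true,true], 2⟩]⟩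
/-- class 19 -/
def c19 : Cls := ⟨5, 2, [[0,0,0,0,0], [0,0,0,0,3], [0,0,3,0,0], [0,0,3,0,3], [0,0,3,0,4], [0,0,3,0,5], [0,0,3,3,0], [0,2,5,0,2], [0,2,5,2,0]], [⟨1, [true,false,false,false,false], 2⟩, ⟨1, [false,true,false,false,false], 2⟩, ⟨1, [false,false,true,false,false], 2⟩, ⟨1, [false,false,false,true,false], 2⟩, ⟨1, [false,false,false,false,true], 2⟩, ⟨2, [true,true,false,false,false], 2⟩, ⟨2, [true,true,true,false,false], 2⟩, ⟨2, [false,false,false,true,true], 2⟩, ⟨2, [false,false,true,true,true], 2⟩]⟩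
/-- class 20 -/
def c20 : Cls := ⟨5, 2, [[0,0,0,0,0], [0,0,0,0,3], [0,0,0,3,0], [0,0,0,3,3], [0,0,0,2,5], [0,0,0,3,5], [0,0,3,0,3], [0,2,0,2,5], [0,2,2,0,5]], [⟨1, [true,false,false,false,false], 2⟩, ⟨1, [false,true,false,false,false], 2⟩, ⟨1, [false,false,true,false,false], 2⟩, ⟨1, [false,false,false,true,false], 2⟩, ⟨1, [false,false,false,false,true], 2⟩, ⟨2, [true,true,false,false,false], 2⟩, ⟨2, [true,true,true,false,false], 2⟩, ⟨2, [false,false,false,true,true], 2⟩, ⟨2, [false,false,true,true,true], 2⟩]⟩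
/-- class 21 -/
def c21 : Cls := ⟨6, 2, [[0,0,0,3,0,3], [0,0,0,3,0,4], [0,0,0,3,3,0], [0,0,0,3,4,0], [0,0,2,5,0,2], [0,0,2,5,2,0], [0,3,0,0,0,3], [0,3,0,0,0,4], [0,3,0,0,3,0], [0,3,0,0,4,0], [0,2,0,2,0,2], [0,3,0,3,0,3], [0,3,0,3,0,4], [0,2,0,2,2,0], [0,3,0,3,3,0], [0,3,0,3,4,0], [0,3,0,4,0,3], [0,2,0,5,0,2], [0,3,0,5,0,3], [0,3,0,4,3,0], [0,2,0,5,2,0], [0,3,0,5,3,0], [0,3,0,4,3,4], [0,3,0,4,4,3], [0,2,2,0,0,2], [0,3,3,0,0,3], [0,3,3,0,0,4], [0,2,2,0,2,0], [0,3,3,0,3,0], [0,3,3,0,4,0], [0,2,2,5,0,2], [0,3,3,4,0,4], [0,2,2,5,2,0], [0,3,3,4,4,0], [0,3,4,0,0,4], [0,3,4,0,3,4], [0,3,4,0,4,0], [0,3,4,0,4,3], [0,3,4,3,0,4], [0,3,4,3,4,0]], [⟨1, [true,false,false,false,false,false], 2⟩, ⟨1, [false,true,false,false,false,false], 2⟩, ⟨1, [false,false,true,false,false,false], 2⟩, ⟨1, [false,false,false,true,false,false], 2⟩, ⟨1, [false,false,false,false,true,false], 2⟩, ⟨1,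 [false,false,false,false,false,true], 2⟩, ⟨1, [false,false,false,false,true,true], 1⟩, ⟨2, [true,true,true,false,false,false], 2⟩, ⟨2, [true,true,false,true,false,false], 2⟩, ⟨2, [false,false,true,true,false,false], 2⟩, ⟨2, [true,false,true,true,false,false], 2⟩, ⟨2, [false,true,true,true,false,false], 2⟩, ⟨2, [true,true,true,true,false,false], 1⟩, ⟨2, [false,false,false,false,true,true], 2⟩, ⟨2, [true,true,false,false,true,true], 2⟩]⟩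
/-- class 22 -/
def c22 : Cls := ⟨6, 2, [[0,0,0,0,0,0], [0,0,0,0,0,3], [0,0,0,0,3,0], [0,0,0,0,3,5], [0,0,0,3,0,0], [0,0,0,3,0,3], [0,0,0,3,0,4], [0,0,0,2,0,5], [0,0,0,3,0,5], [0,0,0,3,3,0], [0,0,0,2,2,5], [0,0,0,3,3,5], [0,0,0,3,4,0], [0,0,0,2,5,0], [0,0,0,3,5,0], [0,0,0,2,5,2], [0,0,0,3,5,3], [0,0,3,0,0,3], [0,0,3,0,3,0], [0,0,2,5,0,2], [0,0,2,5,2,0], [0,2,0,2,0,2], [0,2,0,2,0,5], [0,2,0,2,2,0], [0,2,0,2,2,5], [0,2,0,2,5,0], [0,2,0,2,5,2], [0,2,0,5,0,2], [0,2,0,5,2,0], [0,2,2,0,0,2], [0,2,2,0,0,5], [0,2,2,0,2,0], [0,2,2,0,2,5], [0,2,2,0,5,0], [0,2,2,0,5,2], [0,2,2,5,0,2], [0,2,2,5,2,0]], [⟨1, [true,false,false,false,false,false], 2⟩, ⟨1, [false,true,false,false,false,false], 2⟩, ⟨1, [false,false,true,false,false,false], 2⟩, ⟨1, [false,false,false,true,false,false], 2⟩, ⟨1, [false,false,false,false,true,false], 2⟩, ⟨1, [false,false,false,false,false,true], 2⟩, ⟨1,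 [false,false,false,false,true,true], 1⟩, ⟨2, [true,true,false,false,false,false], 2⟩, ⟨2, [true,true,true,false,false,false], 2⟩, ⟨2, [true,true,false,true,false,false], 2⟩, ⟨2, [false,false,true,true,false,false], 2⟩, ⟨2, [true,false,true,true,false,false], 2⟩, ⟨2, [false,true,true,true,false,false], 2⟩, ⟨2, [true,true,true,true,false,false], 1⟩, ⟨2, [false,false,false,false,true,true], 2⟩, ⟨2, [true,true,false,false,true,true], 2⟩, ⟨2, [false,false,true,true,true,true], 2⟩]⟩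
/-- class 23 -/
def c23 : Cls := ⟨6, 2, [[0,0,0,3,0,3], [0,0,0,3,0,4], [0,0,0,3,3,0], [0,0,0,3,4,0], [0,0,3,0,0,3], [0,0,3,0,0,4], [0,0,3,0,3,0], [0,0,3,0,4,0], [0,0,3,3,0,3], [0,0,3,3,0,4], [0,0,3,3,3,0], [0,0,3,3,4,0], [0,0,2,5,0,2], [0,0,3,5,0,3], [0,0,3,4,0,4], [0,0,3,5,0,5], [0,0,2,5,2,0], [0,0,3,5,3,0], [0,0,3,4,4,0], [0,0,3,5,5,0], [0,2,0,2,0,2], [0,2,0,2,2,0], [0,2,0,5,0,2], [0,2,0,5,2,0], [0,2,2,0,0,2], [0,2,2,0,2,0], [0,2,2,5,0,2], [0,2,2,5,2,0], [0,2,5,0,0,2], [0,2,5,0,2,0], [0,2,5,2,0,2], [0,2,5,2,2,0], [0,2,5,5,0,2], [0,2,5,5,2,0]], [⟨1, [true,false,false,false,false,false], 2⟩, ⟨1, [false,true,false,false,false,false], 2⟩, ⟨1, [false,false,true,false,false,false], 2⟩, ⟨1, [false,false,false,true,false,false], 2⟩, ⟨1, [false,false,false,false,true,false], 2⟩, ⟨1, [false,false,false,false,false,true], 2⟩, ⟨1, [false,false,false,false,true,true], 1⟩, ⟨2,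 [true,true,false,false,false,false], 2⟩, ⟨2, [true,true,true,false,false,false], 2⟩, ⟨2, [true,true,false,true,false,false], 2⟩, ⟨2, [true,false,true,true,false,false], 2⟩, ⟨2, [false,true,true,true,false,false], 2⟩, ⟨2, [true,true,true,true,false,false], 1⟩, ⟨2, [false,false,false,false,true,true], 2⟩, ⟨2, [false,false,true,true,true,true], 2⟩]⟩
/-- class 24 -/
def c24 : Cls := ⟨6, 2, [[0,0,0,0,0,0], [0,0,0,0,0,3], [0,0,0,0,3,0], [0,0,0,0,3,5], [0,0,3,0,0,0], [0,0,3,0,0,3], [0,0,3,0,0,4], [0,0,3,0,0,5], [0,0,3,0,3,0], [0,0,3,0,3,3], [0,0,3,0,3,4], [0,0,3,0,3,5], [0,0,3,0,4,0], [0,0,3,0,5,0], [0,0,3,0,4,3], [0,0,3,0,5,3], [0,0,3,3,0,3], [0,0,3,3,0,4], [0,0,3,3,3,0], [0,0,3,3,4,0], [0,2,0,2,0,2], [0,2,0,2,2,0], [0,2,2,0,0,2], [0,2,2,0,2,0], [0,2,5,0,0,2], [0,2,5,0,2,0], [0,2,5,0,2,5], [0,2,5,0,5,2], [0,2,5,2,0,2], [0,2,5,2,0,5], [0,2,5,2,2,0], [0,2,5,2,5,0], [0,2,5,5,0,2],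 [0,2,5,5,2,0]], [⟨1, [true,false,false,false,false,false], 2⟩, ⟨1, [false,true,false,false,false,false], 2⟩, ⟨1, [false,false,true,false,false,false], 2⟩, ⟨1, [false,false,false,true,false,false], 2⟩, ⟨1, [false,false,false,false,true,false], 2⟩, ⟨1, [false,false,false,false,false,true], 2⟩, ⟨1, [false,false,false,false,true,true], 1⟩, ⟨2, [true,true,false,false,false,false], 2⟩, ⟨2, [true,true,true,false,false,false], 2⟩, ⟨2, [true,true,false,true,false,false], 2⟩, ⟨2, [true,false,true,true,false,false], 2⟩, ⟨2, [false,true,true,true,false,false], 2⟩, ⟨2, [true,true,true,true,false,false], 1⟩, ⟨2, [false,false,false,false,true,true], 2⟩, ⟨2, [false,false,true,true,true,true], 2⟩]⟩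
/-- class 25 -/
def c25 : Cls := ⟨6, 2, [[0,0,0,3,0,3], [0,0,0,3,0,4], [0,0,0,3,3,0], [0,0,0,3,4,0], [0,0,3,0,0,3], [0,0,3,0,0,4], [0,0,3,0,3,0], [0,0,3,0,4,0], [0,0,3,3,0,3], [0,0,3,3,3,0], [0,0,2,5,0,2], [0,0,3,4,0,4], [0,0,2,5,0,5], [0,0,3,5,0,5], [0,0,2,5,2,0], [0,0,2,5,2,5], [0,0,3,4,4,0], [0,0,2,5,5,0], [0,0,3,5,5,0], [0,0,2,5,5,2], [0,2,0,2,0,2], [0,3,0,3,0,3], [0,3,0,3,0,4], [0,2,0,2,2,0], [0,3,0,3,3,0], [0,3,0,3,4,0], [0,2,0,5,0,2], [0,2,0,5,2,0], [0,2,0,5,2,5], [0,2,0,5,5,2], [0,2,2,0,0,2], [0,2,2,0,2,0], [0,2,2,5,0,2], [0,2,2,5,2,0], [0,2,5,0,0,2], [0,2,5,0,2,0], [0,2,5,2,0,2], [0,3,4,3,0,4], [0,2,5,2,2,0], [0,3,4,3,4,0]], [⟨1, [true,false,false,false,false,false], 2⟩, ⟨1, [false,true,false,false,false,false], 2⟩, ⟨1, [false,false,true,false,false,false], 2⟩, ⟨1, [false,false,false,true,false,false], 2⟩, ⟨1, [false,false,false,false,true,false], 2⟩, ⟨1,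 [false,false,false,false,false,true], 2⟩, ⟨1, [false,false,false,false,true,true], 1⟩, ⟨2, [true,true,true,false,false,false], 2⟩, ⟨2, [true,true,false,true,false,false], 2⟩, ⟨2, [false,false,true,true,false,false], 2⟩, ⟨2, [true,false,true,true,false,false], 2⟩, ⟨2, [false,true,true,true,false,false], 2⟩, ⟨2, [true,true,true,true,false,false], 1⟩, ⟨2, [false,false,false,false,true,true], 2⟩, ⟨2, [true,true,false,false,true,true], 2⟩]⟩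
/-- class 26 -/
def c26 : Cls := ⟨6, 2, [[0,0,0,3,0,3], [0,0,0,3,0,4], [0,0,0,3,3,0], [0,0,0,3,4,0], [0,0,3,0,0,3], [0,0,3,0,0,4], [0,0,3,0,3,0], [0,0,3,0,4,0], [0,0,3,3,0,3], [0,0,3,3,3,0], [0,0,2,5,0,2], [0,0,3,5,0,3], [0,0,3,4,0,4], [0,0,3,5,0,5], [0,0,2,5,2,0], [0,0,3,5,3,0], [0,0,3,4,4,0], [0,0,3,5,5,0], [0,2,0,2,0,2], [0,2,0,2,2,0], [0,2,0,5,0,2], [0,2,0,5,2,0], [0,2,2,0,0,2], [0,2,2,0,2,0], [0,2,2,5,0,2], [0,2,2,5,2,0], [0,2,5,0,0,2], [0,2,5,0,2,0], [0,2,5,2,0,2], [0,2,5,2,2,0]], [⟨1, [true,false,false,false,false,false], 2⟩, ⟨1, [false,true,false,false,false,false], 2⟩, ⟨1, [false,false,true,false,false,false], 2⟩, ⟨1, [false,false,false,true,false,false], 2⟩, ⟨1, [false,false,false,false,true,false], 2⟩, ⟨1, [false,false,false,false,false,true], 2⟩, ⟨1, [false,false,false,false,true,true], 1⟩, ⟨2, [true,true,false,false,false,false], 2⟩, ⟨2, [true,true,true,false,false,false],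 2⟩, ⟨2, [true,true,false,true,false,false], 2⟩, ⟨2, [false,false,true,true,false,false], 2⟩, ⟨2, [true,false,true,true,false,false], 2⟩, ⟨2, [false,true,true,true,false,false], 2⟩, ⟨2, [true,true,true,true,false,false], 1⟩, ⟨2, [false,false,false,false,true,true], 2⟩, ⟨2, [true,true,false,false,true,true], 2⟩, ⟨2, [false,false,true,true,true,true], 2⟩]⟩
/-- class 27 -/
def c27 : Cls := ⟨6, 2, [[0,0,0,0,0,0], [0,0,0,0,0,3], [0,0,0,0,3,0], [0,0,0,0,3,5], [0,0,0,3,0,0], [0,0,0,3,0,3], [0,0,0,3,0,4], [0,0,0,3,0,5], [0,0,0,3,3,0], [0,0,0,3,3,3], [0,0,0,3,3,4], [0,0,0,3,3,5], [0,0,0,3,4,0], [0,0,0,3,5,0], [0,0,0,3,4,3], [0,0,0,3,5,3], [0,0,3,3,0,3], [0,0,3,3,0,4], [0,0,3,3,3,0], [0,0,3,3,4,0], [0,2,0,2,0,2], [0,2,0,2,2,0], [0,2,0,5,0,2], [0,2,0,5,2,0], [0,2,0,5,2,5], [0,2,0,5,5,2], [0,2,2,0,0,2], [0,2,2,0,2,0], [0,2,2,5,0,2], [0,2,2,5,0,5], [0,2,2,5,2,0], [0,2,2,5,5,0],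 [0,2,5,5,0,2], [0,2,5,5,2,0]], [⟨1, [true,false,false,false,false,false], 2⟩, ⟨1, [false,true,false,false,false,false], 2⟩, ⟨1, [false,false,true,false,false,false], 2⟩, ⟨1, [false,false,false,true,false,false], 2⟩, ⟨1, [false,false,false,false,true,false], 2⟩, ⟨1, [false,false,false,false,false,true], 2⟩, ⟨1, [false,false,false,false,true,true], 1⟩, ⟨2, [true,true,false,false,false,false], 2⟩, ⟨2, [true,true,true,false,false,false], 2⟩, ⟨2, [true,true,false,true,false,false], 2⟩, ⟨2, [true,false,true,true,false,false], 2⟩, ⟨2, [false,true,true,true,false,false], 2⟩, ⟨2, [true,true,true,true,false,false], 1⟩, ⟨2, [false,false,false,false,true,true], 2⟩, ⟨2, [false,false,true,true,true,true], 2⟩]⟩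
/-- class 28 -/
def c28 : Cls := ⟨6, 2, [[0,0,0,0,0,0], [0,0,0,0,0,3], [0,0,0,0,3,0], [0,0,0,0,3,5], [0,0,0,3,0,0], [0,0,0,3,0,3], [0,0,0,3,0,4], [0,0,0,2,0,5], [0,0,0,3,0,5], [0,0,0,3,3,0], [0,0,0,2,2,5], [0,0,0,3,3,5], [0,0,0,3,4,0], [0,0,0,2,5,0], [0,0,0,3,5,0], [0,0,0,2,5,2], [0,0,0,3,5,3], [0,0,3,0,0,3], [0,0,3,0,3,0], [0,0,2,5,0,2], [0,0,2,5,2,0], [0,2,0,2,0,2], [0,2,0,2,0,5], [0,2,0,2,2,0], [0,2,0,2,2,5], [0,2,0,2,5,0], [0,2,0,2,5,2], [0,2,0,5,0,2], [0,2,0,5,2,0], [0,2,2,0,0,2], [0,2,2,0,0,5], [0,2,2,0,2,0], [0,2,2,0,2,5], [0,2,2,0,5,0], [0,2,2,0,5,2], [0,2,2,5,0,2], [0,2,2,5,2,0]], [⟨1, [true,false,false,false,false,false], 2⟩, ⟨1, [false,true,false,false,false,false], 2⟩, ⟨1, [false,false,true,false,false,false], 2⟩, ⟨1, [false,false,false,true,false,false], 2⟩, ⟨1, [false,false,false,false,true,false], 2⟩, ⟨1, [false,false,false,false,false,true], 2⟩, ⟨1,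 [false,false,false,false,true,true], 1⟩, ⟨2, [true,true,false,false,false,false], 2⟩, ⟨2, [true,true,true,false,false,false], 2⟩, ⟨2, [true,true,false,true,false,false], 2⟩, ⟨2, [true,false,true,true,false,false], 2⟩, ⟨2, [false,true,true,true,false,false], 2⟩, ⟨2, [true,true,true,true,false,false], 1⟩, ⟨2, [false,false,false,false,true,true], 2⟩, ⟨2, [false,false,true,true,true,true], 2⟩]⟩
/-- class 29 -/
def c29 : Cls := ⟨5, 2, [[0,0,0,0,0], [0,0,0,0,3], [0,0,0,3,0], [0,0,3,3,0], [0,3,0,0,3], [0,3,3,0,3]], [⟨1, [true,false,false,false,false], 2⟩, ⟨1, [false,true,false,false,false], 2⟩, ⟨1, [false,false,true,false,false], 2⟩, ⟨1, [false,false,false,true,false], 2⟩, ⟨1, [false,false,false,false,true], 2⟩, ⟨2, [true,true,true,false,false], 2⟩, ⟨2, [false,false,false,true,true], 2⟩]⟩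
/-- class 30 -/
def c30 : Cls := ⟨5, 2, [[0,0,3,0,3], [0,0,3,3,0], [0,3,0,0,3], [0,3,0,3,0], [0,3,3,0,3], [0,3,3,3,0]], [⟨1, [true,false,false,false,false], 2⟩, ⟨1, [false,true,false,false,false], 2⟩, ⟨1, [false,false,true,false,false], 2⟩, ⟨1, [false,false,false,true,false], 2⟩, ⟨1, [false,false,false,false,true], 2⟩, ⟨2, [true,true,true,false,false], 2⟩, ⟨2, [false,false,false,true,true], 2⟩]⟩
/-- class 31 -/
def c31 : Cls := ⟨6, 2, [[0,0,0,3,0,3], [0,0,0,3,0,4], [0,0,0,3,3,0], [0,0,0,3,4,0], [0,0,3,0,0,3], [0,0,3,0,0,4], [0,0,3,0,3,0], [0,0,3,0,3,5], [0,0,3,0,4,0], [0,0,3,0,5,3], [0,0,2,5,0,2], [0,0,3,4,0,4], [0,0,2,5,2,0], [0,0,3,4,4,0], [0,2,0,2,0,2], [0,2,0,2,2,0], [0,2,0,5,0,2], [0,2,0,5,2,0], [0,2,2,0,0,2], [0,3,3,0,0,3], [0,3,3,0,0,4], [0,2,2,0,2,0], [0,3,3,0,3,0], [0,3,3,0,3,5], [0,3,3,0,4,0], [0,3,3,0,5,3], [0,3,3,4,0,4], [0,3,3,4,4,0], [0,3,5,0,3,5], [0,3,5,0,5,3],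 [0,2,5,2,0,2], [0,2,5,2,2,0]], [⟨1, [true,false,false,false,false,false], 2⟩, ⟨1, [false,true,false,false,false,false], 2⟩, ⟨1, [false,false,true,false,false,false], 2⟩, ⟨1, [false,false,false,true,false,false], 2⟩, ⟨1, [false,false,false,false,true,false], 2⟩, ⟨1, [false,false,false,false,false,true], 2⟩, ⟨1, [false,false,false,false,true,true], 1⟩, ⟨2, [true,true,true,false,false,false], 2⟩, ⟨2, [true,true,false,true,false,false], 2⟩, ⟨2, [false,false,true,true,false,false], 2⟩, ⟨2, [true,false,true,true,false,false], 2⟩, ⟨2, [false,true,true,true,false,false], 2⟩, ⟨2, [true,true,true,true,false,false], 1⟩, ⟨2, [false,false,false,false,true,true], 2⟩, ⟨2, [true,true,false,false,true,true], 2⟩]⟩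
/-- class 32 -/
def c32 : Cls := ⟨6, 2, [[0,0,0,3,0,3], [0,0,0,3,0,4], [0,0,0,3,3,0], [0,0,0,3,3,5], [0,0,0,3,4,0], [0,0,0,3,5,3], [0,0,3,0,0,3], [0,0,3,0,0,4], [0,0,3,0,3,0], [0,0,3,0,4,0], [0,0,2,5,0,2], [0,0,2,5,2,0], [0,2,0,2,0,2], [0,3,0,3,0,3], [0,2,0,2,2,0], [0,3,0,3,3,0], [0,3,0,3,3,5], [0,3,0,3,5,3], [0,3,0,5,3,5], [0,3,0,5,5,3], [0,2,2,0,0,2], [0,3,3,0,0,3], [0,3,3,0,0,4], [0,2,2,0,2,0], [0,3,3,0,3,0], [0,3,3,0,4,0], [0,3,3,4,0,4], [0,3,3,4,4,0], [0,2,5,0,0,2], [0,2,5,0,2,0], [0,2,5,2,0,2], [0,2,5,2,2,0]], [⟨1, [true,false,false,false,false,false], 2⟩, ⟨1, [false,true,false,false,false,false], 2⟩, ⟨1, [false,false,true,false,false,false], 2⟩, ⟨1, [false,false,false,true,false,false], 2⟩, ⟨1, [false,false,false,false,true,false], 2⟩, ⟨1, [false,false,false,false,false,true], 2⟩, ⟨1, [false,false,false,false,true,true], 1⟩, ⟨2, [true,true,true,false,false,false],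 2⟩, ⟨2, [true,true,false,true,false,false], 2⟩, ⟨2, [false,false,true,true,false,false], 2⟩, ⟨2, [true,false,true,true,false,false], 2⟩, ⟨2, [false,true,true,true,false,false], 2⟩, ⟨2, [true,true,true,true,false,false], 1⟩, ⟨2, [false,false,false,false,true,true], 2⟩, ⟨2, [true,true,false,false,true,true], 2⟩]⟩
/-- class 33 -/
def c33 : Cls := ⟨6, 2, [[0,0,0,0,0,0], [0,0,0,0,0,3], [0,0,0,0,3,0], [0,0,0,0,3,5], [0,0,0,3,0,3], [0,0,0,3,0,4], [0,0,0,3,3,0], [0,0,0,3,4,0], [0,0,3,0,0,3], [0,0,3,0,3,0], [0,0,2,2,0,2], [0,0,2,2,2,0], [0,0,2,5,0,2], [0,0,2,5,2,0], [0,2,0,2,0,2], [0,3,0,3,0,3], [0,3,0,3,0,4], [0,2,0,2,2,0], [0,3,0,3,3,0], [0,3,0,3,4,0], [0,2,0,5,0,2], [0,2,0,5,2,0], [0,2,2,0,0,2], [0,2,2,0,2,0], [0,3,3,3,0,3], [0,3,3,3,3,0], [0,2,2,5,0,2], [0,2,2,5,2,0], [0,3,4,3,0,4], [0,3,4,3,4,0]], [⟨1, [true,false,false,false,false,false], 2⟩, ⟨1, [false,true,false,false,false,false],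 2⟩, ⟨1, [false,false,true,false,false,false], 2⟩, ⟨1, [false,false,false,true,false,false], 2⟩, ⟨1, [false,false,false,false,true,false], 2⟩, ⟨1, [false,false,false,false,false,true], 2⟩, ⟨1, [false,false,false,false,true,true], 1⟩, ⟨2, [true,true,true,false,false,false], 2⟩, ⟨2, [true,true,false,true,false,false], 2⟩, ⟨2, [true,false,true,true,false,false], 2⟩, ⟨2, [false,true,true,true,false,false], 2⟩, ⟨2, [true,true,true,true,false,false], 1⟩, ⟨2, [false,false,false,false,true,true], 2⟩]⟩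
/-- class 34 -/
def c34 : Cls := ⟨6, 2, [[0,0,0,0,0,0], [0,0,0,0,0,3], [0,0,0,0,3,0], [0,0,0,0,3,5], [0,0,0,3,0,3], [0,0,0,3,0,4], [0,0,0,3,3,0], [0,0,0,3,4,0], [0,0,2,2,0,2], [0,0,3,3,0,3], [0,0,3,3,0,4], [0,0,2,2,2,0], [0,0,3,3,3,0], [0,0,3,3,4,0], [0,0,2,5,0,2], [0,0,2,5,2,0], [0,3,0,0,0,3], [0,3,0,0,3,0], [0,2,0,2,0,2], [0,2,0,2,2,0], [0,2,0,5,0,2], [0,2,0,5,2,0], [0,2,2,0,0,2], [0,3,3,0,0,3], [0,2,2,0,2,0], [0,3,3,0,3,0], [0,3,3,0,3,5], [0,3,3,0,5,3], [0,2,2,5,0,2], [0,2,2,5,2,0], [0,3,5,0,3,5], [0,3,5,0,5,3], [0,2,5,5,0,2], [0,2,5,5,2,0]], [⟨1, [true,false,false,false,false,false], 2⟩, ⟨1, [false,true,false,false,false,false], 2⟩, ⟨1, [false,false,true,false,false,false], 2⟩, ⟨1, [false,false,false,true,false,false], 2⟩, ⟨1, [false,false,false,false,true,false], 2⟩, ⟨1, [false,false,false,false,false,true], 2⟩, ⟨1, [false,false,false,false,true,true], 1⟩, ⟨2,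 [true,true,true,false,false,false], 2⟩, ⟨2, [true,true,false,true,false,false], 2⟩, ⟨2, [true,false,true,true,false,false], 2⟩, ⟨2, [false,true,true,true,false,false], 2⟩, ⟨2, [true,true,true,true,false,false], 1⟩, ⟨2, [false,false,false,false,true,true], 2⟩]⟩
/-- class 35 -/
def c35 : Cls := ⟨6, 2, [[0,0,0,3,0,3], [0,0,0,3,0,4], [0,0,0,3,3,0], [0,0,0,3,4,0], [0,0,3,0,0,3], [0,0,3,0,0,4], [0,0,3,0,3,0], [0,0,3,0,4,0], [0,0,3,3,0,3], [0,0,3,3,3,0], [0,0,3,4,0,3], [0,0,2,5,0,2], [0,0,3,5,0,3], [0,0,3,4,0,4], [0,0,2,5,0,5], [0,0,3,5,0,5], [0,0,3,4,3,0], [0,0,2,5,2,0], [0,0,3,5,3,0], [0,0,3,4,3,4], [0,0,2,5,2,5], [0,0,3,4,4,0], [0,0,2,5,5,0], [0,0,3,5,5,0], [0,0,3,4,4,3], [0,0,2,5,5,2], [0,2,0,2,0,2], [0,2,0,2,2,0], [0,2,0,5,0,2], [0,2,0,5,2,0], [0,2,2,0,0,2], [0,3,3,0,0,3], [0,3,3,0,0,4], [0,2,2,0,2,0], [0,3,3,0,3,0], [0,3,3,0,3,5], [0,3,3,0,4,0], [0,3,3,0,5,3], [0,2,2,5,0,2],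 [0,3,3,4,0,4], [0,2,2,5,0,5], [0,2,2,5,2,0], [0,3,3,4,4,0], [0,2,2,5,5,0], [0,2,5,0,0,2], [0,2,5,0,2,0], [0,2,5,0,2,5], [0,3,5,0,3,5], [0,2,5,0,5,2], [0,3,5,0,5,3], [0,2,5,2,0,2], [0,2,5,2,2,0]], [⟨1, [true,false,false,false,false,false], 2⟩, ⟨1, [false,true,false,false,false,false], 2⟩, ⟨1, [false,false,true,false,false,false], 2⟩, ⟨1, [false,false,false,true,false,false], 2⟩, ⟨1, [false,false,false,false,true,false], 2⟩, ⟨1, [false,false,false,false,false,true], 2⟩, ⟨1, [false,false,false,false,true,true], 1⟩, ⟨2, [true,true,true,false,false,false], 2⟩, ⟨2, [true,true,false,true,false,false], 2⟩, ⟨2, [false,false,true,true,false,false], 2⟩, ⟨2, [true,false,true,true,false,false], 2⟩, ⟨2, [false,true,true,true,false,false], 2⟩, ⟨2, [true,true,true,true,false,false], 1⟩, ⟨2, [false,false,false,false,true,true], 2⟩, ⟨2, [true,true,false,false,true,true], 2⟩]⟩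
/-- class 36 -/
def c36 : Cls := ⟨6, 2, [[0,0,0,3,0,3], [0,0,0,3,0,4], [0,0,0,3,3,0], [0,0,0,3,3,5], [0,0,0,3,4,0], [0,0,0,3,5,3], [0,0,3,0,0,3], [0,0,3,0,0,4], [0,0,3,0,3,0], [0,0,3,0,4,0], [0,0,3,3,0,3], [0,0,3,3,3,0], [0,0,3,4,0,3], [0,0,2,5,0,2], [0,0,3,5,0,3], [0,0,3,4,3,0], [0,0,2,5,2,0], [0,0,3,5,3,0], [0,0,3,4,3,4], [0,0,3,4,4,3], [0,2,0,2,0,2], [0,2,0,2,2,0], [0,2,0,5,0,2], [0,2,0,5,2,0], [0,2,2,0,0,2], [0,3,3,0,0,3], [0,3,3,0,0,4], [0,2,2,0,2,0], [0,3,3,0,3,0], [0,3,3,0,4,0], [0,2,2,5,0,2], [0,3,3,4,0,4], [0,2,2,5,2,0], [0,3,3,4,4,0], [0,2,5,0,0,2], [0,2,5,0,2,0], [0,2,5,0,2,5], [0,2,5,0,5,2], [0,2,5,2,0,2], [0,2,5,2,2,0]], [⟨1, [true,false,false,false,false,false], 2⟩, ⟨1, [false,true,false,false,false,false], 2⟩, ⟨1, [false,false,true,false,false,false], 2⟩, ⟨1, [false,false,false,true,false,false], 2⟩, ⟨1, [false,false,false,false,true,false], 2⟩, ⟨1,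 [false,false,false,false,false,true], 2⟩, ⟨1, [false,false,false,false,true,true], 1⟩, ⟨2, [true,true,true,false,false,false], 2⟩, ⟨2, [true,true,false,true,false,false], 2⟩, ⟨2, [false,false,true,true,false,false], 2⟩, ⟨2, [true,false,true,true,false,false], 2⟩, ⟨2, [false,true,true,true,false,false], 2⟩, ⟨2, [true,true,true,true,false,false], 1⟩, ⟨2, [false,false,false,false,true,true], 2⟩, ⟨2, [true,true,false,false,true,true], 2⟩]⟩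
/-- class 37 -/
def c37 : Cls := ⟨6, 2, [[0,0,0,0,0,0], [0,0,0,0,0,3], [0,0,0,0,3,0], [0,0,0,0,3,5], [0,0,0,3,0,0], [0,0,0,3,0,3], [0,0,0,3,0,4], [0,0,0,2,0,5], [0,0,0,3,0,5], [0,0,0,3,3,0], [0,0,0,3,3,3], [0,0,0,3,3,4], [0,0,0,2,2,5], [0,0,0,3,3,5], [0,0,0,3,4,0], [0,0,0,2,5,0], [0,0,0,3,5,0], [0,0,0,3,4,3], [0,0,0,2,5,2], [0,0,0,3,5,3], [0,0,3,0,0,3], [0,0,3,0,3,0], [0,0,2,2,0,2], [0,0,2,2,2,0], [0,0,2,5,0,2], [0,0,2,5,2,0], [0,0,2,5,2,5], [0,0,2,5,5,2], [0,2,0,2,0,2], [0,3,0,3,0,3], [0,3,0,3,0,4], [0,2,0,2,0,5], [0,2,0,2,2,0], [0,3,0,3,3,0], [0,2,0,2,2,5], [0,3,0,3,4,0], [0,2,0,2,5,0], [0,2,0,2,5,2], [0,2,0,5,0,2], [0,2,0,5,2,0], [0,2,2,0,0,2], [0,2,2,0,0,5], [0,2,2,0,2,0], [0,2,2,0,2,5], [0,2,2,0,5,0], [0,2,2,0,5,2], [0,2,2,5,0,2], [0,2,2,5,0,5], [0,2,2,5,2,0], [0,2,2,5,5,0], [0,3,4,3,0,4], [0,3,4,3,4,0]], [⟨1, [true,false,false,false,false,false], 2⟩, ⟨1, [false,true,false,false,false,false],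 2⟩, ⟨1, [false,false,true,false,false,false], 2⟩, ⟨1, [false,false,false,true,false,false], 2⟩, ⟨1, [false,false,false,false,true,false], 2⟩, ⟨1, [false,false,false,false,false,true], 2⟩, ⟨1, [false,false,false,false,true,true], 1⟩, ⟨2, [true,true,true,false,false,false], 2⟩, ⟨2, [true,true,false,true,false,false], 2⟩, ⟨2, [true,false,true,true,false,false], 2⟩, ⟨2, [false,true,true,true,false,false], 2⟩, ⟨2, [true,true,true,true,false,false], 1⟩, ⟨2, [false,false,false,false,true,true], 2⟩]⟩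
/-- class 38 -/
def c38 : Cls := ⟨6, 2, [[0,0,0,3,0,3], [0,0,0,3,0,4], [0,0,0,3,3,0], [0,0,0,3,4,0], [0,0,2,5,0,2], [0,0,2,5,2,0], [0,3,0,0,0,3], [0,3,0,0,3,0], [0,2,0,2,0,2], [0,3,0,3,0,3], [0,3,0,3,0,4], [0,2,0,2,2,0], [0,3,0,3,3,0], [0,3,0,3,4,0], [0,2,0,5,0,2], [0,3,0,4,0,4], [0,2,0,5,0,5], [0,3,0,5,0,5], [0,2,0,5,2,0], [0,2,0,5,2,5], [0,3,0,4,4,0], [0,2,0,5,5,0], [0,3,0,5,5,0], [0,2,0,5,5,2], [0,2,2,0,0,2], [0,3,3,0,0,3], [0,3,3,0,0,4], [0,2,2,0,2,0], [0,3,3,0,3,0], [0,3,3,0,3,5], [0,3,3,0,4,0], [0,3,3,0,5,3], [0,3,3,4,0,4], [0,2,2,5,0,5], [0,3,3,4,4,0], [0,2,2,5,5,0], [0,3,4,0,0,4], [0,3,5,0,3,5], [0,3,4,0,4,0], [0,3,5,0,5,3], [0,3,4,3,0,4], [0,3,4,3,4,0], [0,3,4,4,0,4], [0,3,4,4,4,0]], [⟨1, [true,false,false,false,false,false], 2⟩, ⟨1, [false,true,false,false,false,false], 2⟩, ⟨1, [false,false,true,false,false,false], 2⟩, ⟨1, [false,false,false,true,false,false],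 2⟩, ⟨1, [false,false,false,false,true,false], 2⟩, ⟨1, [false,false,false,false,false,true], 2⟩, ⟨1, [false,false,false,false,true,true], 1⟩, ⟨2, [true,true,true,false,false,false], 2⟩, ⟨2, [true,true,false,true,false,false], 2⟩, ⟨2, [false,false,true,true,false,false], 2⟩, ⟨2, [true,false,true,true,false,false], 2⟩, ⟨2, [false,true,true,true,false,false], 2⟩, ⟨2, [true,true,true,true,false,false], 1⟩, ⟨2, [false,false,false,false,true,true], 2⟩, ⟨2, [true,true,false,false,true,true], 2⟩]⟩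
/-- class 39 -/
def c39 : Cls := ⟨6, 2, [[0,0,0,3,0,3], [0,0,0,3,0,4], [0,0,0,3,3,0], [0,0,0,3,3,5], [0,0,0,3,4,0], [0,0,0,3,5,3], [0,0,2,5,0,2], [0,0,2,5,2,0], [0,3,0,0,0,3], [0,3,0,0,0,4], [0,3,0,0,3,0], [0,3,0,0,4,0], [0,2,0,2,0,2], [0,3,0,3,0,3], [0,3,0,3,0,4], [0,2,0,2,2,0], [0,3,0,3,3,0], [0,3,0,3,4,0], [0,3,0,4,0,3], [0,2,0,5,0,2], [0,3,0,5,0,3], [0,3,0,4,3,0], [0,2,0,5,2,0], [0,3,0,5,3,0], [0,3,0,4,3,4], [0,3,0,4,4,3], [0,2,2,0,0,2], [0,3,3,0,0,3], [0,3,3,0,0,4], [0,2,2,0,2,0], [0,3,3,0,3,0], [0,3,3,0,4,0], [0,2,2,5,0,2], [0,3,3,4,0,4], [0,2,2,5,2,0], [0,3,3,4,4,0], [0,3,4,0,0,4], [0,3,4,0,3,4], [0,3,4,0,4,0], [0,3,4,0,4,3], [0,3,4,3,0,4], [0,3,4,3,4,0]], [⟨1, [true,false,false,false,false,false], 2⟩, ⟨1, [false,true,false,false,false,false], 2⟩, ⟨1, [false,false,true,false,false,false], 2⟩, ⟨1, [false,false,false,true,false,false], 2⟩, ⟨1, [false,false,false,false,true,false],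 2⟩, ⟨1, [false,false,false,false,false,true], 2⟩, ⟨1, [false,false,false,false,true,true], 1⟩, ⟨2, [true,true,true,false,false,false], 2⟩, ⟨2, [true,true,false,true,false,false], 2⟩, ⟨2, [false,false,true,true,false,false], 2⟩, ⟨2, [true,false,true,true,false,false], 2⟩, ⟨2, [false,true,true,true,false,false], 2⟩, ⟨2, [true,true,true,true,false,false], 1⟩, ⟨2, [false,false,false,false,true,true], 2⟩, ⟨2, [true,true,false,false,true,true], 2⟩]⟩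
/-- class 40 -/
def c40 : Cls := ⟨6, 2, [[0,0,0,0,0,0], [0,0,0,0,0,3], [0,0,0,0,3,0], [0,0,0,0,3,5], [0,0,0,3,0,0], [0,0,0,3,0,3], [0,0,0,3,0,4], [0,0,0,2,0,5], [0,0,0,3,0,5], [0,0,0,3,3,0], [0,0,0,3,3,3], [0,0,0,3,3,4], [0,0,0,2,2,5], [0,0,0,3,3,5], [0,0,0,3,4,0], [0,0,0,2,5,0], [0,0,0,3,5,0], [0,0,0,3,4,3], [0,0,0,2,5,2], [0,0,0,3,5,3], [0,0,3,0,0,3], [0,0,3,0,3,0], [0,0,2,5,0,2], [0,0,2,5,2,0], [0,0,2,5,2,5], [0,0,2,5,5,2], [0,2,0,2,0,2], [0,3,0,3,0,3], [0,3,0,3,0,4], [0,2,0,2,2,0], [0,3,0,3,3,0], [0,2,0,2,2,5], [0,3,0,3,4,0], [0,2,0,2,5,2], [0,2,0,5,0,2], [0,2,0,5,2,0], [0,2,2,0,0,2], [0,2,2,0,0,5], [0,2,2,0,2,0], [0,2,2,0,2,5], [0,2,2,0,5,0], [0,2,2,0,5,2], [0,2,2,5,0,2], [0,2,2,5,0,5], [0,2,2,5,2,0], [0,2,2,5,5,0], [0,3,4,3,0,4], [0,3,4,3,4,0]], [⟨1, [true,false,false,false,false,false], 2⟩, ⟨1, [false,true,false,false,false,false], 2⟩, ⟨1, [false,false,true,false,false,false],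 2⟩, ⟨1, [false,false,false,true,false,false], 2⟩, ⟨1, [false,false,false,false,true,false], 2⟩, ⟨1, [false,false,false,false,false,true], 2⟩, ⟨1, [false,false,false,false,true,true], 1⟩, ⟨2, [true,true,true,false,false,false], 2⟩, ⟨2, [true,true,false,true,false,false], 2⟩, ⟨2, [false,false,true,true,false,false], 2⟩, ⟨2, [true,false,true,true,false,false], 2⟩, ⟨2, [false,true,true,true,false,false], 2⟩, ⟨2, [true,true,true,true,false,false], 1⟩, ⟨2, [false,false,false,false,true,true], 2⟩, ⟨2, [true,true,false,false,true,true], 2⟩]⟩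
/-- class 41 -/
def c41 : Cls := ⟨6, 2, [[0,0,0,3,0,3], [0,0,0,3,0,4], [0,0,0,3,3,0], [0,0,0,3,4,0], [0,0,3,0,0,3], [0,0,3,0,0,4], [0,0,3,0,3,0], [0,0,3,0,3,5], [0,0,3,0,4,0], [0,0,3,0,5,3], [0,0,2,2,0,2], [0,0,3,3,0,3], [0,0,3,3,0,4], [0,0,2,2,2,0], [0,0,3,3,3,0], [0,0,3,3,4,0], [0,0,2,5,0,2], [0,0,3,4,0,4], [0,0,2,5,0,5], [0,0,3,5,0,5], [0,0,2,5,2,0], [0,0,2,5,2,5], [0,0,3,4,4,0], [0,0,2,5,5,0], [0,0,3,5,5,0], [0,0,2,5,5,2], [0,2,0,2,0,2], [0,3,0,3,0,3], [0,3,0,3,0,4], [0,2,0,2,2,0], [0,3,0,3,3,0], [0,3,0,3,4,0], [0,2,0,5,0,2], [0,2,0,5,2,0], [0,2,0,5,2,5], [0,2,0,5,5,2], [0,2,2,0,0,2], [0,2,2,0,2,0], [0,2,2,5,0,2], [0,2,2,5,2,0], [0,2,5,0,0,2], [0,2,5,0,2,0], [0,2,5,2,0,2], [0,3,4,3,0,4], [0,2,5,2,2,0], [0,3,4,3,4,0], [0,2,5,5,0,2], [0,2,5,5,2,0]], [⟨1, [true,false,false,false,false,false], 2⟩, ⟨1, [false,true,false,false,false,false], 2⟩, ⟨1, [false,false,true,false,false,false],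 2⟩, ⟨1, [false,false,false,true,false,false], 2⟩, ⟨1, [false,false,false,false,true,false], 2⟩, ⟨1, [false,false,false,false,false,true], 2⟩, ⟨1, [false,false,false,false,true,true], 1⟩, ⟨2, [true,true,true,false,false,false], 2⟩, ⟨2, [true,true,false,true,false,false], 2⟩, ⟨2, [true,false,true,true,false,false], 2⟩, ⟨2, [false,true,true,true,false,false], 2⟩, ⟨2, [true,true,true,true,false,false], 1⟩, ⟨2, [false,false,false,false,true,true], 2⟩]⟩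
/-- class 42 -/
def c42 : Cls := ⟨6, 2, [[0,0,0,0,0,0], [0,0,0,0,0,3], [0,0,0,0,3,0], [0,0,0,0,3,5], [0,0,3,0,0,0], [0,0,3,0,0,3], [0,0,3,0,0,4], [0,0,2,0,0,5], [0,0,3,0,0,5], [0,0,3,0,3,0], [0,0,3,0,3,3], [0,0,3,0,3,4], [0,0,2,0,2,5], [0,0,3,0,3,5], [0,0,3,0,4,0], [0,0,2,0,5,0], [0,0,3,0,5,0], [0,0,3,0,4,3], [0,0,2,0,5,2], [0,0,3,0,5,3], [0,0,2,2,0,2], [0,0,3,3,0,3], [0,0,3,3,0,4], [0,0,2,2,0,5], [0,0,2,2,2,0], [0,0,3,3,3,0], [0,0,2,2,2,5], [0,0,3,3,4,0], [0,0,2,2,5,0], [0,0,2,2,5,2], [0,0,3,4,0,4], [0,0,3,4,4,0], [0,3,0,0,0,3], [0,3,0,0,3,0], [0,2,0,2,0,2], [0,2,0,2,0,5], [0,2,0,2,2,0], [0,2,0,2,2,5], [0,2,0,2,5,0], [0,2,0,2,5,2], [0,2,2,0,0,2], [0,2,2,0,2,0], [0,2,5,0,0,2], [0,2,5,0,2,0], [0,2,5,0,2,5], [0,2,5,0,5,2], [0,2,5,2,0,2], [0,2,5,2,0,5], [0,2,5,2,2,0], [0,2,5,2,5,0], [0,2,5,5,0,2], [0,2,5,5,2,0]], [⟨1, [true,false,false,false,false,false], 2⟩, ⟨1, [false,true,false,false,false,false],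 2⟩, ⟨1, [false,false,true,false,false,false], 2⟩, ⟨1, [false,false,false,true,false,false], 2⟩, ⟨1, [false,false,false,false,true,false], 2⟩, ⟨1, [false,false,false,false,false,true], 2⟩, ⟨1, [false,false,false,false,true,true], 1⟩, ⟨2, [true,true,true,false,false,false], 2⟩, ⟨2, [true,true,false,true,false,false], 2⟩, ⟨2, [true,false,true,true,false,false], 2⟩, ⟨2, [false,true,true,true,false,false], 2⟩, ⟨2, [true,true,true,true,false,false], 1⟩, ⟨2, [false,false,false,false,true,true], 2⟩, ⟨2, [false,false,false,true,true,true], 2⟩]⟩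
/-- class 43 -/
def c43 : Cls := ⟨6, 2, [[0,0,0,3,0,3], [0,0,0,3,3,0], [0,0,0,3,3,5], [0,0,0,3,5,3], [0,0,3,0,0,3], [0,0,3,0,3,0], [0,0,3,0,3,5], [0,0,3,0,5,3], [0,3,0,3,0,3], [0,3,0,3,0,4], [0,3,0,3,3,0], [0,3,0,3,3,5], [0,3,0,3,4,0], [0,3,0,3,5,3], [0,3,0,5,3,5], [0,3,0,5,5,3], [0,3,3,0,0,3], [0,3,3,0,0,4], [0,3,3,0,3,0], [0,3,3,0,3,5], [0,3,3,0,4,0], [0,3,3,0,5,3], [0,3,3,4,0,4], [0,3,3,4,4,0], [0,3,5,0,3,5], [0,3,5,0,5,3], [0,3,4,3,0,4], [0,3,4,3,4,0]], [⟨1, [true,false,false,false,false,false], 2⟩, ⟨1, [false,true,false,false,false,false], 2⟩, ⟨1, [false,false,true,false,false,false], 2⟩, ⟨1, [false,false,false,true,false,false], 2⟩, ⟨1, [false,false,false,false,true,false], 2⟩, ⟨1, [false,false,false,false,false,true], 2⟩, ⟨1, [false,false,false,false,true,true], 1⟩, ⟨2, [true,true,true,false,false,false], 2⟩, ⟨2, [true,true,false,true,false,false], 2⟩, ⟨2, [false,false,true,true,false,false],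 2⟩, ⟨2, [true,false,true,true,false,false], 2⟩, ⟨2, [false,true,true,true,false,false], 2⟩, ⟨2, [true,true,true,true,false,false], 1⟩, ⟨2, [false,false,false,false,true,true], 2⟩, ⟨2, [true,true,false,false,true,true], 2⟩]⟩
/-- class 44 -/
def c44 : Cls := ⟨6, 2, [[0,0,3,0,0,3], [0,0,3,0,3,0], [0,0,3,0,3,5], [0,0,3,0,5,3], [0,0,3,3,0,3], [0,0,3,3,0,4], [0,0,3,3,3,0], [0,0,3,3,4,0], [0,3,0,0,0,3], [0,3,0,0,3,0], [0,3,0,0,3,5], [0,3,0,0,5,3], [0,3,0,3,0,3], [0,3,0,3,0,4], [0,3,0,3,3,0], [0,3,0,3,4,0], [0,3,3,0,0,3], [0,3,3,0,3,0], [0,3,3,0,3,5], [0,3,3,0,5,3], [0,3,3,3,0,3], [0,3,3,3,0,4], [0,3,3,3,3,0], [0,3,3,3,4,0], [0,3,5,0,3,5], [0,3,5,0,5,3], [0,3,4,3,0,4], [0,3,4,3,4,0], [0,2,5,5,0,2], [0,2,5,5,2,0]], [⟨1, [true,false,false,false,false,false], 2⟩, ⟨1, [false,true,false,false,false,false], 2⟩, ⟨1, [false,false,true,false,false,false], 2⟩, ⟨1, [false,false,false,true,false,false],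 2⟩, ⟨1, [false,false,false,false,true,false], 2⟩, ⟨1, [false,false,false,false,false,true], 2⟩, ⟨1, [false,false,false,false,true,true], 1⟩, ⟨2, [true,true,true,false,false,false], 2⟩, ⟨2, [true,true,false,true,false,false], 2⟩, ⟨2, [true,false,true,true,false,false], 2⟩, ⟨2, [false,true,true,true,false,false], 2⟩, ⟨2, [true,true,true,true,false,false], 1⟩, ⟨2, [false,false,false,false,true,true], 2⟩, ⟨2, [false,false,false,true,true,true], 2⟩]⟩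
/-- class 45 -/
def c45 : Cls := ⟨5, 2, [[0,0,0,0,0], [0,0,0,0,3], [0,0,0,3,0], [0,0,0,3,3], [0,0,0,3,4], [0,0,0,2,5], [0,0,0,3,5], [0,0,3,3,0], [0,0,2,2,5], [0,3,0,0,3], [0,2,0,5,2], [0,2,2,0,5], [0,2,2,5,0]], [⟨1, [true,false,false,false,false], 2⟩, ⟨1, [false,true,false,false,false], 2⟩, ⟨1, [false,false,true,false,false], 2⟩, ⟨1, [false,false,false,true,false], 2⟩, ⟨1, [false,false,false,false,true], 2⟩, ⟨2, [true,true,true,false,false], 2⟩, ⟨2, [false,false,false,true,true], 2⟩]⟩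
/-- class 46 -/
def c46 : Cls := ⟨5, 2, [[0,0,0,0,0], [0,0,0,0,3], [0,0,3,0,0], [0,0,3,0,3], [0,0,3,0,4], [0,0,2,0,5], [0,0,3,0,5], [0,0,3,3,0], [0,0,2,2,5], [0,3,0,0,3], [0,2,0,2,5], [0,2,5,0,2], [0,2,5,2,0]], [⟨1, [true,false,false,false,false], 2⟩, ⟨1, [false,true,false,false,false], 2⟩, ⟨1, [false,false,true,false,false], 2⟩, ⟨1, [false,false,false,true,false], 2⟩, ⟨1, [false,false,false,false,true], 2⟩, ⟨2, [true,true,true,false,false], 2⟩, ⟨2, [false,false,false,true,true], 2⟩]⟩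
/-- class 47 -/
def c47 : Cls := ⟨4, 2, [[0,0,0,0], [0,3,0,3], [0,3,3,0]], [⟨1, [true,false,false,false], 2⟩, ⟨1, [false,true,false,false], 2⟩, ⟨1, [false,false,true,false], 2⟩, ⟨1, [false,false,false,true], 2⟩]⟩
/-- class 48 -/
def c48 : Cls := ⟨5, 2, [[0,0,0,0,0], [0,0,0,0,3], [0,0,0,3,0], [0,0,3,0,3], [0,0,3,3,0], [0,3,0,0,3]], [⟨1, [true,false,false,false,false], 2⟩, ⟨1, [false,true,false,false,false], 2⟩, ⟨1, [false,false,true,false,false], 2⟩, ⟨1, [false,false,false,true,false], 2⟩, ⟨1, [false,false,false,false,true], 2⟩, ⟨2, [true,true,true,false,false], 2⟩, ⟨2, [false,false,false,true,true], 2⟩]⟩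
/-- class 49 -/
def c49 : Cls := ⟨5, 2, [[0,0,0,3,3], [0,0,3,0,3], [0,3,0,3,0], [0,3,3,0,0]], [⟨1, [true,false,false,false,false], 2⟩, ⟨1, [false,true,false,false,false], 2⟩, ⟨1, [false,false,true,false,false], 2⟩, ⟨1, [false,false,false,true,false], 2⟩, ⟨1, [false,false,true,true,false], 1⟩, ⟨1, [true,false,true,true,false], 2⟩, ⟨1, [false,false,false,false,true], 2⟩, ⟨2, [false,false,true,true,false], 2⟩, ⟨2, [false,true,false,false,true], 2⟩, ⟨2, [true,true,false,false,true], 1⟩]⟩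
/-- class 50 -/
def c50 : Cls := ⟨5, 2, [[0,0,0,0,0], [0,0,0,0,3], [0,0,3,0,3], [0,0,3,3,0], [0,3,3,0,3], [0,3,3,3,0]], [⟨1, [true,false,false,false,false], 2⟩, ⟨1, [false,true,false,false,false], 2⟩, ⟨1, [false,false,true,false,false], 2⟩, ⟨1, [false,false,false,true,false], 2⟩, ⟨1, [false,false,false,false,true], 2⟩, ⟨2, [true,true,true,false,false], 2⟩, ⟨2, [false,false,false,true,true], 2⟩]⟩
/-- class 51 -/
def c51 : Cls := ⟨5, 2, [[0,0,0,0,0], [0,0,0,0,3], [0,0,3,0,3], [0,0,3,3,0], [0,3,0,0,3], [0,3,3,3,0]], [⟨1, [true,false,false,false,false], 2⟩, ⟨1, [false,true,false,false,false], 2⟩, ⟨1, [false,false,true,false,false], 2⟩, ⟨1, [false,false,false,true,false], 2⟩, ⟨1, [false,false,false,false,true], 2⟩, ⟨2, [true,true,true,false,false], 2⟩, ⟨2, [false,false,false,true,true], 2⟩]⟩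
/-- class 52 -/
def c52 : Cls := ⟨6, 2, [[0,0,0,3,0,3], [0,0,0,3,0,4], [0,0,0,3,3,0], [0,0,0,3,4,0], [0,0,3,0,0,3], [0,0,3,0,3,0], [0,0,2,5,0,2], [0,0,3,4,0,4], [0,0,2,5,2,0], [0,0,3,4,4,0], [0,2,0,2,0,2], [0,3,0,3,0,3], [0,3,0,3,0,4], [0,2,0,2,2,0], [0,3,0,3,3,0], [0,3,0,3,4,0], [0,2,0,5,0,2], [0,2,0,5,2,0], [0,2,2,0,0,2], [0,3,3,0,0,3], [0,3,3,0,0,4], [0,2,2,0,2,0], [0,3,3,0,3,0], [0,3,3,0,3,5], [0,3,3,0,4,0], [0,3,3,0,5,3], [0,3,3,4,0,4], [0,3,3,4,4,0], [0,3,5,0,3,5], [0,3,5,0,5,3], [0,3,4,3,0,4], [0,3,4,3,4,0]], [⟨1, [true,false,false,false,false,false], 2⟩, ⟨1, [false,true,false,false,false,false], 2⟩, ⟨1, [false,false,true,false,false,false], 2⟩, ⟨1, [false,false,false,true,false,false], 2⟩, ⟨1, [false,false,false,false,true,false], 2⟩, ⟨1, [false,false,false,false,false,true], 2⟩, ⟨1, [false,false,false,false,true,true], 1⟩, ⟨2, [true,true,true,false,false,false],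 2⟩, ⟨2, [true,true,false,true,false,false], 2⟩, ⟨2, [false,false,true,true,false,false], 2⟩, ⟨2, [true,false,true,true,false,false], 2⟩, ⟨2, [false,true,true,true,false,false], 2⟩, ⟨2, [true,true,true,true,false,false], 1⟩, ⟨2, [false,false,false,false,true,true], 2⟩, ⟨2, [true,true,false,false,true,true], 2⟩]⟩
/-- class 53 -/
def c53 : Cls := ⟨6, 2, [[0,0,0,3,0,3], [0,0,0,3,0,4], [0,0,0,3,3,0], [0,0,0,3,3,5], [0,0,0,3,4,0], [0,0,0,3,5,3], [0,0,3,0,0,3], [0,0,3,0,0,4], [0,0,3,0,3,0], [0,0,3,0,4,0], [0,0,2,5,0,2], [0,0,2,5,2,0], [0,2,0,2,0,2], [0,3,0,3,0,3], [0,3,0,3,0,4], [0,2,0,2,2,0], [0,3,0,3,3,0], [0,3,0,3,4,0], [0,2,0,5,0,2], [0,2,0,5,2,0], [0,2,2,0,0,2], [0,3,3,0,0,3], [0,3,3,0,0,4], [0,2,2,0,2,0], [0,3,3,0,3,0], [0,3,3,0,4,0], [0,3,3,4,0,4], [0,3,3,4,4,0], [0,2,5,0,0,2], [0,2,5,0,2,0], [0,3,4,3,0,4], [0,3,4,3,4,0]], [⟨1, [true,false,false,false,false,false],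 2⟩, ⟨1, [false,true,false,false,false,false], 2⟩, ⟨1, [false,false,true,false,false,false], 2⟩, ⟨1, [false,false,false,true,false,false], 2⟩, ⟨1, [false,false,false,false,true,false], 2⟩, ⟨1, [false,false,false,false,false,true], 2⟩, ⟨1, [false,false,false,false,true,true], 1⟩, ⟨2, [true,true,true,false,false,false], 2⟩, ⟨2, [true,true,false,true,false,false], 2⟩, ⟨2, [false,false,true,true,false,false], 2⟩, ⟨2, [true,false,true,true,false,false], 2⟩, ⟨2, [false,true,true,true,false,false], 2⟩, ⟨2, [true,true,true,true,false,false], 1⟩, ⟨2, [false,false,false,false,true,true], 2⟩, ⟨2, [true,true,false,false,true,true], 2⟩]⟩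
/-- class 54 -/
def c54 : Cls := ⟨6, 2, [[0,0,0,3,0,3], [0,0,0,3,0,4], [0,0,0,3,3,0], [0,0,0,3,3,5], [0,0,0,3,4,0], [0,0,0,3,5,3], [0,0,3,0,0,3], [0,0,3,0,0,4], [0,0,3,0,3,0], [0,0,3,0,3,5], [0,0,3,0,4,0], [0,0,3,0,5,3], [0,0,2,5,0,2], [0,0,3,4,0,4], [0,0,2,5,2,0], [0,0,3,4,4,0], [0,2,0,2,0,2], [0,3,0,3,0,3], [0,3,0,3,0,4], [0,2,0,2,2,0], [0,3,0,3,3,0], [0,3,0,3,4,0], [0,2,0,5,0,2], [0,2,0,5,2,0], [0,2,2,0,0,2], [0,2,2,0,2,0], [0,2,2,5,0,2], [0,2,2,5,2,0], [0,2,5,0,0,2], [0,2,5,0,2,0], [0,3,4,3,0,4], [0,3,4,3,4,0]], [⟨1, [true,false,false,false,false,false], 2⟩, ⟨1, [false,true,false,false,false,false], 2⟩, ⟨1, [false,false,true,false,false,false], 2⟩, ⟨1, [false,false,false,true,false,false], 2⟩, ⟨1, [false,false,false,false,true,false], 2⟩, ⟨1, [false,false,false,false,false,true], 2⟩, ⟨1, [false,false,false,false,true,true], 1⟩, ⟨2, [true,true,true,false,false,false],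 2⟩, ⟨2, [true,true,false,true,false,false], 2⟩, ⟨2, [false,false,true,true,false,false], 2⟩, ⟨2, [true,false,true,true,false,false], 2⟩, ⟨2, [false,true,true,true,false,false], 2⟩, ⟨2, [true,true,true,true,false,false], 1⟩, ⟨2, [false,false,false,false,true,true], 2⟩, ⟨2, [true,true,false,false,true,true], 2⟩]⟩
/-- class 55 -/
def c55 : Cls := ⟨6, 2, [[0,0,0,0,0,0], [0,0,0,0,0,3], [0,0,0,0,3,0], [0,0,0,0,3,5], [0,0,0,3,0,3], [0,0,0,3,0,4], [0,0,0,3,3,0], [0,0,0,3,4,0], [0,0,3,0,0,3], [0,0,3,0,3,0], [0,0,2,2,0,2], [0,0,3,3,0,3], [0,0,3,3,0,4], [0,0,2,2,2,0], [0,0,3,3,3,0], [0,0,3,3,4,0], [0,0,2,5,0,2], [0,0,2,5,2,0], [0,2,0,2,0,2], [0,3,0,3,0,3], [0,3,0,3,0,4], [0,2,0,2,2,0], [0,3,0,3,3,0], [0,3,0,3,4,0], [0,2,0,5,0,2], [0,2,0,5,2,0], [0,2,2,0,0,2], [0,2,2,0,2,0], [0,2,2,5,0,2], [0,2,2,5,2,0], [0,3,4,3,0,4], [0,3,4,3,4,0], [0,2,5,5,0,2], [0,2,5,5,2,0]], [⟨1, [true,false,false,false,false,false],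 2⟩, ⟨1, [false,true,false,false,false,false], 2⟩, ⟨1, [false,false,true,false,false,false], 2⟩, ⟨1, [false,false,false,true,false,false], 2⟩, ⟨1, [false,false,false,false,true,false], 2⟩, ⟨1, [false,false,false,false,false,true], 2⟩, ⟨1, [false,false,false,false,true,true], 1⟩, ⟨2, [true,true,true,false,false,false], 2⟩, ⟨2, [true,true,false,true,false,false], 2⟩, ⟨2, [true,false,true,true,false,false], 2⟩, ⟨2, [false,true,true,true,false,false], 2⟩, ⟨2, [true,true,true,true,false,false], 1⟩, ⟨2, [false,false,false,false,true,true], 2⟩]⟩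
/-- class 56 -/
def c56 : Cls := ⟨6, 2, [[0,0,0,0,0,0], [0,0,0,0,0,3], [0,0,0,0,3,0], [0,0,0,0,3,5], [0,0,0,3,0,3], [0,0,0,3,0,4], [0,0,0,3,3,0], [0,0,0,3,4,0], [0,0,3,0,0,3], [0,0,3,0,3,0], [0,0,2,2,0,2], [0,0,3,3,0,3], [0,0,3,3,0,4], [0,0,2,2,2,0], [0,0,3,3,3,0], [0,0,3,3,4,0], [0,0,2,5,0,2], [0,0,2,5,2,0], [0,3,0,0,0,3], [0,3,0,0,3,0], [0,2,0,2,0,2], [0,2,0,2,2,0], [0,2,0,5,0,2], [0,2,0,5,2,0], [0,2,2,0,0,2], [0,2,2,0,2,0], [0,2,2,5,0,2], [0,2,2,5,2,0], [0,2,5,5,0,2], [0,2,5,5,2,0]], [⟨1, [true,false,false,false,false,false], 2⟩, ⟨1, [false,true,false,false,false,false], 2⟩, ⟨1, [false,false,true,false,false,false], 2⟩, ⟨1, [false,false,false,true,false,false], 2⟩, ⟨1, [false,false,false,false,true,false], 2⟩, ⟨1, [false,false,false,false,false,true], 2⟩, ⟨1, [false,false,false,false,true,true], 1⟩, ⟨2, [true,true,true,false,false,false], 2⟩, ⟨2, [true,true,false,true,false,false],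 2⟩, ⟨2, [true,false,true,true,false,false], 2⟩, ⟨2, [false,true,true,true,false,false], 2⟩, ⟨2, [true,true,true,true,false,false], 1⟩, ⟨2, [false,false,false,false,true,true], 2⟩]⟩
/-- class 57 -/
def c57 : Cls := ⟨6, 2, [[0,0,0,3,0,3], [0,0,0,3,0,4], [0,0,0,3,3,0], [0,0,0,3,3,5], [0,0,0,3,4,0], [0,0,0,3,5,3], [0,0,3,0,0,3], [0,0,3,0,3,0], [0,0,3,0,3,5], [0,0,3,0,5,3], [0,0,2,5,0,2], [0,0,2,5,2,0], [0,2,0,2,0,2], [0,3,0,3,0,3], [0,3,0,3,0,4], [0,2,0,2,2,0], [0,3,0,3,3,0], [0,3,0,3,4,0], [0,2,0,5,0,2], [0,2,0,5,2,0], [0,2,2,0,0,2], [0,3,3,0,0,3], [0,3,3,0,0,4], [0,2,2,0,2,0], [0,3,3,0,3,0], [0,3,3,0,4,0], [0,3,3,4,0,4], [0,3,3,4,4,0], [0,3,4,3,0,4], [0,3,4,3,4,0]], [⟨1, [true,false,false,false,false,false], 2⟩, ⟨1, [false,true,false,false,false,false], 2⟩, ⟨1, [false,false,true,false,false,false], 2⟩, ⟨1, [false,false,false,true,false,false], 2⟩, ⟨1, [false,false,false,false,true,false],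 2⟩, ⟨1, [false,false,false,false,false,true], 2⟩, ⟨1, [false,false,false,false,true,true], 1⟩, ⟨1, [false,true,false,false,true,true], 2⟩, ⟨2, [true,true,true,false,false,false], 2⟩, ⟨2, [true,true,false,true,false,false], 2⟩, ⟨2, [false,false,true,true,false,false], 2⟩, ⟨2, [true,false,true,true,false,false], 2⟩, ⟨2, [false,true,true,true,false,false], 2⟩, ⟨2, [true,true,true,true,false,false], 1⟩, ⟨2, [false,false,false,false,true,true], 2⟩, ⟨2, [true,true,false,false,true,true], 2⟩]⟩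
/-- class 58 -/
def c58 : Cls := ⟨6, 2, [[0,0,0,3,0,3], [0,0,0,3,0,4], [0,0,0,3,3,0], [0,0,0,3,4,0], [0,0,2,5,0,2], [0,0,2,5,2,0], [0,2,0,2,0,2], [0,3,0,3,0,3], [0,3,0,3,0,4], [0,2,0,2,2,0], [0,3,0,3,3,0], [0,3,0,3,3,5], [0,3,0,3,4,0], [0,3,0,3,5,3], [0,3,0,5,3,5], [0,3,0,5,5,3], [0,2,2,0,0,2], [0,3,3,0,0,3], [0,3,3,0,0,4], [0,2,2,0,2,0], [0,3,3,0,3,0], [0,3,3,0,3,5], [0,3,3,0,4,0], [0,3,3,0,5,3], [0,3,3,4,0,4], [0,3,3,4,4,0], [0,3,5,0,3,5], [0,3,5,0,5,3], [0,3,4,3,0,4], [0,3,4,3,4,0]], [⟨1, [true,false,false,false,false,false], 2⟩, ⟨1, [false,true,false,false,false,false], 2⟩, ⟨1, [false,false,true,false,false,false], 2⟩, ⟨1, [false,false,false,true,false,false], 2⟩, ⟨1, [false,false,false,false,true,false], 2⟩, ⟨1, [false,false,false,false,false,true], 2⟩, ⟨1, [false,false,false,false,true,true], 1⟩, ⟨2, [true,true,true,false,false,false], 2⟩, ⟨2, [true,true,false,true,false,false],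 2⟩, ⟨2, [false,false,true,true,false,false], 2⟩, ⟨2, [true,false,true,true,false,false], 2⟩, ⟨2, [false,true,true,true,false,false], 2⟩, ⟨2, [true,true,true,true,false,false], 1⟩, ⟨2, [false,false,false,false,true,true], 2⟩, ⟨2, [true,true,false,false,true,true], 2⟩]⟩
/-- class 59 -/
def c59 : Cls := ⟨6, 2, [[0,0,0,3,0,3], [0,0,0,3,0,4], [0,0,0,3,3,0], [0,0,0,3,4,0], [0,0,3,0,0,3], [0,0,3,0,3,0], [0,0,3,0,3,5], [0,0,3,0,5,3], [0,0,2,2,0,2], [0,0,3,3,0,3], [0,0,3,3,0,4], [0,0,2,2,2,0], [0,0,3,3,3,0], [0,0,3,3,4,0], [0,0,2,5,0,2], [0,0,2,5,2,0], [0,2,0,2,0,2], [0,2,0,2,2,0], [0,2,0,5,0,2], [0,2,0,5,2,0], [0,2,2,0,0,2], [0,3,3,0,0,3], [0,2,2,0,2,0], [0,3,3,0,3,0], [0,3,3,0,3,5], [0,3,3,0,5,3], [0,3,3,3,0,3], [0,3,3,3,0,4], [0,3,3,3,3,0], [0,3,3,3,4,0], [0,2,2,5,0,2], [0,2,2,5,2,0], [0,3,5,0,3,5], [0,3,5,0,5,3], [0,2,5,5,0,2], [0,2,5,5,2,0]], [⟨1, [true,false,false,false,false,false],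 2⟩, ⟨1, [false,true,false,false,false,false], 2⟩, ⟨1, [false,false,true,false,false,false], 2⟩, ⟨1, [false,false,false,true,false,false], 2⟩, ⟨1, [false,false,false,false,true,false], 2⟩, ⟨1, [false,false,false,false,false,true], 2⟩, ⟨1, [false,false,false,false,true,true], 1⟩, ⟨2, [true,true,true,false,false,false], 2⟩, ⟨2, [true,true,false,true,false,false], 2⟩, ⟨2, [true,false,true,true,false,false], 2⟩, ⟨2, [false,true,true,true,false,false], 2⟩, ⟨2, [true,true,true,true,false,false], 1⟩, ⟨2, [false,false,false,false,true,true], 2⟩]⟩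
/-- class 60 -/
def c60 : Cls := ⟨6, 2, [[0,0,0,0,0,0], [0,0,0,0,0,3], [0,0,0,0,3,0], [0,0,0,0,3,5], [0,0,3,0,0,3], [0,0,3,0,3,0], [0,0,2,2,0,2], [0,0,3,3,0,3], [0,0,3,3,0,4], [0,0,2,2,2,0], [0,0,3,3,3,0], [0,0,3,3,4,0], [0,2,0,2,0,2], [0,2,0,2,2,0], [0,2,2,0,0,2], [0,3,3,0,0,3], [0,2,2,0,2,0], [0,3,3,0,3,0], [0,3,3,0,3,5], [0,3,3,0,5,3], [0,3,3,3,0,3], [0,3,3,3,3,0], [0,3,5,0,3,5], [0,3,5,0,5,3], [0,2,5,5,0,2], [0,2,5,5,2,0]], [⟨1, [true,false,false,false,false,false], 2⟩, ⟨1, [false,true,false,false,false,false], 2⟩, ⟨1, [false,false,true,false,false,false], 2⟩, ⟨1, [false,false,false,true,false,false], 2⟩, ⟨1, [false,false,false,false,true,false], 2⟩, ⟨1, [false,false,false,false,false,true], 2⟩, ⟨1, [false,false,false,false,true,true], 1⟩, ⟨2, [true,true,true,false,false,false], 2⟩, ⟨2, [true,true,false,true,false,false], 2⟩, ⟨2, [true,false,true,true,false,false],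 2⟩, ⟨2, [false,true,true,true,false,false], 2⟩, ⟨2, [true,true,true,true,false,false], 1⟩, ⟨2, [false,false,false,false,true,true], 2⟩, ⟨2, [false,false,false,true,true,true], 2⟩]⟩
/-- class 61 -/
def c61 : Cls := ⟨6, 2, [[0,0,0,3,0,3], [0,0,0,3,0,4], [0,0,0,3,3,0], [0,0,0,3,3,5], [0,0,0,3,4,0], [0,0,0,3,5,3], [0,0,2,5,0,2], [0,0,2,5,2,0], [0,2,0,2,0,2], [0,3,0,3,0,3], [0,3,0,3,0,4], [0,2,0,2,2,0], [0,3,0,3,3,0], [0,3,0,3,4,0], [0,2,0,5,0,2], [0,2,0,5,2,0], [0,2,2,0,0,2], [0,3,3,0,0,3], [0,3,3,0,0,4], [0,2,2,0,2,0], [0,3,3,0,3,0], [0,3,3,0,3,5], [0,3,3,0,4,0], [0,3,3,0,5,3], [0,3,3,4,0,4], [0,3,3,4,4,0], [0,3,5,0,3,5], [0,3,5,0,5,3], [0,3,4,3,0,4], [0,3,4,3,4,0]], [⟨1, [true,false,false,false,false,false], 2⟩, ⟨1, [false,true,false,false,false,false], 2⟩, ⟨1, [false,false,true,false,false,false], 2⟩, ⟨1, [false,false,false,true,false,false], 2⟩, ⟨1, [false,false,false,false,true,false],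 2⟩, ⟨1, [false,false,false,false,false,true], 2⟩, ⟨1, [false,false,false,false,true,true], 1⟩, ⟨2, [true,true,true,false,false,false], 2⟩, ⟨2, [true,true,false,true,false,false], 2⟩, ⟨2, [false,false,true,true,false,false], 2⟩, ⟨2, [true,false,true,true,false,false], 2⟩, ⟨2, [false,true,true,true,false,false], 2⟩, ⟨2, [true,true,true,true,false,false], 1⟩, ⟨2, [false,false,false,false,true,true], 2⟩, ⟨2, [true,true,false,false,true,true], 2⟩]⟩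
/-- class 62 -/
def c62 : Cls := ⟨6, 2, [[0,0,0,3,0,3], [0,0,0,3,0,4], [0,0,0,3,3,0], [0,0,0,3,3,5], [0,0,0,3,4,0], [0,0,0,3,5,3], [0,0,3,0,0,3], [0,0,3,0,3,0], [0,0,3,0,3,5], [0,0,3,0,5,3], [0,0,2,5,0,2], [0,0,2,5,2,0], [0,2,0,2,0,2], [0,3,0,3,0,3], [0,3,0,3,0,4], [0,2,0,2,2,0], [0,3,0,3,3,0], [0,3,0,3,4,0], [0,2,0,5,0,2], [0,2,0,5,2,0], [0,2,2,0,0,2], [0,3,3,0,0,3], [0,2,2,0,2,0], [0,3,3,0,3,0], [0,3,3,0,3,5], [0,3,3,0,5,3], [0,2,2,5,0,2], [0,2,2,5,2,0], [0,3,5,0,3,5], [0,3,5,0,5,3], [0,3,4,3,0,4], [0,3,4,3,4,0]], [⟨1, [true,false,false,false,false,false], 2⟩, ⟨1, [false,true,false,false,false,false], 2⟩, ⟨1, [false,false,true,false,false,false], 2⟩, ⟨1, [false,false,false,true,false,false], 2⟩, ⟨1, [false,false,false,false,true,false], 2⟩, ⟨1, [false,false,false,false,false,true], 2⟩, ⟨1, [false,false,false,false,true,true], 1⟩, ⟨2, [true,true,true,false,false,false],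 2⟩, ⟨2, [true,true,false,true,false,false], 2⟩, ⟨2, [false,false,true,true,false,false], 2⟩, ⟨2, [true,false,true,true,false,false], 2⟩, ⟨2, [false,true,true,true,false,false], 2⟩, ⟨2, [true,true,true,true,false,false], 1⟩, ⟨2, [false,false,false,false,true,true], 2⟩, ⟨2, [true,true,false,false,true,true], 2⟩]⟩
/-- class 63 -/
def c63 : Cls := ⟨6, 2, [[0,0,0,3,0,3], [0,0,0,3,0,4], [0,0,0,3,3,0], [0,0,0,3,4,0], [0,0,3,0,0,3], [0,0,3,0,3,0], [0,0,3,0,3,5], [0,0,3,0,5,3], [0,0,2,2,0,2], [0,0,3,3,0,3], [0,0,3,3,0,4], [0,0,2,2,2,0], [0,0,3,3,3,0], [0,0,3,3,4,0], [0,0,2,5,0,2], [0,0,2,5,2,0], [0,2,0,2,0,2], [0,3,0,3,0,3], [0,3,0,3,0,4], [0,2,0,2,2,0], [0,3,0,3,3,0], [0,3,0,3,4,0], [0,2,0,5,0,2], [0,2,0,5,2,0], [0,2,2,0,0,2], [0,3,3,0,0,3], [0,2,2,0,2,0], [0,3,3,0,3,0], [0,3,3,0,3,5], [0,3,3,0,5,3], [0,2,2,5,0,2], [0,2,2,5,2,0], [0,3,5,0,3,5], [0,3,5,0,5,3], [0,3,4,3,0,4],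 [0,3,4,3,4,0], [0,2,5,5,0,2], [0,2,5,5,2,0]], [⟨1, [true,false,false,false,false,false], 2⟩, ⟨1, [false,true,false,false,false,false], 2⟩, ⟨1, [false,false,true,false,false,false], 2⟩, ⟨1, [false,false,false,true,false,false], 2⟩, ⟨1, [false,false,false,false,true,false], 2⟩, ⟨1, [false,false,false,false,false,true], 2⟩, ⟨1, [false,false,false,false,true,true], 1⟩, ⟨2, [true,true,true,false,false,false], 2⟩, ⟨2, [true,true,false,true,false,false], 2⟩, ⟨2, [true,false,true,true,false,false], 2⟩, ⟨2, [false,true,true,true,false,false], 2⟩, ⟨2, [true,true,true,true,false,false], 1⟩, ⟨2, [false,false,false,false,true,true], 2⟩]⟩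
/-- class 64 -/
def c64 : Cls := ⟨6, 2, [[0,0,0,0,0,0], [0,0,0,0,0,3], [0,0,0,0,3,0], [0,0,0,0,3,5], [0,0,3,0,0,3], [0,0,3,0,3,0], [0,0,2,2,0,2], [0,0,3,3,0,3], [0,0,3,3,0,4], [0,0,2,2,2,0], [0,0,3,3,3,0], [0,0,3,3,4,0], [0,3,0,0,0,3], [0,3,0,0,3,0], [0,2,0,2,0,2], [0,2,0,2,2,0], [0,2,2,0,0,2], [0,2,2,0,2,0], [0,3,3,3,0,3], [0,3,3,3,3,0], [0,2,5,5,0,2], [0,2,5,5,2,0]], [⟨1, [true,false,false,false,false,false], 2⟩, ⟨1, [false,true,false,false,false,false], 2⟩, ⟨1, [false,false,true,false,false,false], 2⟩, ⟨1, [false,false,false,true,false,false], 2⟩, ⟨1, [false,false,false,false,true,false], 2⟩, ⟨1, [false,false,false,false,false,true], 2⟩, ⟨1, [false,false,false,false,true,true], 1⟩, ⟨2, [true,true,true,false,false,false], 2⟩, ⟨2, [true,true,false,true,false,false], 2⟩, ⟨2, [true,false,true,true,false,false], 2⟩, ⟨2, [false,true,true,true,false,false], 2⟩, ⟨2, [true,true,true,true,false,false],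 1⟩, ⟨2, [false,false,false,false,true,true], 2⟩, ⟨2, [false,false,false,true,true,true], 2⟩]⟩

/-- all classes -/
def cs : List Cls := [c0, c1, c2, c3, c4, c5, c6, c7, c8, c9, c10, c11, c12, c13, c14, c15, c16, c17, c18, c19, c20, c21, c22, c23, c24, c25, c26, c27, c28, c29, c30, c31, c32, c33, c34, c35, c36, c37, c38, c39, c40, c41, c42, c43, c44, c45, c46, c47, c48, c49, c50, c51, c52, c53, c54, c55, c56, c57, c58, c59, c60, c61, c62, c63, c64]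

end Pool.CW.Dt
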