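import Pool.Agent.Lib.MP_fc2a59_co.CW.Ind
import Pool.Agent.Lib.MP_fc2a59_co.CW.Dat

/-!
# MP_fc2a59_co (Jaeger), bounded cutwidth: one vertex, and all vertices but one
-/

set_option autoImplicit false

namespace Pool.CW

open Finset Relation Pool.Jg

variable {V : Type} [Fintype V] [DecidableEq V] {G : SimpleGraph V} [DecidableRel G.Adj]

/-- the darts of a single vertex -/
theorem dts_single {v : V} {p : V × V} : p ∈ dts G {v} ↔ p.1 = v ∧ G.Adj v p.2 := by
  rw [mem_dts, mem_singleton, mem_singleton]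
  constructor
  · rintro ⟨h1, _, h3⟩
    exact ⟨h1, by rw [← h1]; exact h3⟩
  · rintro ⟨h1, h2⟩
    exact ⟨h1, h2.ne', by rw [h1]; exact h2⟩

/-- a single vertex: its hubs of the colour `c` are distinct, and there is exactly one hub of the
other colour -/
theorem SolZ.single {v : V} {L : List (V × V)} (hL : Bd G {v} L) {z : List ℕ} (c : Bool)
    (h1 : (hubsOf c z).Nodup) (x : ℕ) (hx : x ∈ z) (hxc : colN x ≠ c)
    (h2 : ∀ y ∈ z, colN y ≠ c → y = x) : SolZ G {v} L z := by
  classical
  intro h γ ζ hout hmap hiff ⟨s, hs⟩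
  have hLd : ∀ p, p ∈ L ↔ p.1 = v ∧ G.Adj v p.2 := fun p => by rw [hL.mem, dts_single]
  rw [← hmap, hubsOf_eq] at h1
  rw [← hmap, List.mem_map] at hx
  obtain ⟨p0, hp0, rfl⟩ := hx
  have hcolN : ∀ p ∈ L, (γ (h p) = xor s c ↔ colN (ζ p) = c) := by
    intro p hp
    rw [hs p hp]
    exact ⟨fun h => by simpa using h, fun h => by rw [h]⟩
  have h2' : ∀ p ∈ L, γ (h p) ≠ xor s c → h p = h p0 := by
    intro p hp h3
    refine (hiff p hp p0 hp0).2 (h2 _ (by rw [← hmap]; exact List.mem_map_of_mem hp) ?_)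
    exact fun h4 => h3 ((hcolN p hp).2 h4)
  let c1 : V → Bool := fun x => if x = v then xor s c else γ x
  have hc1v : c1 v = xor s c := by simp [c1]
  have hc1 : ∀ x, x ≠ v → c1 x = γ x := fun x hx => by simp [c1, hx]
  have hc1h : ∀ p ∈ L, c1 (h p) = γ (h p) := fun p hp => hc1 _ (fun h3 => hout p hp (by
    rw [h3]; exact mem_singleton_self _))
  refine ⟨c1, fun x hx => hc1 x (fun h3 => hx (by rw [h3]; exact mem_singleton_self _)), ?_⟩
  intro b
  have hnd : ∀ y, y ∈ cl (nds G {v} h) c1 b ↔ (y = v ∨ ∃ p ∈ L, h p = y) ∧ c1 y = b := by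
    intro y
    rw [mem_cl, mem_nds, mem_singleton]
    constructor
    · rintro ⟨h3 | ⟨p, hp, h3⟩, h4⟩
      · exact ⟨Or.inl h3, h4⟩
      · exact ⟨Or.inr ⟨p, (hL.mem p).2 hp, h3⟩, h4⟩
    · rintro ⟨h3 | ⟨p, hp, h3⟩, h4⟩
      · exact ⟨Or.inl h3, h4⟩
      · exact ⟨Or.inr ⟨p, (hL.mem p).1 hp, h3⟩, h4⟩
  by_cases hb : b = xor s c
  · -- the star of `v`
    have hstar : ∀ y ∈ cl (nds G {v} h) c1 b,
        ReflTransGen (stepIn (hadj G {v} h) (cl (nds G {v} h) c1 b)) v y ∧
        ReflTransGen (stepIn (hadj G {v} h) (cl (nds G {v} h) c1 b)) y v := by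
      intro y hy
      have hv' : v ∈ cl (nds G {v} h) c1 b := (hnd v).2 ⟨Or.inl rfl, by rw [hc1v, hb]⟩
      rcases ((hnd y).1 hy).1 with rfl | ⟨p, hp, hpy⟩
      · exact ⟨ReflTransGen.refl, ReflTransGen.refl⟩
      · have h3 := ((hLd p).1 hp).1
        exact ⟨ReflTransGen.single ⟨hv', hy, Or.inr ⟨p, (hL.mem p).1 hp, Or.inl ⟨h3, hpy⟩⟩⟩,
          ReflTransGen.single ⟨hy, hv', Or.inr ⟨p, (hL.mem p).1 hp, Or.inr ⟨h3, hpy⟩⟩⟩⟩
    refine ⟨fun y hy w hw => (hstar y hy).2.trans (hstar w hw).1, ?_⟩
    have hcl : cl {v} c1 b = ({v} : Finset V) := by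
      ext y
      rw [mem_cl, mem_singleton]
      constructor
      · exact fun h3 => h3.1
      · rintro rfl
        exact ⟨rfl, by rw [hc1v, hb]⟩
    have hpairs : pairs G.Adj ({v} : Finset V) = 0 := by
      rw [pairs_eq_sum, sum_singleton, card_eq_zero]
      refine eq_empty_of_forall_notMem fun y hy => ?_
      obtain ⟨h4, h5⟩ := (@mem_filter _ (fun b => G.Adj v b)
        (fun a => Classical.propDecidable _) {v} y).1 hy
      rw [mem_singleton.1 h4] at h5
      exact G.irrefl h5
    have hcard : (cl (nds G {v} h) c1 b).card =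
        ((dts G {v}).filter fun p => c1 p.1 = b ∧ c1 (h p) = b).card + 1 := by
      have h3 : cl (nds G {v} h) c1 b =
          insert v (((dts G {v}).filter fun p => c1 p.1 = b ∧ c1 (h p) = b).image h) := by
        ext y
        rw [hnd, mem_insert, mem_image]
        constructor
        · rintro ⟨h3 | ⟨p, hp, rfl⟩, h4⟩
          · exact Or.inl h3
          · right
            refine ⟨p, ?_, rfl⟩
            rw [mem_filter]
            exact ⟨(hL.mem p).1 hp, by rw [((hLd p).1 hp).1, hc1v, hb], h4⟩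
        · rintro (rfl | ⟨p, hp, rfl⟩)
          · exact ⟨Or.inl rfl, by rw [hc1v, hb]⟩
          · rw [mem_filter] at hp
            exact ⟨Or.inr ⟨p, (hL.mem p).2 hp.1, rfl⟩, hp.2.2⟩
      rw [h3, card_insert_of_notMem, card_image_of_injOn]
      · intro p hp q hq hpq
        rw [mem_coe, mem_filter] at hp hq
        have hp' := (hL.mem p).2 hp.1
        have hq' := (hL.mem q).2 hq.1
        refine inj_of_nodup h1 hp' hq' ?_ ((hiff p hp' q hq').1 hpq)
        rw [beq_iff_eq, ← hcolN p hp', ← hc1h p hp', ← hb]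
        exact hp.2.2
      · rw [mem_image]
        rintro ⟨p, hp, hpv⟩
        rw [mem_filter] at hp
        exact hout p ((hL.mem p).2 hp.1) (by rw [hpv]; exact mem_singleton_self _)
    rw [hcard, hcl, hpairs]
    omega
  · -- the other hub
    have hcl : cl {v} c1 b = (∅ : Finset V) := by
      ext y
      rw [mem_cl, mem_singleton]
      constructor
      · rintro ⟨rfl, h3⟩
        exact absurd (h3.symm.trans hc1v) hb
      · intro h3; simp at h3
    have hnd' : cl (nds G {v} h) c1 b = {h p0} := by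
      ext y
      rw [hnd, mem_singleton]
      constructor
      · rintro ⟨rfl | ⟨p, hp, rfl⟩, h3⟩
        · exact absurd (h3.symm.trans hc1v) hb
        · refine h2' p hp ?_
          rw [← hc1h p hp, h3]
          exact hb
      · rintro rfl
        refine ⟨Or.inr ⟨p0, hp0, rfl⟩, ?_⟩
        have h3 : γ (h p0) ≠ xor s c := fun h4 => hxc ((hcolN p0 hp0).1 h4)
        rw [hc1h p0 hp0]
        revert h3 hb
        cases γ (h p0) <;> cases (xor s c) <;> cases b <;> simp
    refine ⟨?_, ?_⟩
    · rw [hnd']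
      intro y hy w hw
      rw [mem_singleton] at hy hw
      rw [hy, hw]
    · rw [hnd', hcl, card_singleton]
      have h3 : ((dts G {v}).filter fun p => c1 p.1 = b ∧ c1 (h p) = b) = ∅ := by
        rw [filter_eq_empty_iff]
        rintro p hp ⟨h4, _⟩
        rw [((hLd p).1 ((hL.mem p).2 hp)).1, hc1v] at h4
        exact hb h4.symm
      rw [h3]
      simp [pairs]

/-- THE FIRST VERTEX -/
theorem inv_base (h3 : ∀ v, G.degree v = 3) (v : V) : Inv G {v} (dts G {v}).toList Dt.c0 := by
  have hB : Bd G {v} (dts G {v}).toList := ⟨nodup_toList _, fun p => mem_toList⟩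
  refine ⟨hB, ?_, ?_, ?_, ?_⟩
  · rw [length_toList]
    show (dts G {v}).card = 3
    rw [← cutn_dts, cutn, sum_singleton, ← h3 v, ← SimpleGraph.card_neighborFinset_eq_degree]
    congr 1
    ext w
    rw [mem_filter, SimpleGraph.mem_neighborFinset, mem_singleton]
    constructor
    · exact fun h => h.2.2
    · exact fun h => ⟨mem_univ _, h.ne', h⟩
  · show 1 ≤ _
    rw [card_singleton]
  · intro z hz
    have hz' : z = [0, 0, 3] ∨ z = [0, 3, 0] ∨ z = [0, 3, 3] := by
      simpa [Dt.c0] using hz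
    rcases hz' with rfl | rfl | rfl
    · exact SolZ.single hB true (by decide) 0 (by simp) (by decide) (by decide)
    · exact SolZ.single hB true (by decide) 0 (by simp) (by decide) (by decide)
    · exact SolZ.single hB false (by decide) 3 (by simp) (by decide) (by decide)
  · intro f hf
    have : f ∈ ([] : List Fct) := hf
    simp at this

/-- ALL VERTICES BUT ONE -/
theorem good_of_solZ {U : Finset V} {w : V} (hw : Uᶜ = {w}) {L : List (V × V)} (hL : Bd G U L)
    (h3 : L.length = 3) (hz : SolZ G U L [0, 0, 0]) : ∃ χ : V → Bool, Good G.Adj univ χ := by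
  classical
  have hwU : w ∉ U := by
    have : w ∈ Uᶜ := by rw [hw]; exact mem_singleton_self _
    exact mem_compl.1 this
  have hmem : ∀ x, x ∉ U → x = w := by
    intro x hx
    have : x ∈ Uᶜ := mem_compl.2 hx
    rw [hw, mem_singleton] at this
    exact this
  obtain ⟨c, _, hHT⟩ := hz (fun _ => w) (fun _ => false) (fun _ => 0) (fun _ _ => hwU) (by
    rw [List.map_const', h3]
    rfl) (by simp) ⟨false, by intro p _; rfl⟩
  refine ⟨c, fun b => ?_⟩
  have h := hHT b
  have hne : L ≠ [] := by
    rintro rfl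
    simp at h3
  obtain ⟨p0, hp0⟩ := List.exists_mem_of_ne_nil _ hne
  have hnd : nds G U (fun _ => w) = univ := by
    rw [eq_univ_iff_forall]
    intro x
    rw [mem_nds]
    by_cases hx : x ∈ U
    · exact Or.inl hx
    · exact Or.inr ⟨p0, (hL.mem p0).1 hp0, (hmem x hx).symm⟩
  have hconn := h.conn
  have hcnt := h.cnt
  rw [hnd] at hconn hcnt
  refine ⟨?_, ?_, ?_⟩
  · rw [← card_pos]
    omega
  · intro x hx y hy
    refine ReflTransGen.mono ?_ _ _ (hconn x hx y hy)
    rintro x y ⟨h4, h5, h6⟩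
    refine ⟨h4, h5, ?_⟩
    rcases h6 with ⟨_, _, h6⟩ | ⟨p, hp, ⟨h6, h7⟩ | ⟨h6, h7⟩⟩
    · exact h6
    · rw [mem_dts] at hp
      have h8 := hmem _ hp.2.1
      have h7' : w = y := h7
      rw [← h6, ← h7', ← h8]
      exact hp.2.2
    · rw [mem_dts] at hp
      have h8 := hmem _ hp.2.1
      have h7' : w = x := h7
      rw [← h6, ← h7', ← h8]
      exact hp.2.2.symm
  · by_cases hb : c w = b
    · have hcl : cl univ c b = insert w (cl U c b) := by
        ext x
        rw [mem_insert, mem_cl, mem_cl]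
        constructor
        · rintro ⟨_, h4⟩
          by_cases hx : x ∈ U
          · exact Or.inr ⟨hx, h4⟩
          · exact Or.inl (hmem x hx)
        · rintro (rfl | ⟨_, h4⟩)
          · exact ⟨mem_univ _, hb⟩
          · exact ⟨mem_univ _, h4⟩
      rw [hcl] at hcnt ⊢
      rw [pairs_insert G.Adj _ w (fun h4 => hwU (mem_cl.1 h4).1) (G.irrefl)
        (fun u _ => G.adj_comm u w)]
      have h4 : ((dts G U).filter fun p => c p.1 = b ∧ c w = b).card =
          ((cl U c b).filter fun u => G.Adj w u).card := by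
        refine card_bij (fun p _ => p.1) ?_ ?_ ?_
        · intro p hp
          rw [mem_filter, mem_dts] at hp
          rw [mem_filter, mem_cl]
          refine ⟨⟨hp.1.1, hp.2.1⟩, ?_⟩
          rw [← hmem _ hp.1.2.1]
          exact hp.1.2.2.symm
        · intro p hp q hq hpq
          rw [mem_filter, mem_dts] at hp hq
          exact Prod.ext hpq ((hmem _ hp.1.2.1).trans (hmem _ hq.1.2.1).symm)
        · intro u hu
          rw [mem_filter, mem_cl] at hu
          refine ⟨(u, w), ?_, rfl⟩
          rw [mem_filter, mem_dts]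
          exact ⟨⟨hu.1.1, hwU, hu.2.symm⟩, hu.1.2, hb⟩
      have h5 : (#{u ∈ cl U c b | G.Adj w u} : ℕ) = @card V (@filter V (fun u => G.Adj w u)
        (fun a => Classical.propDecidable _) (cl U c b)) := by congr
      omega
    · have hcl : cl univ c b = cl U c b := by
        ext x
        rw [mem_cl, mem_cl]
        constructor
        · rintro ⟨_, h4⟩
          by_cases hx : x ∈ U
          · exact ⟨hx, h4⟩
          · rw [hmem x hx] at h4
            exact absurd h4 hb
        · rintro ⟨_, h4⟩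
          exact ⟨mem_univ _, h4⟩
      have h4 : ((dts G U).filter fun p => c p.1 = b ∧ c w = b) = ∅ := by
        rw [filter_eq_empty_iff]
        rintro p _ ⟨_, h5⟩
        exact hb h5
      rw [h4, card_empty] at hcnt
      rw [hcl] at hcnt ⊢
      omega

end Pool.CW
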