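import Mathlib

/-!
# MP_fc2a59_co (Jaeger), bounded cutwidth: the data of the certificate and its checker

A code is a natural number: the number of a hub times two plus its colour. A state is the list of the
codes of the darts.
-/

set_option autoImplicit false

namespace Pool.CW

/-- a cut fact: there is a set with at least `s` vertices, pattern `X`, value `v` -/
structure Fct where
  s : ℕ
  X : List Bool
  v : ℕ

/-- a class: number of the darts, lower bound (at most two) for the number of the vertices, solvable
states, cut facts -/
structure Cls where
  k : ℕ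
  m : ℕ
  R : List (List ℕ)
  F : List Fct

/-- colour of a code -/
def colN (x : ℕ) : Bool := Nat.beq (x % 2) 1

/-- code of the merged hub -/
def nuN (c : Bool) : ℕ := match c with
  | true => 101
  | false => 100

def beqB (a b : Bool) : Bool := match a, b with
  | true, true => true
  | false, false => true
  | _, _ => false

def memB (x : ℕ) : List ℕ → Bool
  | [] => false
  | y :: l => match Nat.beq x y with
    | true => true
    | false => memB x l

def nodupB : List ℕ → Bool
  | [] => true
  | x :: l => match memB x l with
    | true => false
    | false => nodupB l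

def andB (a b : Bool) : Bool := match a with
  | true => b
  | false => false

def orB (a b : Bool) : Bool := match a with
  | true => true
  | false => b

def allB {α : Type} (f : α → Bool) : List α → Bool
  | [] => true
  | x :: l => andB (f x) (allB f l)

def anyB {α : Type} (f : α → Bool) : List α → Bool
  | [] => false
  | x :: l => orB (f x) (anyB f l)

def eqv1 (x y : ℕ) : List ℕ → List ℕ → Bool
  | [], [] => true
  | a :: l, b :: m => andB (beqB (Nat.beq x a) (Nat.beq y b)) (eqv1 x y l m)
  | _, _ => false

def eqvP : List ℕ → List ℕ → Bool
  | [], [] => true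
  | x :: l, y :: m => andB (eqv1 x y l m) (eqvP l m)
  | _, _ => false

def colEq (s : Bool) : List ℕ → List ℕ → Bool
  | [], [] => true
  | x :: l, y :: m => andB (beqB (xor s (colN x)) (colN y)) (colEq s l m)
  | _, _ => false

/-- two states are equal up to the names of the hubs and an exchange of the colours -/
def eqv (l m : List ℕ) : Bool := andB (eqvP l m) (orB (colEq false l m) (colEq true l m))

def weave (ν : ℕ) : List Bool → List ℕ → List ℕ
  | [], _ => []
  | true :: m, l => ν :: weave ν m l
  | false :: m, x :: l => x :: weave ν m l
  | false :: _, [] => []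

def cntF : List Bool → ℕ
  | [] => 0
  | true :: m => cntF m
  | false :: m => cntF m + 1

def cntT : List Bool → ℕ
  | [] => 0
  | true :: m => cntT m + 1
  | false :: m => cntT m

/-- hubs of the colour `c` in the list -/
def hubsOf (c : Bool) : List ℕ → List ℕ
  | [] => []
  | x :: l => match beqB (colN x) c with
    | true => x :: hubsOf c l
    | false => hubsOf c l

def relN (ν : ℕ) (N : List ℕ) (x : ℕ) : ℕ := match memB x N with
  | true => ν
  | false => x

/-- the state `z` (old darts, new darts) of the larger set follows from the state `zt` of the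
smaller one, the new vertex getting the colour `c` -/
def trOK (mask : List Bool) (z : List ℕ) (c : Bool) (zt : List ℕ) : Bool :=
  let zr := z.take (cntF mask)
  let zn := z.drop (cntF mask)
  let N := hubsOf c zn
  andB (nodupB N) <| andB (allB (fun x => orB (beqB (colN x) c) (memB x zr)) zn) <|
    andB (orB (anyB id mask) (anyB (fun x => memB x N) zr)) <|
    andB (allB (fun x => Nat.blt x 100) z) <|
    eqv (weave (nuN c) mask (zr.map (relN (nuN c) N))) zt

def sel {α : Type} (d : α) (L : List α) (p : List ℕ) : List α := p.map fun i => L.getD i d

def beqL : List Bool → List Bool → Bool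
  | [], [] => true
  | x :: l, y :: m => andB (beqB x y) (beqL l m)
  | _, _ => false

def beqN : List ℕ → List ℕ → Bool
  | [], [] => true
  | x :: l, y :: m => andB (Nat.beq x y) (beqN l m)
  | _, _ => false

/-- number of common `true`s -/
def cntM : List Bool → List Bool → ℕ
  | true :: m, true :: X => cntM m X + 1
  | _ :: m, _ :: X => cntM m X
  | _, _ => 0

/-- the entries of `X` at the `false`s of the mask -/
def remL : List Bool → List Bool → List Bool
  | false :: m, x :: X => x :: remL m X
  | true :: m, _ :: X => remL m X
  | _, _ => []

/-- a cut fact of the larger set which follows from those of the smaller set -/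
def der (D : Cls) (mask : List Bool) (s : ℕ) (X : List Bool) (v : ℕ) : Bool :=
  let Xr := X.take (cntF mask)
  let Xn := X.drop (cntF mask)
  let j := cntT mask
  orB (andB (Nat.ble s 1) (Nat.ble (j + cntT Xr + cntF Xn) v)) <|
  orB (andB (Nat.ble s D.m) (Nat.ble (j + cntF Xr + cntT Xn) v)) <|
  anyB (fun f => andB (beqL (remL mask f.X) Xr)
    (orB (andB (Nat.ble s f.s) (Nat.ble (f.v + cntM mask f.X + cntT Xn) v))
      (andB (Nat.ble s 2) (andB (Nat.ble 1 f.s)
        (Nat.ble (f.v + (j - cntM mask f.X) + cntF Xn) v))))) D.F

/-- one line of the certificate -/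
inductive Stp where
  | no : Stp
  | exc (X : List Bool) (v : ℕ) : Stp
  | close (c : Bool) (i : ℕ) : Stp
  | go (d : ℕ) (p q : List ℕ) (w : List ℕ) : Stp

/-- checking the states: `w` lists `2 * i + c` -/
def chkZ (D : Cls) (mask : List Bool) (p : List ℕ) : List (List ℕ) → List ℕ → Bool
  | [], _ => true
  | z :: R, w :: W => andB (trOK mask (sel 0 z p) (colN w) (D.R.getD (w / 2) []))
      (andB (Nat.blt (w / 2) D.R.length) (chkZ D mask p R W))
  | _ :: _, [] => false

def chkS (C : List Cls) (D : Cls) (mask : List Bool) (t : Stp) : Bool :=
  let k' := D.k + 3 - 2 * cntT mask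
  match t with
  | .no => orB (Nat.blt 3 (cntT mask)) (orB (Nat.blt k' 3) (Nat.blt 6 k'))
  | .exc X v => andB (der D mask 2 X v) (andB (Nat.ble (v + cntT X) 3) (Nat.beq X.length k'))
  | .close c i => andB (Nat.beq k' 3) (andB (trOK mask [0, 0, 0] c (D.R.getD i []))
      (Nat.blt i D.R.length))
  | .go d p q w =>
      let D' := C.getD d ⟨0, 0, [], []⟩
      andB (Nat.blt d C.length) <| andB (Nat.beq D'.k k') <| andB (Nat.ble 4 k') <|
      andB (Nat.ble D'.m 2) <|
      andB (beqN (sel 0 q p) (List.range k')) <| andB (allB (fun i => Nat.blt i k') p) <|
      andB (allB (fun i => Nat.blt i k') q) <| andB (Nat.beq p.length k') <|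
      andB (Nat.beq q.length k') <|
      andB (chkZ D mask p D'.R w) <|
      allB (fun f => der D mask f.s (sel false f.X p) f.v) D'.F

/-- all lists of Booleans of length `k` -/
def masks : ℕ → List (List Bool)
  | 0 => [[]]
  | k + 1 => (masks k).map (fun m => false :: m) ++ (masks k).map (fun m => true :: m)

def chkM (C : List Cls) (D : Cls) : List (List Bool) → List Stp → Bool
  | [], _ => true
  | m :: M, t :: T => andB (chkS C D m t) (chkM C D M T)
  | _ :: _, [] => false

def chkC (C : List Cls) (D : Cls) (T : List Stp) : Bool :=
  andB (allB (fun f => Nat.beq f.X.length D.k) D.F) (chkM C D (masks D.k) T)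

end Pool.CW
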