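import Pool.Agent.Lib.MP_fc2a59_co.Jg.Surg
import Pool.Agent.Lib.MP_fc2a59_co.Jg.Loc

/-!
# MP_fc2a59_co (Jaeger), bounded cutwidth: graphs with contracted outside

`U` is a set of vertices; the edges leaving `U` are the darts `p = (u, w)`, `u ∈ U`, `w ∉ U`.
A labelling `h` sends the darts to hubs (vertices outside `U`): the graph `hadj` has the vertices of `U`
and the hubs. `HT G U h c b`: the vertices of colour `b` form a tree (counted with multiplicities).
-/

set_option autoImplicit false

namespace Pool.CW

open Finset Relation Pool.Jg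

variable {V : Type} [Fintype V] [DecidableEq V] (G : SimpleGraph V) [DecidableRel G.Adj]

/-- darts leaving `U` -/
def dts (U : Finset V) : Finset (V × V) :=
  univ.filter fun p => p.1 ∈ U ∧ p.2 ∉ U ∧ G.Adj p.1 p.2

theorem mem_dts {U : Finset V} {p : V × V} :
    p ∈ dts G U ↔ p.1 ∈ U ∧ p.2 ∉ U ∧ G.Adj p.1 p.2 := by simp [dts]

/-- the hubs -/
def hubs (U : Finset V) (h : V × V → V) : Finset V := (dts G U).image h

/-- vertices of the graph with contracted outside -/
def nds (U : Finset V) (h : V × V → V) : Finset V := U ∪ hubs G U h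

/-- adjacency of the graph with contracted outside -/
def hadj (U : Finset V) (h : V × V → V) (a b : V) : Prop :=
  (a ∈ U ∧ b ∈ U ∧ G.Adj a b) ∨ ∃ p ∈ dts G U, (p.1 = a ∧ h p = b) ∨ (p.1 = b ∧ h p = a)

/-- the colour class `b` is a tree -/
structure HT (U : Finset V) (h : V × V → V) (c : V → Bool) (b : Bool) : Prop where
  conn : Conn (hadj G U h) (cl (nds G U h) c b)
  cnt : pairs G.Adj (cl U c b) + 2 * ((dts G U).filter fun p => c p.1 = b ∧ c (h p) = b).card + 2
    = 2 * (cl (nds G U h) c b).card

/-- the labels after the vertex `v` has been merged with the hubs of `N` -/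
def rel (v : V) (N : Finset V) (h' : V × V → V) (p : V × V) : V :=
  if p.2 = v then v else if h' p ∈ N then v else h' p

variable {G}

theorem dts_iff {U : Finset V} {v : V} (hv : v ∉ U) {p : V × V} :
    (p ∈ dts G (insert v U) ∧ p.1 ≠ v) ↔ (p ∈ dts G U ∧ p.2 ≠ v) := by
  rw [mem_dts, mem_dts, mem_insert, mem_insert]
  constructor
  · rintro ⟨⟨h1, h2, h3⟩, h4⟩
    push Not at h2
    exact ⟨⟨h1.resolve_left h4, h2.2, h3⟩, h2.1⟩
  · rintro ⟨⟨h1, h2, h3⟩, h4⟩
    refine ⟨⟨Or.inr h1, ?_, h3⟩, ?_⟩
    · push Not; exact ⟨h4, h2⟩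
    · rintro rfl; exact hv h1

omit [Fintype V] [DecidableEq V] in
theorem mem_cl {S : Finset V} {c : V → Bool} {b : Bool} {x : V} :
    x ∈ cl S c b ↔ x ∈ S ∧ c x = b := by simp [cl]

theorem mem_nds {U : Finset V} {h : V × V → V} {x : V} :
    x ∈ nds G U h ↔ x ∈ U ∨ ∃ p ∈ dts G U, h p = x := by simp [nds, hubs]

theorem HT.step {U : Finset V} {v : V} (hv : v ∉ U) {h' : V × V → V} {c : V → Bool}
    (hout : ∀ p ∈ dts G (insert v U), h' p ∉ insert v U)
    {N : Finset V} (hN : ∀ x, x ∈ N ↔ ∃ p ∈ dts G (insert v U), p.1 = v ∧ h' p = x ∧ c x = c v)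
    (hinj : ∀ p ∈ dts G (insert v U), ∀ q ∈ dts G (insert v U), p.1 = v → q.1 = v →
        c (h' p) = c v → h' p = h' q → p = q)
    (hoth : ∀ p ∈ dts G (insert v U), p.1 = v → c (h' p) ≠ c v →
        ∃ q ∈ dts G (insert v U), q.1 ≠ v ∧ h' q = h' p)
    (hν : ∃ p ∈ dts G U, rel v N h' p = v)
    (H : ∀ b, HT G U (rel v N h') c b) (b : Bool) : HT G (insert v U) h' c b := by
  classical
  have hNc : ∀ x ∈ N, c x = c v := by
    intro x hx
    obtain ⟨_, _, _, _, h⟩ := (hN x).1 hx
    exact h
  have hNo : ∀ x ∈ N, x ∉ insert v U := by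
    intro x hx
    obtain ⟨p, hp, _, rfl, _⟩ := (hN x).1 hx
    exact hout p hp
  -- the label of an old dart
  have hrel : ∀ p, c (h' p) ≠ c v → p.2 ≠ v → rel v N h' p = h' p := by
    intro p h1 h2
    rw [rel, if_neg h2, if_neg]
    intro h3
    exact h1 (hNc _ h3)
  have hvU : ∀ x ∈ U, x ≠ v := by rintro x hx rfl; exact hv hx
  by_cases hb : b = c v
  · -- the colour of `v`
    have hclU : cl (insert v U) c b = insert v (cl U c b) := by
      ext x
      rw [mem_insert, mem_cl, mem_cl, mem_insert]
      constructor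
      · rintro ⟨h1 | h1, h2⟩
        · exact Or.inl h1
        · exact Or.inr ⟨h1, h2⟩
      · rintro (rfl | ⟨h1, h2⟩)
        · exact ⟨Or.inl rfl, hb.symm⟩
        · exact ⟨Or.inr h1, h2⟩
    have hvn : v ∉ cl U c b := fun h => hv (mem_cl.1 h).1
    -- nodes
    have hnd : cl (nds G (insert v U) h') c b = cl (nds G U (rel v N h')) c b ∪ N := by
      ext x
      rw [mem_union, mem_cl, mem_cl, mem_nds, mem_nds]
      constructor
      · rintro ⟨h1, h2⟩
        rcases h1 with h1 | ⟨p, hp, rfl⟩
        · rcases mem_insert.1 h1 with rfl | h1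
          · exact Or.inl ⟨Or.inr hν, h2⟩
          · exact Or.inl ⟨Or.inl h1, h2⟩
        · by_cases h3 : h' p ∈ N
          · exact Or.inr h3
          · left
            refine ⟨Or.inr ⟨p, ?_, ?_⟩, h2⟩
            · have h4 : p.1 ≠ v := fun h4 => h3 ((hN _).2 ⟨p, hp, h4, rfl, h2.trans hb⟩)
              exact ((dts_iff hv).1 ⟨hp, h4⟩).1
            · have h4 : p.1 ≠ v := fun h4 => h3 ((hN _).2 ⟨p, hp, h4, rfl, h2.trans hb⟩)
              rw [rel, if_neg ((dts_iff hv).1 ⟨hp, h4⟩).2, if_neg h3]
      · rintro (⟨h1, h2⟩ | h1)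
        · refine ⟨?_, h2⟩
          rcases h1 with h1 | ⟨p, hp, rfl⟩
          · exact Or.inl (mem_insert_of_mem h1)
          · by_cases h3 : p.2 = v
            · left; rw [rel, if_pos h3]; exact mem_insert_self _ _
            · by_cases h4 : h' p ∈ N
              · left; rw [rel, if_neg h3, if_pos h4]; exact mem_insert_self _ _
              · right
                refine ⟨p, ((dts_iff hv).2 ⟨hp, h3⟩).1, ?_⟩
                rw [rel, if_neg h3, if_neg h4]
        · refine ⟨?_, (hNc x h1).trans hb.symm⟩
          obtain ⟨p, hp, _, h5, _⟩ := (hN x).1 h1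
          exact Or.inr ⟨p, hp, h5⟩
    have hdisj : Disjoint (cl (nds G U (rel v N h')) c b) N := by
      rw [disjoint_left]
      intro x hx hxN
      rw [mem_cl, mem_nds] at hx
      rcases hx.1 with h1 | ⟨p, hp, rfl⟩
      · exact hNo x hxN (mem_insert_of_mem h1)
      · by_cases h3 : p.2 = v
        · rw [rel, if_pos h3] at hxN
          exact hNo v hxN (mem_insert_self _ _)
        · by_cases h4 : h' p ∈ N
          · rw [rel, if_neg h3, if_pos h4] at hxN
            exact hNo v hxN (mem_insert_self _ _)
          · rw [rel, if_neg h3, if_neg h4] at hxN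
            exact h4 hxN
    refine ⟨?_, ?_⟩
    · -- connectivity
      let φ : V → V := fun x => if x ∈ N then v else x
      have hmN : ∀ x ∈ N, x ∈ cl (nds G (insert v U) h') c b := fun x hx => by
        rw [hnd]; exact mem_union_right _ hx
      have hmv : v ∈ cl (nds G (insert v U) h') c b := by
        rw [mem_cl, mem_nds]; exact ⟨Or.inl (mem_insert_self _ _), hb.symm⟩
      have hstar : ∀ x ∈ N, stepIn (hadj G (insert v U) h') (cl (nds G (insert v U) h') c b) v x ∧
          stepIn (hadj G (insert v U) h') (cl (nds G (insert v U) h') c b) x v := by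
        intro x hx
        obtain ⟨p, hp, h5, h6, _⟩ := (hN x).1 hx
        exact ⟨⟨hmv, hmN x hx, Or.inr ⟨p, hp, Or.inl ⟨h5, h6⟩⟩⟩,
          ⟨hmN x hx, hmv, Or.inr ⟨p, hp, Or.inr ⟨h5, h6⟩⟩⟩⟩
      have hbase : ∀ x y, φ x = φ y → ReflTransGen
          (stepIn (hadj G (insert v U) h') (cl (nds G (insert v U) h') c b)) x y := by
        intro x y hxy
        by_cases h1 : x ∈ N
        · by_cases h2 : y ∈ N
          · exact (ReflTransGen.single (hstar x h1).2).trans (ReflTransGen.single (hstar y h2).1)
          · have : v = y := by simpa [φ, h1, h2] using hxy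
            rw [← this]
            exact ReflTransGen.single (hstar x h1).2
        · by_cases h2 : y ∈ N
          · have : x = v := by simpa [φ, h1, h2] using hxy
            rw [this]
            exact ReflTransGen.single (hstar y h2).1
          · have : x = y := by simpa [φ, h1, h2] using hxy
            rw [this]
      have hφid : ∀ x, x ∉ N → φ x = x := fun x hx => by simp [φ, hx]
      have hold : ∀ x ∈ cl (nds G U (rel v N h')) c b, x ∉ N := fun x hx hx' =>
        (disjoint_left.1 hdisj) hx hx'
      have hvN : v ∉ N := fun h => hNo v h (mem_insert_self _ _)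
      -- lifting of a dart edge
      have hdart : ∀ p ∈ dts G U, c (rel v N h' p) = b → ∃ y, φ y = rel v N h' p ∧
          hadj G (insert v U) h' p.1 y ∧ hadj G (insert v U) h' y p.1 ∧
          y ∈ nds G (insert v U) h' ∧ c y = b := by
        intro p hp hcb
        by_cases h3 : p.2 = v
        · refine ⟨v, ?_, ?_, ?_, ?_, hb.symm⟩
          · rw [rel, if_pos h3, hφid v hvN]
          · left
            have := (mem_dts G).1 hp
            rw [h3] at this
            exact ⟨mem_insert_of_mem this.1, mem_insert_self _ _, this.2.2⟩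
          · left
            have := (mem_dts G).1 hp
            rw [h3] at this
            exact ⟨mem_insert_self _ _, mem_insert_of_mem this.1, this.2.2.symm⟩
          · rw [mem_nds]; exact Or.inl (mem_insert_self _ _)
        · have hp' := ((dts_iff hv).2 ⟨hp, h3⟩).1
          refine ⟨h' p, ?_, Or.inr ⟨p, hp', Or.inl ⟨rfl, rfl⟩⟩, Or.inr ⟨p, hp', Or.inr ⟨rfl, rfl⟩⟩,
            ?_, ?_⟩
          · rw [rel, if_neg h3]
          · rw [mem_nds]; exact Or.inr ⟨p, hp', rfl⟩
          · by_cases h4 : h' p ∈ N
            · exact (hNc _ h4).trans hb.symm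
            · rw [rel, if_neg h3, if_neg h4] at hcb
              exact hcb
      have hlift : ∀ x y, stepIn (hadj G U (rel v N h')) (cl (nds G U (rel v N h')) c b) x y →
          ∃ x' y', φ x' = x ∧ φ y' = y ∧ ReflTransGen
            (stepIn (hadj G (insert v U) h') (cl (nds G (insert v U) h') c b)) x' y' := by
        rintro x y ⟨hx, hy, hxy⟩
        have hx' : x ∈ cl (nds G (insert v U) h') c b := by rw [hnd]; exact mem_union_left _ hx
        have hy' : y ∈ cl (nds G (insert v U) h') c b := by rw [hnd]; exact mem_union_left _ hy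
        rcases hxy with ⟨h1, h2, h3⟩ | ⟨p, hp, ⟨h1, h2⟩ | ⟨h1, h2⟩⟩
        · refine ⟨x, y, hφid x (hold x hx), hφid y (hold y hy), ReflTransGen.single
            ⟨hx', hy', Or.inl ⟨mem_insert_of_mem h1, mem_insert_of_mem h2, h3⟩⟩⟩
        · obtain ⟨z, hz1, hz2, _, hz4, hz5⟩ := hdart p hp (by rw [h2]; exact (mem_cl.1 hy).2)
          refine ⟨x, z, hφid x (hold x hx), hz1.trans h2, ReflTransGen.single ⟨hx', ?_, ?_⟩⟩
          · rw [mem_cl]; exact ⟨hz4, hz5⟩
          · rw [← h1]; exact hz2
        · obtain ⟨z, hz1, _, hz3, hz4, hz5⟩ := hdart p hp (by rw [h2]; exact (mem_cl.1 hx).2)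
          refine ⟨z, y, hz1.trans h2, hφid y (hold y hy), ReflTransGen.single ⟨?_, hy', ?_⟩⟩
          · rw [mem_cl]; exact ⟨hz4, hz5⟩
          · rw [← h1]; exact hz3
      have hφm : ∀ x ∈ cl (nds G (insert v U) h') c b, φ x ∈ cl (nds G U (rel v N h')) c b := by
        intro x hx
        by_cases h1 : x ∈ N
        · have : φ x = v := by simp [φ, h1]
          rw [this, mem_cl, mem_nds]
          exact ⟨Or.inr hν, hb.symm⟩
        · rw [hφid x h1]
          rw [hnd] at hx
          exact (mem_union.1 hx).resolve_right h1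
      have key : ∀ x y, ReflTransGen (stepIn (hadj G U (rel v N h'))
          (cl (nds G U (rel v N h')) c b)) x y → ∀ x' y', φ x' = x → φ y' = y → ReflTransGen
          (stepIn (hadj G (insert v U) h') (cl (nds G (insert v U) h') c b)) x' y' := by
        intro x y hxy
        induction hxy with
        | refl => intro x' y' h1 h2; exact hbase x' y' (h1.trans h2.symm)
        | tail _ h2 ih =>
          intro x' y' h3 h4
          obtain ⟨m, y'', hm, hy'', hr⟩ := hlift _ _ h2
          exact ((ih x' m h3 hm).trans hr).trans (hbase y'' y' (hy''.trans h4.symm))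
      intro x hx y hy
      exact key _ _ ((H b).conn _ (hφm x hx) _ (hφm y hy)) x y rfl rfl
    · -- the count
      have h1 := (H b).cnt
      rw [hnd, card_union_of_disjoint hdisj, hclU, pairs_insert G.Adj _ v hvn (G.irrefl)
        (fun u _ => G.adj_comm u v)]
      have h2 : ((dts G (insert v U)).filter fun p => c p.1 = b ∧ c (h' p) = b).card =
          N.card + ((dts G U).filter fun p => p.2 ≠ v ∧ c p.1 = b ∧ c (h' p) = b).card := by
        have h3 : ((dts G (insert v U)).filter fun p => p.1 = v ∧ c (h' p) = b).card = N.card := by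
          refine card_bij (fun p _ => h' p) ?_ ?_ ?_
          · intro p hp
            rw [mem_filter] at hp
            exact (hN _).2 ⟨p, hp.1, hp.2.1, rfl, hp.2.2.trans hb⟩
          · intro p hp q hq hpq
            rw [mem_filter] at hp hq
            exact hinj p hp.1 q hq.1 hp.2.1 hq.2.1 (hp.2.2.trans hb) hpq
          · intro x hx
            obtain ⟨p, hp, h5, h6, h7⟩ := (hN x).1 hx
            refine ⟨p, ?_, h6⟩
            rw [mem_filter]
            exact ⟨hp, h5, by rw [h6]; exact h7.trans hb.symm⟩
        rw [← h3, ← card_union_of_disjoint]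
        · congr 1
          ext p
          rw [mem_union, mem_filter, mem_filter, mem_filter]
          constructor
          · rintro ⟨h4, h5, h6⟩
            by_cases h7 : p.1 = v
            · exact Or.inl ⟨h4, h7, h6⟩
            · have := (dts_iff hv).1 ⟨h4, h7⟩
              exact Or.inr ⟨this.1, this.2, h5, h6⟩
          · rintro (⟨h4, h5, h6⟩ | ⟨h4, h5, h6, h7⟩)
            · exact ⟨h4, by rw [h5]; exact hb.symm, h6⟩
            · exact ⟨((dts_iff hv).2 ⟨h4, h5⟩).1, h6, h7⟩
        · rw [disjoint_left]
          intro p hp hq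
          rw [mem_filter] at hp hq
          exact ((dts_iff hv).2 ⟨hq.1, hq.2.1⟩).2 hp.2.1
      have h3 : ((dts G U).filter fun p => c p.1 = b ∧ c (rel v N h' p) = b).card =
          ((cl U c b).filter fun u => G.Adj v u).card +
            ((dts G U).filter fun p => p.2 ≠ v ∧ c p.1 = b ∧ c (h' p) = b).card := by
        have h4 : ((dts G U).filter fun p => p.2 = v ∧ c p.1 = b).card =
            ((cl U c b).filter fun u => G.Adj v u).card := by
          refine card_bij (fun p _ => p.1) ?_ ?_ ?_
          · intro p hp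
            rw [mem_filter, mem_dts] at hp
            rw [mem_filter, mem_cl]
            obtain ⟨⟨h5, _, h6⟩, h7, h8⟩ := hp
            rw [h7] at h6
            exact ⟨⟨h5, h8⟩, h6.symm⟩
          · intro p hp q hq hpq
            rw [mem_filter] at hp hq
            exact Prod.ext hpq (hp.2.1.trans hq.2.1.symm)
          · intro u hu
            rw [mem_filter, mem_cl] at hu
            refine ⟨(u, v), ?_, rfl⟩
            rw [mem_filter, mem_dts]
            exact ⟨⟨hu.1.1, hv, hu.2.symm⟩, rfl, hu.1.2⟩
        rw [← h4, ← card_union_of_disjoint]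
        · congr 1
          ext p
          rw [mem_union, mem_filter, mem_filter, mem_filter]
          constructor
          · rintro ⟨h5, h6, h7⟩
            by_cases h8 : p.2 = v
            · exact Or.inl ⟨h5, h8, h6⟩
            · right
              refine ⟨h5, h8, h6, ?_⟩
              by_cases h9 : h' p ∈ N
              · exact (hNc _ h9).trans hb.symm
              · rw [rel, if_neg h8, if_neg h9] at h7
                exact h7
          · rintro (⟨h5, h6, h7⟩ | ⟨h5, h6, h7, h8⟩)
            · refine ⟨h5, h7, ?_⟩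
              rw [rel, if_pos h6]; exact hb.symm
            · refine ⟨h5, h7, ?_⟩
              by_cases h9 : h' p ∈ N
              · rw [rel, if_neg h6, if_pos h9]; exact hb.symm
              · rw [rel, if_neg h6, if_neg h9]; exact h8
        · rw [disjoint_left]
          intro p hp hq
          rw [mem_filter] at hp hq
          exact hq.2.1 hp.2.1
      have h4 : ((cl U c b).filter (fun u => G.Adj v u)).card =
          ((cl U c b).filter (fun u => G.Adj v u)).card := rfl
      rw [h2]
      rw [h3] at h1
      have h5 : (#{u ∈ cl U c b | G.Adj v u} : ℕ) = @card V (@filter V (fun u => G.Adj v u)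
        (fun a => Classical.propDecidable _) (cl U c b)) := by congr
      omega
  · -- the other colour
    have hbc : b ≠ c v := hb
    have hclU : cl (insert v U) c b = cl U c b := by
      ext x
      rw [mem_cl, mem_cl, mem_insert]
      constructor
      · rintro ⟨rfl | h1, h2⟩
        · exact absurd h2.symm hbc
        · exact ⟨h1, h2⟩
      · rintro ⟨h1, h2⟩
        exact ⟨Or.inr h1, h2⟩
    have hnd : cl (nds G (insert v U) h') c b = cl (nds G U (rel v N h')) c b := by
      ext x
      rw [mem_cl, mem_cl, mem_nds, mem_nds]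
      constructor
      · rintro ⟨h1, h2⟩
        refine ⟨?_, h2⟩
        rcases h1 with h1 | ⟨p, hp, rfl⟩
        · rcases mem_insert.1 h1 with rfl | h1
          · exact absurd h2.symm hbc
          · exact Or.inl h1
        · right
          have hne : c (h' p) ≠ c v := by rw [h2]; exact hbc
          by_cases h3 : p.1 = v
          · obtain ⟨q, hq, hq1, hq2⟩ := hoth p hp h3 hne
            have h4 := (dts_iff hv).1 ⟨hq, hq1⟩
            exact ⟨q, h4.1, by rw [hrel q (by rw [hq2]; exact hne) h4.2, hq2]⟩
          · have h4 := (dts_iff hv).1 ⟨hp, h3⟩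
            exact ⟨p, h4.1, hrel p hne h4.2⟩
      · rintro ⟨h1, h2⟩
        refine ⟨?_, h2⟩
        rcases h1 with h1 | ⟨p, hp, rfl⟩
        · exact Or.inl (mem_insert_of_mem h1)
        · by_cases h3 : p.2 = v
          · rw [rel, if_pos h3] at h2
            exact absurd h2.symm hbc
          · by_cases h4 : h' p ∈ N
            · rw [rel, if_neg h3, if_pos h4] at h2
              exact absurd h2.symm hbc
            · exact Or.inr ⟨p, ((dts_iff hv).2 ⟨hp, h3⟩).1, by rw [rel, if_neg h3, if_neg h4]⟩
    refine ⟨?_, ?_⟩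
    · rw [hnd]
      intro x hx y hy
      refine ReflTransGen.mono ?_ _ _ ((H b).conn x hx y hy)
      rintro x y ⟨h1, h2, h3⟩
      refine ⟨h1, h2, ?_⟩
      rcases h3 with ⟨h4, h5, h6⟩ | ⟨p, hp, h4⟩
      · exact Or.inl ⟨mem_insert_of_mem h4, mem_insert_of_mem h5, h6⟩
      · have hcr : c (rel v N h' p) = b := by
          rcases h4 with ⟨_, h5⟩ | ⟨_, h5⟩
          · rw [h5]; exact (mem_cl.1 h2).2
          · rw [h5]; exact (mem_cl.1 h1).2
        have h6 : p.2 ≠ v := by
          intro h6
          rw [rel, if_pos h6] at hcr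
          exact hbc hcr.symm
        have h7 : h' p ∉ N := by
          intro h7
          rw [rel, if_neg h6, if_pos h7] at hcr
          exact hbc hcr.symm
        have h8 : rel v N h' p = h' p := by rw [rel, if_neg h6, if_neg h7]
        rw [h8] at h4
        exact Or.inr ⟨p, ((dts_iff hv).2 ⟨hp, h6⟩).1, h4⟩
    · rw [hnd, hclU, ← (H b).cnt]
      suffices h0 : ((dts G (insert v U)).filter fun p => c p.1 = b ∧ c (h' p) = b) =
          ((dts G U).filter fun p => c p.1 = b ∧ c (rel v N h' p) = b) by rw [h0]
      ext p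
      rw [mem_filter, mem_filter]
      constructor
      · rintro ⟨h1, h2, h3⟩
        have h4 : p.1 ≠ v := by
          intro h4
          rw [h4] at h2
          exact hbc h2.symm
        have h5 := (dts_iff hv).1 ⟨h1, h4⟩
        exact ⟨h5.1, h2, by rw [hrel p (by rw [h3]; exact hbc) h5.2]; exact h3⟩
      · rintro ⟨h1, h2, h3⟩
        have h6 : p.2 ≠ v := by
          intro h6
          rw [rel, if_pos h6] at h3
          exact hbc h3.symm
        have h7 : h' p ∉ N := by
          intro h7
          rw [rel, if_neg h6, if_pos h7] at h3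
          exact hbc h3.symm
        have h8 : rel v N h' p = h' p := by rw [rel, if_neg h6, if_neg h7]
        rw [h8] at h3
        exact ⟨((dts_iff hv).2 ⟨h1, h6⟩).1, h2, h3⟩

end Pool.CW
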