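import Pool.Agent.Lib.MP_fc2a59_co.CW.Stf

/-!
# MP_fc2a59_co (Jaeger), bounded cutwidth: the induction step
-/

set_option autoImplicit false

namespace Pool.CW

open Finset Relation Pool.Jg

variable {V : Type} [Fintype V] [DecidableEq V] {G : SimpleGraph V} [DecidableRel G.Adj]

theorem cutn_dts (U : Finset V) : cutn G U = (dts G U).card := by
  rw [← cutn_eq, dts, univ_product_univ]

theorem Bd.length {U : Finset V} {L : List (V × V)} (hL : Bd G U L) : L.length = cutn G U := by
  rw [cutn_dts, ← List.toFinset_card_of_nodup hL.nd]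
  congr 1
  ext p
  rw [List.mem_toFinset, hL.mem]

theorem cutn_two (h3 : ∀ v, G.degree v = 3) {S : Finset V} (h : S.card = 2) : 4 ≤ cutn G S := by
  have h1 := cutn_add G h3 S
  have h2 : ∑ v ∈ S, (S.filter fun w => G.Adj v w).card ≤ ∑ v ∈ S, 1 := by
    refine sum_le_sum fun v hv => ?_
    have h4 : (S.filter fun w => G.Adj v w) ⊆ S.erase v := by
      intro w hw
      rw [mem_filter] at hw
      rw [mem_erase]
      exact ⟨hw.2.ne', hw.1⟩
    have h5 := card_le_card h4
    rw [card_erase_of_mem hv, h] at h5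
    exact h5
  rw [sum_const, smul_eq_mul, mul_one] at h2
  omega

/-- THE CUT CONDITION: both sides have at least two vertices -/
theorem star (h3 : ∀ v, G.degree v = 3) (hc : CutHyp G) {S : Finset V} (h : 2 ≤ S.card)
    (h' : 2 ≤ Sᶜ.card) : 4 ≤ cutn G S := by
  by_contra hcon
  push Not at hcon
  rcases Nat.lt_or_ge 2 S.card with h1 | h1
  · have hne : S.Nonempty := card_pos.1 (by omega)
    rcases small_cut G h3 hc (cyc_in G h3 hne (by omega)) (by omega) with h2 | h2
    · rw [h2, compl_univ, card_empty] at h'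
      omega
    · have h4 := cutn_two h3 (S := Sᶜ) (by omega)
      rw [cutn_compl] at h4
      omega
  · have h4 := cutn_two h3 (S := S) (by omega)
    omega

theorem cutn_le_intc {U S : Finset V} (hS : S ⊆ U) {L : List (V × V)} (hL : Bd G U L) :
    cutn G S ≤ intc G U S + L.countP (fun p => decide (p.1 ∈ S)) := by
  classical
  rw [cutn_dts, intc, List.countP_eq_length_filter, ← List.toFinset_card_of_nodup
    (hL.nd.filter _)]
  refine (card_le_card ?_).trans (card_union_le _ _)
  intro p hp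
  rw [mem_dts] at hp
  rw [mem_union, mem_filter, mem_product, mem_sdiff, List.mem_toFinset, List.mem_filter, hL.mem,
    mem_dts]
  by_cases h1 : p.2 ∈ U
  · exact Or.inl ⟨⟨hp.1, h1, hp.2.1⟩, hp.2.2⟩
  · exact Or.inr ⟨⟨hS hp.1, h1, hp.2.2⟩, by simpa using hp.1⟩

/-- a cut fact which contradicts the cut condition -/
theorem FOK.contra (h3 : ∀ v, G.degree v = 3) (hc : CutHyp G) {U : Finset V} (hU : U ≠ univ)
    {L : List (V × V)} (hL : Bd G U L) {X : List Bool} {n : ℕ} (h : FOK G U L 2 X n)
    (hX : X.length = L.length) (hn : n + cntT X ≤ 3) : False := by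
  obtain ⟨ξ, hξ⟩ := exists_map hL.nd hX
  obtain ⟨S, hS, hSU, h2, hval⟩ := h ξ hξ
  have h4 := cutn_le_intc hS hL
  have h5 := countP_le_add L (fun p => decide (p.1 ∈ S)) ξ
    (fun p => xor (decide (p.1 ∈ S)) (ξ p)) (by
      intro p _
      cases decide (p.1 ∈ S) <;> cases ξ p <;> decide)
  rw [← hξ, cntT_map] at hn
  have h6 : 2 ≤ Sᶜ.card := by
    obtain ⟨x, hx, hxS⟩ : ∃ x ∈ U, x ∉ S := by
      by_contra hcon
      push Not at hcon
      exact hSU (Subset.antisymm hS hcon)
    obtain ⟨y, hy⟩ : ∃ y, y ∉ U := by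
      by_contra hcon
      push Not at hcon
      exact hU (eq_univ_iff_forall.2 hcon)
    have h7 : ({x, y} : Finset V) ⊆ Sᶜ := by
      intro z hz
      rw [mem_insert, mem_singleton] at hz
      rw [mem_compl]
      rcases hz with rfl | rfl
      · exact hxS
      · exact fun h => hy (hS h)
    have h8 := card_le_card h7
    rw [card_pair (by rintro rfl; exact hy hx)] at h8
    exact h8
  have h7 := star h3 hc h2 h6
  omega

/-- THE INVARIANT -/
structure Inv (G : SimpleGraph V) [DecidableRel G.Adj] (U : Finset V) (L : List (V × V))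
    (D : Cls) : Prop extends Bd G U L where
  len : L.length = D.k
  two : D.m ≤ U.card
  sol : ∀ z ∈ D.R, SolZ G U L z
  fact : ∀ f ∈ D.F, FOK G U L f.s f.X f.v

theorem nwd_length {U : Finset V} {v : V} :
    (nwd G U v).length = (univ.filter fun w => w ∉ insert v U ∧ G.Adj v w).card := by
  rw [nwd, length_toList]
  refine card_bij (fun p _ => p.2) ?_ ?_ ?_
  · intro p hp
    rw [mem_filter, mem_dts] at hp
    rw [mem_filter]
    exact ⟨mem_univ _, hp.1.2.1, by rw [← hp.2]; exact hp.1.2.2⟩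
  · intro p hp q hq hpq
    rw [mem_filter] at hp hq
    exact Prod.ext (hp.2.trans hq.2.symm) hpq
  · intro w hw
    rw [mem_filter] at hw
    refine ⟨(v, w), ?_, rfl⟩
    rw [mem_filter, mem_dts]
    exact ⟨⟨mem_insert_self _ _, hw.2.1, hw.2.2⟩, rfl⟩

/-- the number of the darts after `v` has been added -/
theorem Inv.nxt_length (h3 : ∀ v, G.degree v = 3) {U : Finset V} {v : V} (hv : v ∉ U)
    {L : List (V × V)} {D : Cls} (I : Inv G U L D) :
    (nxt G U v L).length = D.k + 3 - 2 * cntT (L.map (msk v)) ∧ cntT (L.map (msk v)) ≤ 3 := by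
  have h1 : (U.filter fun u => G.Adj u v ∧ u ∈ U).card = L.countP (msk v) := by
    rw [cnt_adj hv I.toBd (fun u => u ∈ U)]
    refine countP_congr' fun p hp => ?_
    have := ((mem_dts G).1 ((I.mem p).1 hp)).1
    simp [this]
  have h2 : (univ.filter fun w => w ∉ insert v U ∧ G.Adj v w).card +
      (U.filter fun u => G.Adj u v ∧ u ∈ U).card = 3 := by
    have h4 := in_add_out G U v
    rw [h3] at h4
    have h5 : (U.filter fun w => G.Adj v w) = (U.filter fun u => G.Adj u v ∧ u ∈ U) := by
      refine filter_congr fun u hu => ?_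
      rw [G.adj_comm]
      simp [hu]
    have h6 : (univ.filter fun w => w ∉ U ∧ G.Adj v w) =
        (univ.filter fun w => w ∉ insert v U ∧ G.Adj v w) := by
      refine filter_congr fun w _ => ?_
      rw [mem_insert]
      constructor
      · rintro ⟨h7, h8⟩
        refine ⟨?_, h8⟩
        rintro (rfl | h9)
        · exact G.irrefl h8
        · exact h7 h9
      · rintro ⟨h7, h8⟩
        exact ⟨fun h9 => h7 (Or.inr h9), h8⟩
    rw [← h5, ← h6]
    omega
  have h4 : (L.filter fun p => !msk v p).length + L.countP (msk v) = L.length := by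
    rw [← cntF_map, cntF_map', add_comm]
    exact (List.length_eq_countP_add_countP (msk v) (l := L)).symm.trans rfl |>.symm ▸ by
      congr 1
      simp
  rw [nxt, List.length_append, nwd_length, cntT_map, ← I.len]
  omega

theorem SolZ.perm {U : Finset V} {L L' : List (V × V)} {z : List ℕ} {p : List ℕ} {d : V × V}
    (h : sel d L' p = L) (hp : ∀ i ∈ p, i < L'.length) (hL : L'.Perm L)
    (hz : SolZ G U L (sel 0 z p)) : SolZ G U L' z := by
  intro h' γ ζ h1 h2 h3 h4
  refine hz h' γ ζ ?_ ?_ ?_ ?_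
  · exact fun q hq => h1 q (hL.mem_iff.2 hq)
  · rw [← h, sel_map hp, h2]
  · exact fun q hq r hr => h3 q (hL.mem_iff.2 hq) r (hL.mem_iff.2 hr)
  · obtain ⟨s, hs⟩ := h4
    exact ⟨s, fun q hq => hs q (hL.mem_iff.2 hq)⟩

theorem FOK.perm {U : Finset V} {L L' : List (V × V)} {X : List Bool} {p : List ℕ} {d : V × V}
    {s n : ℕ} (h : sel d L' p = L) (hp : ∀ i ∈ p, i < L'.length) (hL : L'.Perm L)
    (hz : FOK G U L s (sel false X p) n) : FOK G U L' s X n := by
  intro ξ hξ
  obtain ⟨S, h1, h2, h3, h4⟩ := hz ξ (by rw [← h, sel_map hp, hξ])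
  refine ⟨S, h1, h2, h3, ?_⟩
  rw [hL.countP_eq]
  exact h4

/-- ONE MORE VERTEX -/
theorem Inv.step (h3 : ∀ v, G.degree v = 3) (hc : CutHyp G) {C : List Cls} {D : Cls}
    {T : List Stp} (hT : chkC C D T = true) {U : Finset V} {L : List (V × V)} (I : Inv G U L D)
    (hU : U.Nonempty) {v : V} (hv : v ∉ U) (h6 : cutn G (insert v U) ≤ 6)
    (hcc : 2 ≤ (insert v U)ᶜ.card) : ∃ D' ∈ C, ∃ L', Inv G (insert v U) L' D' := by
  obtain ⟨t, ht⟩ := chkC_spec hT (m := L.map (msk v)) (by rw [List.length_map, I.len])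
  obtain ⟨hlen, hj⟩ := I.nxt_length h3 hv
  have hB := I.toBd.nxt hv
  have hcut := hB.length
  have hcard : (insert v U).card = U.card + 1 := card_insert_of_notMem hv
  have h4 : 4 ≤ cutn G (insert v U) := star h3 hc (by
    have := card_pos.2 hU
    omega) hcc
  have hne : insert v U ≠ univ := by
    intro h
    rw [h, compl_univ, card_empty] at hcc
    omega
  have hk4 : 4 ≤ D.k + 3 - 2 * cntT (L.map (msk v)) := by omega
  have hk6 : D.k + 3 - 2 * cntT (L.map (msk v)) ≤ 6 := by omega
  cases t with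
  | no =>
    simp only [chkS, orB_iff, Nat.blt_eq] at ht
    omega
  | exc X n =>
    simp only [chkS, andB_iff, Nat.ble_eq, nbeq_iff] at ht
    obtain ⟨h5, h7, h8⟩ := ht
    exact absurd (FOK.der hv hU I.toBd I.len I.two I.fact (chkC_len hT) h5)
      (fun h => FOK.contra h3 hc hne hB h (h8.trans hlen.symm) h7)
  | close c i =>
    simp only [chkS, andB_iff, nbeq_iff] at ht
    omega
  | go d p q w =>
    simp only [chkS, andB_iff, Nat.ble_eq, Nat.blt_eq, nbeq_iff, beqN_iff, allB_iff] at ht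
    obtain ⟨hd, hk, _, hm, hpq, hp, hq, hpl, hql, hz, hf⟩ := ht
    rw [← hlen] at hk hpq hp hq hpl hql
    have hsel := sel_perm (d := (v, v)) hB.nd hql hp hpq
    have hplen : ∀ i ∈ p, i < (sel (v, v) (nxt G U v L) q).length := by
      intro i hi
      rw [sel_length, hql]
      exact hp i hi
    rw [List.getD_eq_getElem _ _ hd] at hk hm hz hf
    refine ⟨C[d], List.getElem_mem _, sel (v, v) (nxt G U v L) q, ?_⟩
    refine ⟨⟨?_, ?_⟩, ?_, ?_, ?_, ?_⟩
    · exact hsel.2.nodup_iff.2 hB.nd
    · intro r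
      rw [hsel.2.mem_iff, hB.mem]
    · rw [sel_length, hql, hk]
    · have := card_pos.2 hU
      omega
    · intro z hz'
      obtain ⟨c, zt, hzt, htr⟩ := chkZ_spec hz z hz'
      exact SolZ.perm hsel.1 hplen hsel.2 (SolZ.step hv I.toBd htr (I.sol zt hzt))
    · intro f hf'
      exact FOK.perm hsel.1 hplen hsel.2
        (FOK.der hv hU I.toBd I.len I.two I.fact (chkC_len hT) (hf f hf'))

/-- THE LAST BUT ONE VERTEX -/
theorem Inv.close (h3 : ∀ v, G.degree v = 3) (hc : CutHyp G) {C : List Cls} {D : Cls}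
    {T : List Stp} (hT : chkC C D T = true) {U : Finset V} {L : List (V × V)} (I : Inv G U L D)
    (hU : U.Nonempty) {v : V} (hv : v ∉ U) (h6 : cutn G (insert v U) = 3)
    (hne : insert v U ≠ univ) : SolZ G (insert v U) (nxt G U v L) [0, 0, 0] := by
  obtain ⟨t, ht⟩ := chkC_spec hT (m := L.map (msk v)) (by rw [List.length_map, I.len])
  obtain ⟨hlen, hj⟩ := I.nxt_length h3 hv
  have hB := I.toBd.nxt hv
  have hcut := hB.length
  cases t with
  | no =>
    simp only [chkS, orB_iff, Nat.blt_eq] at ht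
    omega
  | exc X n =>
    simp only [chkS, andB_iff, Nat.ble_eq, nbeq_iff] at ht
    obtain ⟨h5, h7, h8⟩ := ht
    exact absurd (FOK.der hv hU I.toBd I.len I.two I.fact (chkC_len hT) h5)
      (fun h => FOK.contra h3 hc hne hB h (h8.trans hlen.symm) h7)
  | close c i =>
    simp only [chkS, andB_iff, nbeq_iff, Nat.blt_eq] at ht
    obtain ⟨_, h7, h8⟩ := ht
    rw [List.getD_eq_getElem _ _ h8] at h7
    exact SolZ.step hv I.toBd h7 (I.sol _ (List.getElem_mem _))
  | go d p q w =>
    simp only [chkS, andB_iff, Nat.ble_eq] at ht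
    omega

end Pool.CW
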