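import Pool.Agent.Lib.MP_fc2a59_co.CW.Chk

/-!
# MP_fc2a59_co (Jaeger), bounded cutwidth: what the checker functions say
-/

set_option autoImplicit false

namespace Pool.CW

variable {α : Type}

theorem beqB_iff {a b : Bool} : beqB a b = true ↔ a = b := by
  cases a <;> cases b <;> simp [beqB]

theorem andB_iff {a b : Bool} : andB a b = true ↔ a = true ∧ b = true := by
  cases a <;> simp [andB]

theorem orB_iff {a b : Bool} : orB a b = true ↔ a = true ∨ b = true := by
  cases a <;> simp [orB]

theorem nbeq_iff {a b : ℕ} : Nat.beq a b = true ↔ a = b :=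
  ⟨Nat.eq_of_beq_eq_true, fun h => by rw [h]; exact Nat.beq_refl b⟩

theorem memB_iff {x : ℕ} {l : List ℕ} : memB x l = true ↔ x ∈ l := by
  induction l with
  | nil => simp [memB]
  | cons y l ih =>
    rw [memB, List.mem_cons]
    rcases h : Nat.beq x y with _ | _
    · have : ¬ x = y := fun h' => by rw [nbeq_iff.2 h'] at h; exact absurd h (by simp)
      simp only []
      rw [ih]; tauto
    · have := nbeq_iff.1 h
      simp [this]

theorem nodupB_iff {l : List ℕ} : nodupB l = true ↔ l.Nodup := by
  induction l with
  | nil => simp [nodupB]
  | cons y l ih =>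
    rw [nodupB, List.nodup_cons]
    rcases h : memB y l with _ | _
    · have : y ∉ l := fun h' => by rw [memB_iff.2 h'] at h; exact absurd h (by simp)
      simp only []
      rw [ih]; tauto
    · have := memB_iff.1 h
      simp [this]

theorem allB_iff {f : α → Bool} {l : List α} : allB f l = true ↔ ∀ x ∈ l, f x = true := by
  induction l with
  | nil => simp [allB]
  | cons y l ih => rw [allB, andB_iff, ih]; simp

theorem anyB_iff {f : α → Bool} {l : List α} : anyB f l = true ↔ ∃ x ∈ l, f x = true := by
  induction l with
  | nil => simp [anyB]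
  | cons y l ih => rw [anyB, orB_iff, ih]; simp

theorem beqL_iff {l m : List Bool} : beqL l m = true ↔ l = m := by
  induction l generalizing m with
  | nil => cases m <;> simp [beqL]
  | cons x l ih =>
    cases m with
    | nil => simp [beqL]
    | cons y m => rw [beqL, andB_iff, beqB_iff, ih, List.cons.injEq]

theorem beqN_iff {l m : List ℕ} : beqN l m = true ↔ l = m := by
  induction l generalizing m with
  | nil => cases m <;> simp [beqN]
  | cons x l ih =>
    cases m with
    | nil => simp [beqN]
    | cons y m => rw [beqN, andB_iff, nbeq_iff, ih, List.cons.injEq]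

theorem eqv1_spec {ζ ξ : α → ℕ} {x y : ℕ} {L : List α}
    (h : eqv1 x y (L.map ζ) (L.map ξ) = true) : ∀ q ∈ L, (x = ζ q ↔ y = ξ q) := by
  induction L with
  | nil => simp
  | cons a L ih =>
    rw [List.map_cons, List.map_cons, eqv1, andB_iff, beqB_iff] at h
    intro q hq
    rcases List.mem_cons.1 hq with rfl | hq
    · rw [← nbeq_iff, ← nbeq_iff, h.1]
    · exact ih h.2 q hq

theorem eqvP_spec {ζ ξ : α → ℕ} {L : List α}
    (h : eqvP (L.map ζ) (L.map ξ) = true) : ∀ p ∈ L, ∀ q ∈ L, (ζ p = ζ q ↔ ξ p = ξ q) := by
  induction L with
  | nil => simp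
  | cons a L ih =>
    rw [List.map_cons, List.map_cons, eqvP, andB_iff] at h
    have h1 := eqv1_spec h.1
    intro p hp q hq
    rcases List.mem_cons.1 hp with rfl | hp'
    · rcases List.mem_cons.1 hq with rfl | hq'
      · simp
      · exact h1 q hq'
    · rcases List.mem_cons.1 hq with rfl | hq'
      · rw [eq_comm, h1 p hp', eq_comm]
      · exact ih h.2 p hp' q hq'

theorem colEq_spec {ζ ξ : α → ℕ} {L : List α} {s : Bool}
    (h : colEq s (L.map ζ) (L.map ξ) = true) : ∀ p ∈ L, colN (ξ p) = xor s (colN (ζ p)) := by
  induction L with
  | nil => simp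
  | cons a L ih =>
    rw [List.map_cons, List.map_cons, colEq, andB_iff, beqB_iff] at h
    intro p hp
    rcases List.mem_cons.1 hp with rfl | hp
    · exact h.1.symm
    · exact ih h.2 p hp

theorem eqvP_length {l m : List ℕ} (h : eqvP l m = true) : l.length = m.length := by
  induction l generalizing m with
  | nil => cases m with
    | nil => rfl
    | cons y m => simp [eqvP] at h
  | cons x l ih =>
    cases m with
    | nil => simp [eqvP] at h
    | cons y m =>
      rw [eqvP, andB_iff] at h
      simp [ih h.2]

theorem eqv_length {l m : List ℕ} (h : eqv l m = true) : l.length = m.length := by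
  rw [eqv, andB_iff] at h
  exact eqvP_length h.1

theorem eqv_spec {ζ ξ : α → ℕ} {L : List α} (h : eqv (L.map ζ) (L.map ξ) = true) :
    (∀ p ∈ L, ∀ q ∈ L, (ζ p = ζ q ↔ ξ p = ξ q)) ∧
      ∃ s, ∀ p ∈ L, colN (ξ p) = xor s (colN (ζ p)) := by
  rw [eqv, andB_iff, orB_iff] at h
  refine ⟨eqvP_spec h.1, ?_⟩
  rcases h.2 with h | h
  · exact ⟨false, colEq_spec h⟩
  · exact ⟨true, colEq_spec h⟩

theorem cntF_map {L : List α} {m : α → Bool} : cntF (L.map m) = (L.filter fun p => !m p).length := by
  induction L with
  | nil => rfl
  | cons a L ih =>
    rw [List.map_cons, List.filter_cons]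
    rcases h : m a with _ | _
    · simp [cntF, ih]
    · simp [cntF, ih]

theorem cntT_map {L : List α} {m : α → Bool} : cntT (L.map m) = L.countP m := by
  induction L with
  | nil => rfl
  | cons a L ih =>
    rw [List.map_cons, List.countP_cons]
    rcases h : m a with _ | _
    · simp [cntT, ih]
    · simp [cntT, ih]

theorem cntF_map' {L : List α} {m : α → Bool} : cntF (L.map m) = L.countP fun p => !m p := by
  rw [cntF_map, List.countP_eq_length_filter]

theorem weave_map {L : List α} {m : α → Bool} {f : α → ℕ} {ν : ℕ} :
    weave ν (L.map m) ((L.filter fun p => !m p).map f) = L.map fun p => if m p then ν else f p := by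
  induction L with
  | nil => rfl
  | cons a L ih =>
    rw [List.map_cons, List.map_cons, List.filter_cons]
    rcases h : m a with _ | _
    · simp [weave, ih]
    · simp [weave, ih]

theorem hubsOf_eq {c : Bool} {l : List ℕ} : hubsOf c l = l.filter fun x => colN x == c := by
  induction l with
  | nil => rfl
  | cons a l ih =>
    rw [hubsOf, List.filter_cons]
    rcases h : beqB (colN a) c with _ | _
    · have : (colN a == c) = false := by
        rcases h' : (colN a == c) with _ | _
        · rfl
        · rw [beqB_iff.2 (beq_iff_eq.1 h')] at h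
          exact absurd h (by simp)
      simp [this, ih]
    · have : (colN a == c) = true := beq_iff_eq.2 (beqB_iff.1 h)
      simp [this, ih]

theorem remL_map {L : List α} {m ξ : α → Bool} :
    remL (L.map m) (L.map ξ) = (L.filter fun p => !m p).map ξ := by
  induction L with
  | nil => rfl
  | cons a L ih =>
    rw [List.map_cons, List.map_cons, List.filter_cons]
    rcases h : m a with _ | _
    · simp [remL, ih]
    · simp [remL, ih]

theorem cntM_map {L : List α} {m ξ : α → Bool} :
    cntM (L.map m) (L.map ξ) = L.countP fun p => m p && ξ p := by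
  induction L with
  | nil => rfl
  | cons a L ih =>
    rw [List.map_cons, List.map_cons, List.countP_cons]
    rcases h : m a with _ | _
    · simp [cntM, ih]
    · rcases h' : ξ a with _ | _
      · simp [cntM, ih]
      · simp [cntM, ih]

/-- every list of the right length is the list of the values of a function -/
theorem exists_map {β : Type} [Nonempty β] {L : List α} (hL : L.Nodup) {z : List β}
    (h : z.length = L.length) : ∃ f : α → β, L.map f = z := by
  classical
  induction L generalizing z with
  | nil =>
    have : z = [] := List.length_eq_zero_iff.1 h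
    exact ⟨fun _ => Classical.arbitrary β, by rw [this]; rfl⟩
  | cons a L ih =>
    cases z with
    | nil => simp at h
    | cons x z =>
      rw [List.nodup_cons] at hL
      obtain ⟨f, hf⟩ := ih hL.2 (by simpa using h)
      refine ⟨fun b => if b = a then x else f b, ?_⟩
      rw [List.map_cons, if_pos rfl]
      congr 1
      rw [← hf]
      refine List.map_congr_left fun b hb => ?_
      rw [if_neg]
      rintro rfl
      exact hL.1 hb

theorem masks_mem (m : List Bool) : m ∈ masks m.length := by
  induction m with
  | nil => simp [masks]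
  | cons x m ih =>
    rw [List.length_cons, masks, List.mem_append]
    cases x
    · exact Or.inl (List.mem_map_of_mem ih)
    · exact Or.inr (List.mem_map_of_mem ih)

theorem chkM_spec {C : List Cls} {D : Cls} {M : List (List Bool)} {T : List Stp}
    (h : chkM C D M T = true) : ∀ m ∈ M, ∃ t, chkS C D m t = true := by
  induction M generalizing T with
  | nil => simp
  | cons a M ih =>
    cases T with
    | nil => simp [chkM] at h
    | cons t T =>
      rw [chkM, andB_iff] at h
      intro m hm
      rcases List.mem_cons.1 hm with rfl | hm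
      · exact ⟨t, h.1⟩
      · exact ih h.2 m hm

theorem chkC_spec {C : List Cls} {D : Cls} {T : List Stp} (h : chkC C D T = true)
    {m : List Bool} (hm : m.length = D.k) : ∃ t, chkS C D m t = true :=
  chkM_spec (andB_iff.1 h).2 m (by rw [← hm]; exact masks_mem m)

theorem chkC_len {C : List Cls} {D : Cls} {T : List Stp} (h : chkC C D T = true) :
    ∀ f ∈ D.F, f.X.length = D.k := fun f hf => nbeq_iff.1 (allB_iff.1 (andB_iff.1 h).1 f hf)

theorem chkZ_spec {D : Cls} {mask : List Bool} {p : List ℕ} {R : List (List ℕ)} {W : List ℕ}
    (h : chkZ D mask p R W = true) : ∀ z ∈ R, ∃ c, ∃ zt ∈ D.R, trOK mask (sel 0 z p) c zt = true := by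
  induction R generalizing W with
  | nil => simp
  | cons a R ih =>
    cases W with
    | nil => simp [chkZ] at h
    | cons w W =>
      rw [chkZ, andB_iff, andB_iff] at h
      intro z hz
      rcases List.mem_cons.1 hz with rfl | hz
      · have h1 : w / 2 < D.R.length := by
          have := h.2.1
          rw [Nat.blt_eq] at this
          exact this
        refine ⟨colN w, D.R.getD (w / 2) [], ?_, h.1⟩
        rw [List.getD_eq_getElem _ _ h1]
        exact List.getElem_mem _
      · exact ih h.2.2 z hz

theorem sel_length {d : α} {L : List α} {p : List ℕ} : (sel d L p).length = p.length := by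
  simp [sel]

theorem sel_map {β : Type} {d : α} {e : β} {L : List α} {p : List ℕ} {f : α → β}
    (h : ∀ i ∈ p, i < L.length) : (sel d L p).map f = sel e (L.map f) p := by
  rw [sel, sel, List.map_map]
  refine List.map_congr_left fun i hi => ?_
  have h1 := h i hi
  have h2 : i < (L.map f).length := by simpa using h1
  rw [Function.comp, List.getD_eq_getElem _ _ h1, List.getD_eq_getElem _ _ h2, List.getElem_map]

theorem sel_sel {d : α} {L : List α} {p q : List ℕ} (h : ∀ i ∈ p, i < q.length) :
    sel d (sel d L q) p = sel d L (sel 0 q p) := by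
  rw [sel, sel, sel, sel, List.map_map]
  refine List.map_congr_left fun i hi => ?_
  have h1 := h i hi
  have h2 : i < (q.map fun i => L.getD i d).length := by simpa using h1
  rw [Function.comp, List.getD_eq_getElem _ _ h2, List.getElem_map, List.getD_eq_getElem _ _ h1]

theorem sel_range {d : α} {L : List α} : sel d L (List.range L.length) = L := by
  apply List.ext_getElem
  · simp [sel]
  · intro i h1 h2
    simp only [sel, List.getElem_map, List.getElem_range]
    rw [List.getD_eq_getElem _ _ h2]

theorem sel_perm {d : α} {L : List α} {p q : List ℕ} (hL : L.Nodup) (hql : q.length = L.length)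
    (hp : ∀ i ∈ p, i < L.length) (hpq : sel 0 q p = List.range L.length) :
    sel d (sel d L q) p = L ∧ (sel d L q).Perm L := by
  have h1 : sel d (sel d L q) p = L := by
    rw [sel_sel (by rw [hql]; exact hp), hpq, sel_range]
  refine ⟨h1, ?_⟩
  have h2 : L ⊆ sel d L q := by
    intro x hx
    rw [← h1, sel, List.mem_map] at hx
    obtain ⟨i, hi, rfl⟩ := hx
    have h3 : i < (sel d L q).length := by rw [sel_length, hql]; exact hp i hi
    rw [List.getD_eq_getElem _ _ h3]
    exact List.getElem_mem _
  exact ((List.subperm_of_subset hL h2).perm_of_length_le (by rw [sel_length, hql])).symm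

end Pool.CW
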