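import Pool.Agent.Lib.MP_fc2a59_co.CW.Dat

/-!
# MP_fc2a59_co (Jaeger), bounded cutwidth: the steps
-/

set_option autoImplicit false
set_option maxRecDepth 100000

namespace Pool.CW.Dt

/-- the steps from the class 0 -/
def s0 : List Stp := [.go 1 [0,1,2,3,4,5] [0,1,2,3,4,5] [0,0,0,0,0,0,0,0,0,2,2,2,2,2,2,2,2,2,5,5,5,5,5,5,5,5,5,2,0,5,2,0,5,2,0,5,2,0,5,2,0,5,2,0,5], .go 2 [0,1,2,3] [0,1,2,3] [1,1,1], .go 2 [0,1,2,3] [0,1,2,3] [3,3,3], .no, .go 2 [0,1,2,3] [0,1,2,3] [5,5,5], .no, .no, .no]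
/-- the steps from the class 1 -/
def s1 : List Stp := [.no, .no, .no, .exc [false,false,false,true,true] 0, .no, .exc [false,false,false,true,true] 0, .exc [false,false,false,true,true] 0, .exc [false,false,false] 0, .no, .go 8 [0,1,2,3,4] [0,1,2,3,4] [1,5,7,15,57,69], .go 8 [0,1,2,3,4] [0,1,2,3,4] [1,3,11,17,63,75], .exc [false,false,true] 1, .go 8 [0,1,2,3,4] [0,1,2,3,4] [7,9,11,13,81,87], .exc [false,false,true] 1, .exc [false,false,true] 1, .no, .no, .go 8 [0,1,2,3,4] [0,1,2,3,4] [19,23,25,33,61,79], .go 8 [0,1,2,3,4] [0,1,2,3,4] [19,21,29,35,55,85], .exc [false,false,true] 1, .go 8 [0,1,2,3,4] [0,1,2,3,4] [25,27,29,31,67,73], .exc [false,false,true] 1, .exc [false,false,true] 1, .no, .exc [true,false,false,false,true] 0, .exc [true,false,false] 1, .exc [true,false,false] 1, .no, .exc [true,false,false] 1, .no, .no, .no, .no, .go 8 [0,1,2,3,4] [0,1,2,3,4] [45,49,39,53,77,89], .go 8 [0,1,2,3,4] [0,1,2,3,4] [45,47,37,51,71,83],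 .exc [false,false,true] 1, .go 8 [0,1,2,3,4] [0,1,2,3,4] [39,41,37,43,59,65], .exc [false,false,true] 1, .exc [false,false,true] 1, .no, .exc [true,false,false,false,true] 0, .exc [true,false,false] 1, .exc [true,false,false] 1, .no, .exc [true,false,false] 1, .no, .no, .no, .exc [true,false,false,false,true] 0, .exc [true,false,false] 1, .exc [true,false,false] 1, .no, .exc [true,false,false] 1, .no, .no, .no, .exc [false,false,false] 0, .no, .no, .no, .no, .no, .no, .no]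
/-- the steps from the class 2 -/
def s2 : List Stp := [.no, .go 8 [0,1,4,2,3] [0,1,3,4,2] [4,4,4,4,4,4], .go 8 [0,1,4,2,3] [0,1,3,4,2] [2,2,2,2,2,2], .exc [false,false,true] 1, .go 8 [0,1,4,2,3] [0,1,3,4,2] [2,2,2,2,2,2], .close false 0, .close false 0, .no, .go 8 [0,1,4,2,3] [0,1,3,4,2] [2,2,2,2,2,2], .close false 0, .close false 0, .no, .exc [false,false,true] 1, .no, .no, .no]
/-- the steps from the class 3 -/
def s3 : List Stp := [.no, .go 9 [0,2,1,3,4] [0,2,1,3,4] [1,1,2,2], .go 9 [2,0,1,3,4] [1,2,0,3,4] [1,1,2,2], .close true 0, .go 9 [0,1,2,3,4] [0,1,2,3,4] [3,3,0,0], .exc [false,false,true] 2, .close true 1, .no, .go 9 [0,2,1,3,4] [0,2,1,3,4] [3,3,0,0], .close true 1, .exc [false,false,true] 2, .no, .close true 0, .no, .no, .no]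
/-- the steps from the class 4 -/
def s4 : List Stp := [.no, .no, .no, .exc [false,false,false,false,true] 1, .no, .go 8 [0,2,3,1,4] [0,3,1,2,4] [1,9,17,25,11,27], .go 8 [0,2,3,1,4] [0,3,1,2,4] [5,13,21,29,15,31], .exc [true,false,false] 1, .no, .go 7 [0,1,2,3,4] [0,1,2,3,4] [1,14,32,20], .go 7 [0,1,2,3,4] [0,1,2,3,4] [5,10,34,16], .exc [false,false,false] 2, .go 8 [0,1,2,3,4] [0,1,2,3,4] [1,3,5,7,37,39], .close true 0, .close true 2, .no, .no, .go 7 [0,1,2,3,4] [0,1,2,3,4] [17,30,36,4], .go 7 [0,1,2,3,4] [0,1,2,3,4] [21,26,38,0], .exc [false,false,false] 2, .go 8 [0,1,2,3,4] [0,1,2,3,4] [17,19,21,23,33,35], .close true 8, .close true 10, .no, .exc [false,false,false,false,true] 1, .exc [false,false,false] 2, .exc [false,false,false] 2, .no, .exc [true,false,false] 1, .no, .no, .no, .no, .go 9 [0,1,2,3,4] [0,1,2,3,4] [21,35,38,4], .go 9 [0,1,2,3,4] [0,1,2,3,4] [17,33,36,0], .exc [false,false,true] 1, .exc [false,false,false,false,true]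 2, .exc [false,false,true] 1, .exc [false,false,true] 1, .no, .go 9 [0,2,3,4,1] [0,4,1,2,3] [21,17,26,30], .close true 10, .close true 8, .no, .exc [true,false,false] 1, .no, .no, .no, .go 9 [0,2,3,4,1] [0,4,1,2,3] [5,1,10,14], .close true 2, .close true 0, .no, .exc [true,false,false] 1, .no, .no, .no, .exc [true,false,false] 1, .no, .no, .no, .no, .no, .no, .no]
/-- the steps from the class 5 -/
def s5 : List Stp := [.no, .no, .no, .exc [false,false,false,false,true] 1, .no, .go 19 [0,1,3,4,2] [0,1,4,2,3] [1,13,1,5,11,13,15,23,27], .go 19 [0,1,3,4,2] [0,1,4,2,3] [3,9,3,5,7,9,19,25,29], .exc [false,false,false] 2, .no, .exc [false,false,false,true,true] 1, .exc [false,false,false,true,true] 1, .exc [false,false,false] 1, .go 8 [0,1,2,3,4] [0,1,2,3,4] [15,17,19,21,31,33], .exc [false,false,true] 2, .exc [false,false,true] 2, .no, .no, .go 7 [0,1,2,4,3] [0,1,2,4,3] [2,24,18,30], .go 7 [0,1,2,4,3] [0,1,2,4,3] [0,22,14,32],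 .exc [false,false,false] 2, .exc [true,false,false,false,true] 1, .exc [true,false,false] 2, .exc [true,false,false] 2, .no, .go 9 [0,1,3,4,2] [0,1,4,2,3] [0,2,26,28], .exc [false,false,true] 2, .exc [false,false,true] 2, .no, .exc [true,false,false] 1, .no, .no, .no, .no, .go 7 [0,1,2,4,3] [0,1,2,4,3] [2,28,18,32], .go 7 [0,1,2,4,3] [0,1,2,4,3] [0,26,14,30], .exc [false,false,false] 2, .exc [true,false,false,false,true] 1, .exc [true,false,false] 2, .exc [true,false,false] 2, .no, .go 9 [0,1,3,4,2] [0,1,4,2,3] [0,2,22,24], .exc [false,false,true] 2, .exc [false,false,true] 2, .no, .exc [true,false,false] 1, .no, .no, .no, .exc [false,true,false,false,true] 1, .exc [false,true,false] 2, .exc [false,true,false] 2, .no, .exc [false,false,false] 1, .no, .no, .no, .exc [true,false,false] 1, .no, .no, .no, .no, .no, .no, .no]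
/-- the steps from the class 6 -/
def s6 : List Stp := [.no, .no, .no, .exc [false,false,false,false,true] 1, .no, .go 19 [0,1,3,2,4] [0,1,3,2,4] [1,1,15,12,12,15,20,42,52], .go 19 [0,1,3,2,4] [0,1,3,2,4] [5,5,9,6,6,9,16,38,46], .exc [false,false,false] 2, .no, .go 19 [0,1,3,2,4] [0,1,3,2,4] [17,17,31,28,28,31,4,54,40], .go 19 [0,1,3,2,4] [0,1,3,2,4] [21,21,25,22,22,25,0,50,34], .exc [false,false,false] 2, .exc [false,false,false,false,true] 1, .exc [false,false,false] 2, .exc [false,false,false] 2, .no, .no, .go 8 [0,2,3,4,1] [0,4,1,2,3] [4,10,20,26,42,54], .go 8 [0,2,3,4,1] [0,4,1,2,3] [0,2,16,18,38,50], .exc [true,false,false] 1, .go 9 [2,0,3,4,1] [1,4,0,2,3] [34,40,21,17], .close false 16, .close false 18, .no, .go 9 [2,0,3,4,1] [1,4,0,2,3] [46,52,5,1], .close false 22, .close false 24, .no, .exc [true,false,false] 1, .no, .no, .no, .no, .go 8 [0,2,3,4,1] [0,4,1,2,3] [4,10,20,26,52,40], .go 8 [0,2,3,4,1] [0,4,1,2,3]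 [0,2,16,18,46,34], .exc [true,false,false] 1, .go 9 [2,0,3,4,1] [1,4,0,2,3] [50,54,21,17], .close false 24, .close false 22, .no, .go 9 [2,0,3,4,1] [1,4,0,2,3] [38,42,5,1], .close false 18, .close false 16, .no, .exc [true,false,false] 1, .no, .no, .no, .exc [false,false,false,false,true] 2, .exc [false,false,true] 1, .exc [false,false,true] 1, .no, .exc [true,false,false] 1, .no, .no, .no, .exc [true,false,false] 1, .no, .no, .no, .no, .no, .no, .no]
/-- the steps from the class 7 -/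
def s7 : List Stp := [.no, .go 13 [0,1,2,3,4,5] [0,1,2,3,4,5] [1,1,1,1,3,3,3,3,3,3,5,5,5,5,6,6,6,6,5,5], .go 11 [0,2,1,3,4,5] [0,2,1,3,4,5] [3,0,3,3,0,3,3,3,7,7,7,7,4,4,4,4,7,7,0,0], .exc [false,false,false,true] 2, .go 12 [0,1,2,3,4,5] [0,1,2,3,4,5] [1,1,1,1,3,3,3,3,3,3,5,5,5,5,5,5,7,7,7,7,7,7], .go 14 [0,1,2,3] [0,1,2,3] [1,1], .go 3 [0,1,3,2] [0,1,3,2] [3,7], .no, .go 11 [0,1,2,3,4,5] [0,1,2,3,4,5] [5,0,5,5,0,5,5,5,7,7,7,7,2,2,2,2,7,7,0,0], .exc [false,false,false,true] 2, .go 3 [0,2,1,3] [0,2,1,3] [7,0], .no, .go 3 [0,1,3,2] [0,1,3,2] [5,7], .no, .no, .no, .go 10 [0,1,2,3,4,5] [0,1,2,3,4,5] [7,7,7,7,5,5,5,5,0,0,0,0,2,2,2,2,0,0], .go 14 [0,1,2,3] [0,1,2,3] [7,7], .go 14 [0,1,2,3] [0,1,2,3] [5,5], .no, .exc [false,false,false,true] 2, .no, .no, .no, .go 14 [0,1,2,3] [0,1,2,3] [3,3], .no, .no, .no, .no, .no, .no, .no]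
/-- the steps from the class 8 -/
def s8 : List Stp := [.no, .go 6 [0,1,2,3,4,5] [0,1,2,3,4,5] [1,3,1,3,1,3,3,1,5,7,5,7,5,7,7,5,9,9,9,9,9,9,11,11,11,11,11,11], .go 5 [0,1,2,3,4,5] [0,1,2,3,4,5] [1,1,2,2,1,2,1,4,4,4,4,8,8,10,10,4,4], .go 14 [0,1,2,3] [0,1,2,3] [1,1], .go 5 [0,1,2,3,4,5] [0,1,2,3,4,5] [5,5,6,6,5,6,5,0,0,0,0,10,10,8,8,0,0], .go 14 [0,1,2,3] [0,1,2,3] [5,5], .exc [false,false,false,true] 1, .no, .go 4 [0,1,2,3,4,5] [0,1,2,3,4,5] [0,0,0,0,2,8,2,8,4,4,4,4,6,10,6,10,4,4,0,0], .exc [true,false,false,true] 1, .go 3 [0,1,2,3] [0,1,2,3] [8,4], .no, .go 3 [0,1,2,3] [0,1,2,3] [10,0], .no, .no, .no, .go 4 [0,1,2,3,4,5] [0,1,2,3,4,5] [0,0,0,0,2,10,2,10,4,4,4,4,6,8,6,8,4,4,0,0], .exc [true,false,false,true] 1, .go 3 [0,1,2,3] [0,1,2,3] [10,4], .no, .go 3 [0,1,2,3] [0,1,2,3] [8,0], .no, .no, .no, .exc [false,false,true,true] 1, .no, .no, .no, .no, .no, .no, .no]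
/-- the steps from the class 9 -/
def s9 : List Stp := [.no, .go 16 [2,3,1,0,4,5] [3,2,0,1,4,5] [1,1,1,1,7,7,7,7,5,5,5,5,5,5,3,3,3,3,3,3], .go 16 [2,3,1,0,4,5] [3,2,0,1,4,5] [3,3,3,3,5,5,5,5,7,7,7,7,7,7,1,1,1,1,1,1], .exc [false,false,false,true] 2, .go 17 [0,1,2,3,4,5] [0,1,2,3,4,5] [5,0,5,5,0,5,5,5,7,2,7,7,2,7,2,2,7,7,0,0], .go 3 [0,2,1,3] [0,2,1,3] [5,2], .go 3 [0,2,1,3] [0,2,1,3] [7,0], .no, .go 16 [0,1,2,3,4,5] [0,1,2,3,4,5] [1,1,1,1,3,3,3,3,5,5,5,5,5,5,7,7,7,7,7,7], .go 14 [0,1,2,3] [0,1,2,3] [1,1], .go 14 [0,1,2,3] [0,1,2,3] [3,3], .no, .go 3 [0,1,3,2] [0,1,3,2] [5,7], .no, .no, .no, .go 16 [0,1,2,3,4,5] [0,1,2,3,4,5] [7,7,7,7,5,5,5,5,3,3,3,3,3,3,1,1,1,1,1,1], .go 14 [0,1,2,3] [0,1,2,3] [7,7], .go 14 [0,1,2,3] [0,1,2,3] [5,5], .no, .go 3 [0,1,3,2] [0,1,3,2] [3,1], .no, .no, .no, .exc [false,false,false,true] 2, .no, .no, .no, .no, .no, .no, .no]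
/-- the steps from the class 10 -/
def s10 : List Stp := [.no, .no, .no, .exc [false,false,false,false,true] 1, .no, .go 29 [0,1,2,3,4] [0,1,2,3,4] [1,1,7,10,17,25], .go 29 [0,1,2,3,4] [0,1,2,3,4] [3,3,5,8,21,29], .exc [false,false,false] 2, .no, .go 48 [2,0,1,4,3] [1,2,0,4,3] [9,15,9,33,21,2], .go 48 [2,0,1,4,3] [1,2,0,4,3] [11,13,11,35,17,0], .exc [false,false,false] 2, .exc [false,false,false,false,true] 2, .exc [false,false,false] 3, .exc [false,false,false] 3, .no, .no, .go 7 [1,3,4,0,2] [3,0,4,1,2] [17,25,11,3], .go 7 [1,3,4,0,2] [3,0,4,1,2] [21,29,9,1], .exc [false,false,false] 2, .go 8 [0,1,2,3,4] [0,1,2,3,4] [17,19,21,23,33,35], .close true 8, .close true 10, .no, .go 9 [0,1,3,4,2] [0,1,4,2,3] [0,2,25,29], .exc [false,false,true] 2, .exc [false,false,true] 2, .no, .exc [true,false,false] 1, .no, .no, .no, .no, .go 48 [0,2,1,4,3] [0,2,1,4,3] [29,31,29,35,21,2], .go 48 [0,2,1,4,3] [0,2,1,4,3] [25,27,25,33,17,0],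 .exc [false,false,false] 2, .exc [false,false,false,false,true] 2, .exc [false,false,false] 3, .exc [false,false,false] 3, .no, .go 9 [2,0,3,4,1] [1,4,0,2,3] [21,17,3,1], .close true 10, .close true 8, .no, .exc [true,false,false] 1, .no, .no, .no, .go 9 [0,1,3,4,2] [0,1,4,2,3] [0,2,11,9], .exc [false,false,true] 2, .exc [false,false,true] 2, .no, .exc [true,false,false] 1, .no, .no, .no, .exc [true,false,false] 1, .no, .no, .no, .no, .no, .no, .no]
/-- the steps from the class 11 -/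
def s11 : List Stp := [.no, .no, .no, .exc [false,false,false,false,true] 1, .no, .go 9 [0,1,2,3,4] [0,1,2,3,4] [1,13,25,18], .go 9 [0,1,2,3,4] [0,1,2,3,4] [5,15,29,16], .exc [false,false,false] 2, .no, .go 9 [0,1,2,3,4] [0,1,2,3,4] [17,33,25,4], .go 9 [0,1,2,3,4] [0,1,2,3,4] [19,35,29,0], .exc [false,false,false] 2, .exc [false,false,false,false,true] 2, .exc [false,false,true] 2, .exc [false,false,true] 2, .no, .no, .go 9 [2,0,1,3,4] [1,2,0,3,4] [1,15,34,16], .go 9 [2,0,1,3,4] [1,2,0,3,4] [5,13,32,18], .exc [false,false,false] 2, .go 8 [0,1,2,3,4] [0,1,2,3,4] [1,3,5,9,37,39], .close true 0, .close true 2, .no, .go 9 [0,2,3,4,1] [0,4,1,2,3] [17,19,25,29], .close true 8, .close true 9, .no, .exc [true,false,false] 1, .no, .no, .no, .no, .go 48 [0,2,1,3,4] [0,2,1,3,4] [29,29,31,5,39,19], .go 48 [0,2,1,3,4] [0,2,1,3,4] [25,25,27,1,37,17], .exc [false,false,false] 2, .go 8 [0,1,2,3,4] [0,1,2,3,4] [19,21,17,23,33,35],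 .close true 9, .close true 8, .no, .go 8 [0,1,2,3,4] [0,1,2,3,4] [5,7,1,11,13,15], .close true 2, .close true 0, .no, .exc [true,false,false] 1, .no, .no, .no, .exc [false,false,false,false,true] 2, .exc [false,false,true] 2, .exc [false,false,true] 2, .no, .exc [true,false,false] 1, .no, .no, .no, .exc [true,false,false] 1, .no, .no, .no, .no, .no, .no, .no]
/-- the steps from the class 12 -/
def s12 : List Stp := [.no, .no, .no, .exc [false,false,false,false,true] 1, .no, .go 29 [0,1,2,4,3] [0,1,2,4,3] [1,7,1,9,29,34], .go 29 [0,1,2,4,3] [0,1,2,4,3] [3,5,3,11,31,32], .exc [false,false,false] 2, .no, .go 9 [2,0,1,3,4] [1,2,0,3,4] [9,19,40,32], .go 9 [2,0,1,3,4] [1,2,0,3,4] [11,17,42,34], .exc [false,false,false] 2, .exc [false,false,false,false,true] 2, .exc [false,false,false] 3, .exc [false,false,false] 3, .no, .no, .go 9 [2,0,1,3,4] [1,2,0,3,4] [21,31,42,32], .go 9 [2,0,1,3,4] [1,2,0,3,4] [23,29,40,34], .exc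 [false,false,false] 2, .exc [false,false,false,false,true] 2, .exc [false,false,false] 3, .exc [false,false,false] 3, .no, .go 9 [2,0,3,4,1] [1,4,0,2,3] [33,35,3,1], .close true 16, .close true 17, .no, .exc [true,false,false] 1, .no, .no, .no, .no, .go 7 [1,3,4,2,0] [4,0,3,1,2] [2,10,22,34], .go 7 [1,3,4,2,0] [4,0,3,1,2] [0,8,20,32], .exc [false,false,false] 2, .go 8 [0,1,2,3,4] [0,1,2,3,4] [35,37,33,39,41,43], .close true 17, .close true 16, .no, .go 8 [0,1,2,3,4] [0,1,2,3,4] [23,25,21,27,29,31], .exc [false,false,true] 2, .exc [false,false,true] 2, .no, .exc [true,false,false] 1, .no, .no, .no, .go 8 [0,1,2,3,4] [0,1,2,3,4] [11,13,9,15,17,19], .exc [false,false,true] 2, .exc [false,false,true] 2, .no, .exc [true,false,false] 1, .no, .no, .no, .exc [true,false,false] 1, .no, .no, .no, .no, .no, .no, .no]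
/-- the steps from the class 13 -/
def s13 : List Stp := [.no, .no, .no, .exc [false,false,false,false,true] 1, .no, .go 9 [0,2,1,3,4] [0,2,1,3,4] [9,17,29,22], .go 9 [0,2,1,3,4] [0,2,1,3,4] [11,19,33,20], .exc [false,false,false] 2, .no, .go 29 [0,1,2,3,4] [0,1,2,3,4] [1,1,7,19,21,29], .go 29 [0,1,2,3,4] [0,1,2,3,4] [3,3,5,17,23,33], .exc [false,false,false] 2, .go 9 [0,2,3,4,1] [0,4,1,2,3] [9,11,29,33], .close true 4, .close true 5, .no, .no, .go 9 [0,1,2,3,4] [0,1,2,3,4] [21,39,29,10], .go 9 [0,1,2,3,4] [0,1,2,3,4] [23,37,33,8], .exc [false,false,false] 2, .go 9 [0,1,3,4,2] [0,1,4,2,3] [0,2,29,33], .exc [false,false,true] 2, .exc [false,false,true] 2, .no, .go 9 [0,2,3,4,1] [0,4,1,2,3] [21,23,29,33], .close true 10, .close true 11, .no, .exc [true,false,false] 1, .no, .no, .no, .no, .go 29 [0,1,2,4,3] [0,1,2,4,3] [33,35,33,23,2,10], .go 29 [0,1,2,4,3] [0,1,2,4,3] [29,31,29,21,0,8], .exc [false,false,false] 2,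 .go 8 [0,1,2,3,4] [0,1,2,3,4] [23,25,21,27,37,39], .close true 11, .close true 10, .no, .exc [false,false,false,false,true] 2, .exc [false,false,false] 3, .exc [false,false,false] 3, .no, .exc [true,false,false] 1, .no, .no, .no, .go 8 [0,1,2,3,4] [0,1,2,3,4] [11,13,9,15,17,19], .close true 5, .close true 4, .no, .exc [true,false,false] 1, .no, .no, .no, .exc [true,false,false] 1, .no, .no, .no, .no, .no, .no, .no]
/-- the steps from the class 14 -/
def s14 : List Stp := [.no, .go 18 [0,1,2,3,4] [0,1,2,3,4] [3,3,3,3], .go 8 [0,1,4,2,3] [0,1,3,4,2] [2,2,2,2,2,2], .close false 0, .go 8 [0,1,4,2,3] [0,1,3,4,2] [2,2,2,2,2,2], .close false 0, .close false 0, .no, .go 8 [0,1,4,2,3] [0,1,3,4,2] [2,2,2,2,2,2], .close false 0, .close false 0, .no, .close false 0, .no, .no, .no]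
/-- the steps from the class 15 -/
def s15 : List Stp := [.no, .no, .no, .exc [false,false,false,false,true] 1, .no, .exc [false,false,false,true,true] 1, .exc [false,false,false,true,true] 1, .exc [false,false,false] 1, .no, .go 19 [0,1,2,4,3] [0,1,2,4,3] [0,4,8,16,18,20,22,28,30], .go 19 [0,1,2,4,3] [0,1,2,4,3] [0,2,8,10,12,14,24,26,32], .exc [false,false,false] 2, .go 18 [0,1,3,4,2] [0,1,4,2,3] [0,2,4,6], .exc [false,false,true] 2, .exc [false,false,true] 2, .no, .no, .go 19 [0,1,2,4,3] [0,1,2,4,3] [0,4,8,16,18,20,26,24,30], .go 19 [0,1,2,4,3] [0,1,2,4,3] [0,2,8,10,12,14,28,22,32], .exc [false,false,false] 2, .go 18 [0,1,3,4,2] [0,1,4,2,3] [0,2,4,6], .exc [false,false,true] 2, .exc [false,false,true] 2, .no, .exc [true,false,false,false,true] 1, .exc [true,false,false] 2, .exc [true,false,false] 2, .no, .exc [true,false,false] 1, .no, .no, .no, .no, .go 19 [0,1,2,4,3] [0,1,2,4,3] [0,4,8,16,18,20,32,24,28], .go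 19 [0,1,2,4,3] [0,1,2,4,3] [0,2,8,10,12,14,30,22,26], .exc [false,false,false] 2, .go 18 [0,1,3,4,2] [0,1,4,2,3] [0,2,4,6], .exc [false,false,true] 2, .exc [false,false,true] 2, .no, .exc [true,false,false,false,true] 1, .exc [true,false,false] 2, .exc [true,false,false] 2, .no, .exc [true,false,false] 1, .no, .no, .no, .exc [true,false,false,false,true] 1, .exc [true,false,false] 2, .exc [true,false,false] 2, .no, .exc [true,false,false] 1, .no, .no, .no, .exc [false,false,false] 1, .no, .no, .no, .no, .no, .no, .no]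
/-- the steps from the class 16 -/
def s16 : List Stp := [.no, .no, .no, .exc [false,false,false,false,true] 1, .no, .go 29 [0,2,1,4,3] [0,2,1,4,3] [1,7,1,17,10,30], .go 29 [0,2,1,4,3] [0,2,1,4,3] [3,5,3,19,8,28], .exc [false,false,false] 2, .no, .go 29 [0,2,1,4,3] [0,2,1,4,3] [9,15,9,29,2,18], .go 29 [0,2,1,4,3] [0,2,1,4,3] [11,13,11,31,0,16], .exc [false,false,false] 2, .exc [false,false,false,false,true] 2, .exc [false,false,false] 3, .exc [false,false,false] 3, .no, .no, .go 9 [2,0,1,3,4] [1,2,0,3,4] [17,27,11,28], .go 9 [2,0,1,3,4] [1,2,0,3,4] [19,25,9,30], .exc [false,false,false] 2, .go 9 [2,0,3,4,1] [1,4,0,2,3] [17,19,11,9], .close true 8, .close true 9, .no, .go 9 [2,0,3,4,1] [1,4,0,2,3] [29,31,3,1], .close true 14, .close true 15, .no, .exc [true,false,false] 1, .no, .no, .no, .no, .go 9 [2,0,1,3,4] [1,2,0,3,4] [31,2,11,18], .go 9 [2,0,1,3,4] [1,2,0,3,4] [29,0,9,16], .exc [false,false,false] 2, .go 8 [0,1,2,3,4]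 [0,1,2,3,4] [31,33,29,35,37,39], .close true 15, .close true 14, .no, .go 8 [0,1,2,3,4] [0,1,2,3,4] [19,21,17,23,25,27], .close true 9, .close true 8, .no, .exc [true,false,false] 1, .no, .no, .no, .go 9 [0,1,3,4,2] [0,1,4,2,3] [0,2,11,9], .exc [false,false,true] 2, .exc [false,false,true] 2, .no, .exc [true,false,false] 1, .no, .no, .no, .exc [true,false,false] 1, .no, .no, .no, .no, .no, .no, .no]
/-- the steps from the class 17 -/
def s17 : List Stp := [.no, .no, .no, .exc [false,false,false,false,true] 1, .no, .go 9 [0,1,2,3,4] [0,1,2,3,4] [1,13,28,20], .go 9 [0,1,2,3,4] [0,1,2,3,4] [5,15,30,16], .exc [false,false,false] 2, .no, .go 9 [0,1,2,3,4] [0,1,2,3,4] [17,33,36,4], .go 9 [0,1,2,3,4] [0,1,2,3,4] [21,35,38,0], .exc [false,false,false] 2, .exc [false,false,false,false,true] 2, .exc [false,false,true] 2, .exc [false,false,true] 2, .no, .no, .go 9 [2,0,1,3,4] [1,2,0,3,4] [1,15,34,16], .go 9 [2,0,1,3,4] [1,2,0,3,4]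 [5,13,32,20], .exc [false,false,false] 2, .go 8 [0,1,2,3,4] [0,1,2,3,4] [1,3,5,9,37,39], .close true 0, .close true 2, .no, .go 8 [0,1,2,3,4] [0,1,2,3,4] [17,19,21,25,29,31], .close true 8, .close true 10, .no, .exc [true,false,false] 1, .no, .no, .no, .no, .go 9 [2,0,1,3,4] [1,2,0,3,4] [21,31,38,4], .go 9 [2,0,1,3,4] [1,2,0,3,4] [17,29,36,0], .exc [false,false,false] 2, .go 8 [0,1,2,3,4] [0,1,2,3,4] [21,23,17,27,33,35], .close true 10, .close true 8, .no, .go 8 [0,1,2,3,4] [0,1,2,3,4] [5,7,1,11,13,15], .close true 2, .close true 0, .no, .exc [true,false,false] 1, .no, .no, .no, .exc [false,false,false,false,true] 2, .exc [false,false,true] 2, .exc [false,false,true] 2, .no, .exc [true,false,false] 1, .no, .no, .no, .exc [true,false,false] 1, .no, .no, .no, .no, .no, .no, .no]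
/-- the steps from the class 18 -/
def s18 : List Stp := [.no, .go 15 [0,1,2,3,4,5] [0,1,2,3,4,5] [3,3,3,3,7,4,4,7,4,4,7,4,4,4,4,4,4], .go 15 [0,1,2,3,4,5] [0,1,2,3,4,5] [5,5,5,5,7,2,2,7,2,2,7,2,2,2,2,2,2], .exc [false,false,false,true] 1, .go 6 [0,1,4,5,2,3] [0,1,4,5,2,3] [2,2,4,2,6,4,4,6,2,2,4,2,6,4,4,6,0,2,0,2,4,4,0,2,0,2,4,4], .go 14 [0,1,3,2] [0,1,3,2] [0,4], .go 14 [0,1,3,2] [0,1,3,2] [0,2], .no, .go 6 [0,1,4,5,2,3] [0,1,4,5,2,3] [2,2,4,2,6,4,4,6,2,2,4,2,6,4,4,6,0,2,0,2,4,4,0,2,0,2,4,4], .go 14 [0,1,3,2] [0,1,3,2] [0,4], .go 14 [0,1,3,2] [0,1,3,2] [0,2], .no, .exc [true,false,false,true] 1, .no, .no, .no, .go 6 [0,1,4,5,2,3] [0,1,4,5,2,3] [2,2,4,2,6,4,4,6,2,2,4,2,6,4,4,6,0,2,0,2,4,4,0,2,0,2,4,4], .go 14 [0,1,3,2] [0,1,3,2] [0,4], .go 14 [0,1,3,2] [0,1,3,2] [0,2], .no, .exc [true,false,false,true] 1, .no, .no, .no, .exc [true,false,false,true] 1, .no, .no, .no, .no, .no, .no, .no]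
/-- the steps from the class 19 -/
def s19 : List Stp := [.no, .go 24 [0,1,2,3,4,5] [0,1,2,3,4,5] [3,3,3,3,11,7,4,11,7,8,8,7,4,11,8,7,12,12,12,12,0,0,0,0,4,4,14,14,4,16,4,16,12,12], .go 23 [0,1,2,3,4,5] [0,1,2,3,4,5] [2,2,2,2,13,4,13,4,6,6,6,6,2,10,4,10,2,10,4,10,0,0,2,2,0,0,2,2,4,4,4,4,6,6], .exc [false,false,false,true] 2, .go 22 [0,1,2,3,4,5] [0,1,2,3,4,5] [5,5,5,5,11,7,2,9,11,7,9,7,2,9,11,9,7,13,13,2,2,15,15,15,15,15,15,2,2,17,17,17,17,17,17,2,2], .go 14 [0,1,2,3] [0,1,2,3] [7,7], .go 14 [0,1,2,3] [0,1,2,3] [13,13], .no, .go 21 [0,1,2,3,4,5] [0,1,2,3,4,5] [2,2,2,2,2,2,4,4,4,4,0,6,6,0,6,6,8,2,10,8,2,10,14,14,0,12,12,0,12,12,2,12,2,12,4,16,4,16,6,6], .go 14 [0,3,1,2] [0,2,3,1] [0,4], .go 14 [0,1,3,2] [0,1,3,2] [0,2], .no, .go 14 [0,1,3,2] [0,1,3,2] [0,2], .no, .no, .no, .go 21 [0,1,2,3,4,5] [0,1,2,3,4,5] [2,2,2,2,2,2,4,4,4,4,0,6,6,0,6,6,8,2,10,8,2,10,16,16,0,12,12,0,12,12,2,12,2,12,4,14,4,14,6,6], .go 14 [0,3,1,2]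 [0,2,3,1] [0,4], .go 14 [0,1,3,2] [0,1,3,2] [0,2], .no, .go 14 [0,1,3,2] [0,1,3,2] [0,2], .no, .no, .no, .exc [false,false,false,true] 2, .no, .no, .no, .no, .no, .no, .no]
/-- the steps from the class 20 -/
def s20 : List Stp := [.no, .go 28 [0,1,2,3,4,5] [0,1,2,3,4,5] [3,3,3,3,11,7,4,9,11,7,9,7,4,9,11,9,7,13,13,4,4,15,15,15,15,15,15,4,4,17,17,17,17,17,17,4,4], .go 27 [0,1,2,3,4,5] [0,1,2,3,4,5] [5,5,5,5,11,7,2,11,7,8,8,7,2,11,8,7,12,12,12,12,0,0,2,2,14,14,0,0,2,16,2,16,12,12], .exc [false,false,false,true] 2, .go 26 [0,1,2,3,4,5] [0,1,2,3,4,5] [13,2,13,2,4,4,4,4,6,6,2,10,4,10,2,10,4,10,0,0,2,2,0,0,2,2,4,4,4,4], .go 14 [0,1,2,3] [0,1,2,3] [13,13], .go 14 [0,1,3,2] [0,1,3,2] [0,2], .no, .go 25 [0,1,2,3,4,5] [0,1,2,3,4,5] [2,2,2,2,4,4,4,4,6,6,2,4,8,10,2,14,4,8,10,14,0,12,12,0,12,12,2,2,16,16,0,0,2,2,4,4,4,12,4,12], .go 14 [0,1,3,2] [0,1,3,2] [0,4], .go 14 [0,1,3,2] [0,1,3,2] [0,2], .no, .go 14 [0,1,3,2] [0,1,3,2]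 [0,2], .no, .no, .no, .go 25 [0,1,2,3,4,5] [0,1,2,3,4,5] [2,2,2,2,4,4,4,4,6,6,2,4,8,10,2,16,4,8,10,16,0,12,12,0,12,12,2,2,14,14,0,0,2,2,4,4,4,12,4,12], .go 14 [0,1,3,2] [0,1,3,2] [0,4], .go 14 [0,1,3,2] [0,1,3,2] [0,2], .no, .go 14 [0,1,3,2] [0,1,3,2] [0,2], .no, .no, .no, .exc [false,false,false,true] 2, .no, .no, .no, .no, .no, .no, .no]
/-- the steps from the class 21 -/
def s21 : List Stp := [.no, .no, .no, .exc [false,false,false,false,true] 1, .no, .go 50 [0,2,1,3,4] [0,2,1,3,4] [1,1,23,16,62,56], .go 50 [0,2,1,3,4] [0,2,1,3,4] [5,5,29,12,66,50], .exc [false,false,false] 2, .no, .go 30 [0,1,2,3,4] [0,1,2,3,4] [8,4,51,16,76,28], .go 30 [0,1,2,3,4] [0,1,2,3,4] [10,0,57,12,78,22], .exc [false,false,false] 2, .exc [false,false,false,false,true] 2, .exc [false,false,false] 3, .exc [false,false,false] 3, .no, .no, .go 46 [0,1,2,3,4] [0,1,2,3,4] [13,13,37,23,34,33,37,4,47,51,75,60,10], .go 46 [0,1,2,3,4] [0,1,2,3,4]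 [17,17,43,29,40,39,43,0,45,57,71,64,8], .exc [false,false,false] 2, .go 8 [0,1,2,3,4] [0,1,2,3,4] [23,25,29,31,77,79], .close true 11, .close true 14, .no, .go 8 [0,1,2,3,4] [0,1,2,3,4] [51,53,57,59,63,67], .close true 25, .close true 28, .no, .exc [true,false,false] 1, .no, .no, .no, .no, .go 9 [2,0,1,3,4] [1,2,0,3,4] [57,67,78,28], .go 9 [2,0,1,3,4] [1,2,0,3,4] [51,63,76,22], .exc [false,false,false] 2, .go 8 [4,0,2,3,1] [1,4,2,3,0] [12,14,16,18,72,68], .close true 28, .close true 25, .no, .go 8 [0,4,2,3,1] [0,4,2,3,1] [45,2,47,6,40,34], .close true 14, .close true 11, .no, .exc [true,false,false] 1, .no, .no, .no, .go 8 [0,4,2,3,1] [0,4,2,3,1] [0,2,4,6,10,8], .exc [false,false,true] 2, .exc [false,false,true] 2, .no, .exc [true,false,false] 1, .no, .no, .no, .exc [true,false,false] 1, .no, .no, .no, .no, .no, .no, .no]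
/-- the steps from the class 22 -/
def s22 : List Stp := [.no, .no, .no, .exc [false,false,false,false,true] 1, .no, .go 20 [0,1,2,4,3] [0,1,2,4,3] [11,33,11,30,30,33,36,52,66], .go 20 [0,1,2,4,3] [0,1,2,4,3] [19,23,19,20,20,23,34,48,60], .exc [false,false,false] 2, .no, .go 19 [0,1,2,4,3] [0,1,2,4,3] [35,4,8,18,24,28,38,56,70], .go 19 [0,1,2,4,3] [0,1,2,4,3] [37,2,8,10,12,16,40,54,72], .exc [false,false,false] 2, .exc [false,false,false,false,true] 2, .exc [false,false,true] 2, .exc [false,false,true] 2, .no, .no, .go 46 [0,1,2,4,3] [0,1,2,4,3] [0,4,8,18,24,26,28,54,52,36,68,40,70], .go 46 [0,1,2,4,3] [0,1,2,4,3] [0,2,8,10,12,14,16,56,48,34,64,38,72], .exc [false,false,false] 2, .go 18 [0,1,3,4,2] [0,1,4,2,3] [0,2,4,6], .close false 21, .close false 23, .no, .go 8 [0,4,2,3,1] [0,4,2,3,1] [10,12,18,24,70,72], .close false 29, .close false 31, .no, .exc [true,false,false] 1, .no, .no, .no, .no, .go 46 [0,1,2,4,3]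 [0,1,2,4,3] [0,4,8,18,24,26,28,72,66,36,50,40,56], .go 46 [0,1,2,4,3] [0,1,2,4,3] [0,2,8,10,12,14,16,70,60,34,44,38,54], .exc [false,false,false] 2, .go 18 [0,1,3,4,2] [0,1,4,2,3] [0,2,4,6], .close false 31, .close false 29, .no, .go 8 [0,4,2,3,1] [0,4,2,3,1] [10,12,18,24,56,54], .close false 23, .close false 21, .no, .exc [true,false,false] 1, .no, .no, .no, .exc [false,false,false,false,true] 2, .exc [false,false,true] 2, .exc [false,false,true] 2, .no, .exc [true,false,false] 1, .no, .no, .no, .exc [true,false,false] 1, .no, .no, .no, .no, .no, .no, .no]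
/-- the steps from the class 23 -/
def s23 : List Stp := [.no, .no, .no, .exc [false,false,false,false,true] 1, .no, .go 19 [0,1,2,3,4] [0,1,2,3,4] [1,1,31,17,28,31,12,60,58], .go 19 [0,1,2,3,4] [0,1,2,3,4] [5,5,39,21,36,39,8,62,56], .exc [false,false,false] 2, .no, .go 19 [0,1,2,3,4] [0,1,2,3,4] [9,9,27,17,24,27,4,52,46], .go 19 [0,1,2,3,4] [0,1,2,3,4] [13,13,35,21,32,35,0,54,44], .exc [false,false,false] 2, .go 8 [0,1,2,3,4] [0,1,2,3,4] [17,19,21,23,65,67], .exc [false,false,true] 2, .exc [false,false,true] 2, .no, .no, .go 30 [0,1,2,3,4] [0,1,2,3,4] [44,4,56,12,64,20], .go 30 [0,1,2,3,4] [0,1,2,3,4] [46,0,58,8,66,16], .exc [false,false,false] 2, .go 8 [0,4,2,3,1] [0,4,2,3,1] [8,10,12,14,60,62], .close false 20, .close false 21, .no, .go 8 [0,4,2,3,1] [0,4,2,3,1] [0,2,4,6,52,54], .close false 24, .close false 25, .no, .exc [true,false,false] 1, .no, .no, .no, .no, .go 30 [0,1,2,3,4] [0,1,2,3,4] [54,4,62,12,66,20],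 .go 30 [0,1,2,3,4] [0,1,2,3,4] [52,0,60,8,64,16], .exc [false,false,false] 2, .go 8 [0,4,2,3,1] [0,4,2,3,1] [8,10,12,14,58,56], .close false 25, .close false 24, .no, .go 8 [0,4,2,3,1] [0,4,2,3,1] [0,2,4,6,46,44], .close false 21, .close false 20, .no, .exc [true,false,false] 1, .no, .no, .no, .exc [false,false,false,false,true] 2, .exc [false,false,false] 3, .exc [false,false,false] 3, .no, .exc [true,false,false] 1, .no, .no, .no, .exc [true,false,false] 1, .no, .no, .no, .no, .no, .no, .no]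
/-- the steps from the class 24 -/
def s24 : List Stp := [.no, .no, .no, .exc [false,false,false,false,true] 1, .no, .go 19 [0,1,2,4,3] [0,1,2,4,3] [0,4,8,16,24,26,33,50,56], .go 19 [0,1,2,4,3] [0,1,2,4,3] [0,2,8,10,12,14,37,48,60], .exc [false,false,false] 2, .no, .go 20 [0,1,2,3,4] [0,1,2,3,4] [11,11,31,19,29,31,33,53,59], .go 20 [0,1,2,3,4] [0,1,2,3,4] [17,17,23,19,21,23,37,55,63], .exc [false,false,false] 2, .go 8 [0,1,2,3,4] [0,1,2,3,4] [33,35,37,39,65,67], .exc [false,false,true] 2, .exc [false,false,true] 2, .no, .no, .go 50 [0,2,1,4,3] [0,2,1,4,3] [0,4,16,48,36,64], .go 50 [0,2,1,4,3] [0,2,1,4,3] [0,2,10,50,32,66], .exc [false,false,false] 2, .go 8 [0,4,2,3,1] [0,4,2,3,1] [10,12,16,24,56,60], .close false 20, .close false 21, .no, .go 18 [0,1,3,4,2] [0,1,4,2,3] [0,2,4,6], .close false 22, .close false 23, .no, .exc [true,false,false] 1, .no, .no, .no, .no, .go 50 [0,2,1,4,3] [0,2,1,4,3] [0,4,16,60,36,66],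 .go 50 [0,2,1,4,3] [0,2,1,4,3] [0,2,10,56,32,64], .exc [false,false,false] 2, .go 8 [0,4,2,3,1] [0,4,2,3,1] [10,12,16,24,50,48], .close false 23, .close false 22, .no, .go 18 [0,1,3,4,2] [0,1,4,2,3] [0,2,4,6], .close false 21, .close false 20, .no, .exc [true,false,false] 1, .no, .no, .no, .exc [false,false,false,false,true] 2, .exc [false,false,false] 3, .exc [false,false,false] 3, .no, .exc [true,false,false] 1, .no, .no, .no, .exc [true,false,false] 1, .no, .no, .no, .no, .no, .no, .no]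
/-- the steps from the class 25 -/
def s25 : List Stp := [.no, .no, .no, .exc [false,false,false,false,true] 1, .no, .go 46 [0,1,2,3,4] [0,1,2,3,4] [1,1,27,17,22,25,27,12,31,43,57,72,70], .go 46 [0,1,2,3,4] [0,1,2,3,4] [5,5,37,19,32,35,37,8,39,49,59,76,68], .exc [false,false,false] 2, .no, .go 50 [0,1,2,3,4] [0,1,2,3,4] [9,9,17,4,74,48], .go 50 [0,1,2,3,4] [0,1,2,3,4] [13,13,19,0,78,42], .exc [false,false,false] 2, .exc [false,false,false,false,true] 2, .exc [false,false,false] 3, .exc [false,false,false] 3, .no, .no, .go 9 [2,0,1,3,4] [1,2,0,3,4] [43,4,13,69], .go 9 [2,0,1,3,4] [1,2,0,3,4] [49,0,9,71], .exc [false,false,false] 2, .go 8 [0,1,2,3,4] [0,1,2,3,4] [43,45,49,51,75,79], .close true 21, .close true 24, .no, .go 8 [0,4,2,3,1] [0,4,2,3,1] [0,2,4,6,64,66], .close false 30, .close false 31, .no, .exc [true,false,false] 1, .no, .no, .no, .no, .go 9 [2,0,1,3,4] [1,2,0,3,4] [66,4,13,77], .go 9 [2,0,1,3,4] [1,2,0,3,4]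 [64,0,9,73], .exc [false,false,false] 2, .go 8 [0,4,2,3,1] [0,4,2,3,1] [8,10,12,14,70,68], .close false 31, .close false 30, .no, .go 8 [0,4,2,3,1] [0,4,2,3,1] [0,2,4,6,54,52], .close true 24, .close true 21, .no, .exc [true,false,false] 1, .no, .no, .no, .go 8 [0,4,2,3,1] [0,4,2,3,1] [0,2,4,6,28,20], .exc [false,false,true] 2, .exc [false,false,true] 2, .no, .exc [true,false,false] 1, .no, .no, .no, .exc [true,false,false] 1, .no, .no, .no, .no, .no, .no, .no]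
/-- the steps from the class 26 -/
def s26 : List Stp := [.no, .no, .no, .exc [false,false,false,false,true] 1, .no, .go 19 [0,1,2,3,4] [0,1,2,3,4] [1,1,27,17,24,27,12,56,54], .go 19 [0,1,2,3,4] [0,1,2,3,4] [5,5,35,19,32,35,8,58,52], .exc [false,false,false] 2, .no, .go 19 [0,1,2,3,4] [0,1,2,3,4] [9,9,23,17,20,23,4,48,42], .go 19 [0,1,2,3,4] [0,1,2,3,4] [13,13,31,19,28,31,0,50,40], .exc [false,false,false] 2, .exc [false,false,false,false,true] 2, .exc [false,false,true] 2, .exc [false,false,true] 2, .no, .no, .go 9 [2,0,1,3,4] [1,2,0,3,4] [40,4,13,53], .go 9 [2,0,1,3,4] [1,2,0,3,4] [42,0,9,55], .exc [false,false,false] 2, .go 8 [0,4,2,3,1] [0,4,2,3,1] [8,10,12,14,56,58], .close false 18, .close false 19, .no, .go 8 [0,4,2,3,1] [0,4,2,3,1] [0,2,4,6,48,50], .close false 22, .close false 23, .no, .exc [true,false,false] 1, .no, .no, .no, .no, .go 9 [2,0,1,3,4] [1,2,0,3,4] [50,4,13,59], .go 9 [2,0,1,3,4] [1,2,0,3,4]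 [48,0,9,57], .exc [false,false,false] 2, .go 8 [0,4,2,3,1] [0,4,2,3,1] [8,10,12,14,54,52], .close false 23, .close false 22, .no, .go 8 [0,4,2,3,1] [0,4,2,3,1] [0,2,4,6,42,40], .close false 19, .close false 18, .no, .exc [true,false,false] 1, .no, .no, .no, .exc [false,false,false,false,true] 2, .exc [false,false,true] 2, .exc [false,false,true] 2, .no, .exc [true,false,false] 1, .no, .no, .no, .exc [true,false,false] 1, .no, .no, .no, .no, .no, .no, .no]
/-- the steps from the class 27 -/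
def s27 : List Stp := [.no, .no, .no, .exc [false,false,false,false,true] 1, .no, .go 20 [0,1,2,3,4] [0,1,2,3,4] [11,11,31,19,29,31,33,49,59], .go 20 [0,1,2,3,4] [0,1,2,3,4] [17,17,23,19,21,23,37,51,63], .exc [false,false,false] 2, .no, .go 19 [0,1,2,4,3] [0,1,2,4,3] [0,4,8,16,24,26,33,46,56], .go 19 [0,1,2,4,3] [0,1,2,4,3] [0,2,8,10,12,14,37,44,60], .exc [false,false,false] 2, .go 8 [0,1,2,3,4] [0,1,2,3,4] [33,35,37,39,65,67], .exc [false,false,true] 2, .exc [false,false,true] 2, .no, .no, .go 50 [0,1,2,4,3] [0,1,2,4,3] [0,4,16,44,36,64], .go 50 [0,1,2,4,3] [0,1,2,4,3] [0,2,10,46,32,66], .exc [false,false,false] 2, .go 18 [0,1,3,4,2] [0,1,4,2,3] [0,2,4,6], .close false 20, .close false 21, .no, .go 8 [0,4,2,3,1] [0,4,2,3,1] [10,12,16,24,56,60], .close false 26, .close false 27, .no, .exc [true,false,false] 1, .no, .no, .no, .no, .go 50 [0,1,2,4,3] [0,1,2,4,3] [0,4,16,60,36,66], .go 50 [0,1,2,4,3] [0,1,2,4,3] [0,2,10,56,32,64],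 .exc [false,false,false] 2, .go 18 [0,1,3,4,2] [0,1,4,2,3] [0,2,4,6], .close false 27, .close false 26, .no, .go 8 [0,4,2,3,1] [0,4,2,3,1] [10,12,16,24,46,44], .close false 21, .close false 20, .no, .exc [true,false,false] 1, .no, .no, .no, .exc [false,false,false,false,true] 2, .exc [false,false,false] 3, .exc [false,false,false] 3, .no, .exc [true,false,false] 1, .no, .no, .no, .exc [true,false,false] 1, .no, .no, .no, .no, .no, .no, .no]
/-- the steps from the class 28 -/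
def s28 : List Stp := [.no, .no, .no, .exc [false,false,false,false,true] 1, .no, .go 20 [0,1,2,4,3] [0,1,2,4,3] [11,33,11,30,30,33,36,52,66], .go 20 [0,1,2,4,3] [0,1,2,4,3] [19,23,19,20,20,23,34,48,60], .exc [false,false,false] 2, .no, .go 19 [0,1,2,4,3] [0,1,2,4,3] [35,4,8,18,24,28,38,56,70], .go 19 [0,1,2,4,3] [0,1,2,4,3] [37,2,8,10,12,16,40,54,72], .exc [false,false,false] 2, .go 18 [0,1,3,4,2] [0,1,4,2,3] [0,2,4,6], .exc [false,false,true] 2, .exc [false,false,true] 2, .no, .no, .go 46 [0,1,2,4,3] [0,1,2,4,3] [0,4,8,18,24,26,28,54,52,36,68,40,70], .go 46 [0,1,2,4,3] [0,1,2,4,3] [0,2,8,10,12,14,16,56,48,34,64,38,72], .exc [false,false,false] 2, .go 18 [0,1,3,4,2] [0,1,4,2,3] [0,2,4,6], .close false 21, .close false 23, .no, .go 8 [0,4,2,3,1] [0,4,2,3,1] [10,12,18,24,70,72], .close false 29, .close false 31, .no, .exc [true,false,false] 1, .no, .no, .no, .no, .go 46 [0,1,2,4,3] [0,1,2,4,3] [0,4,8,18,24,26,28,72,66,36,50,40,56],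 .go 46 [0,1,2,4,3] [0,1,2,4,3] [0,2,8,10,12,14,16,70,60,34,44,38,54], .exc [false,false,false] 2, .go 18 [0,1,3,4,2] [0,1,4,2,3] [0,2,4,6], .close false 31, .close false 29, .no, .go 8 [0,4,2,3,1] [0,4,2,3,1] [10,12,18,24,56,54], .close false 23, .close false 21, .no, .exc [true,false,false] 1, .no, .no, .no, .exc [false,false,false,false,true] 2, .exc [false,false,false] 3, .exc [false,false,false] 3, .no, .exc [true,false,false] 1, .no, .no, .no, .exc [true,false,false] 1, .no, .no, .no, .no, .no, .no, .no]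
/-- the steps from the class 29 -/
def s29 : List Stp := [.no, .go 34 [0,1,2,3,4,5] [0,1,2,3,4,5] [3,3,3,3,4,4,4,4,0,6,6,0,6,6,4,4,9,9,0,0,4,4,0,11,0,11,11,11,4,4,11,11,6,6], .go 33 [0,1,2,3,4,5] [0,1,2,3,4,5] [5,5,5,5,2,2,2,2,7,7,0,0,2,2,0,8,8,0,8,8,2,2,0,0,10,10,2,2,8,8], .exc [false,false,false,true] 2, .go 31 [1,0,2,3,4,5] [1,0,2,3,4,5] [2,2,2,2,7,4,7,7,4,7,2,4,2,4,0,0,2,2,0,9,10,0,9,9,10,9,10,10,9,9,4,4], .go 14 [0,1,3,2] [0,1,3,2] [0,4], .go 14 [0,1,2,3] [0,1,2,3] [7,7], .no, .go 32 [0,1,2,3,4,5] [0,1,2,3,4,5] [9,2,9,9,2,9,4,4,4,4,2,2,0,11,0,11,11,11,11,11,0,6,6,0,6,6,6,6,4,4,4,4], .go 14 [0,1,2,3] [0,1,2,3] [9,9], .go 14 [0,1,3,2] [0,1,3,2] [0,2], .no, .go 14 [0,1,3,2] [0,1,3,2] [0,2], .no, .no, .no, .go 31 [0,1,2,3,4,5] [0,1,2,3,4,5] [2,2,2,2,11,4,11,11,4,11,2,4,2,4,0,0,2,2,0,9,6,0,9,9,6,9,6,6,9,9,4,4], .go 14 [0,1,3,2] [0,1,3,2] [0,4], .go 14 [0,1,2,3] [0,1,2,3] [11,11], .no, .go 14 [0,1,3,2] [0,1,3,2]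 [0,2], .no, .no, .no, .go 14 [0,1,3,2] [0,1,3,2] [0,2], .no, .no, .no, .no, .no, .no, .no]
/-- the steps from the class 30 -/
def s30 : List Stp := [.no, .go 44 [0,1,2,3,4,5] [0,1,2,3,4,5] [1,1,1,1,2,2,2,2,5,5,5,5,6,6,6,6,9,9,9,9,10,10,10,10,9,9,6,6,2,2], .go 44 [0,1,2,3,4,5] [0,1,2,3,4,5] [3,3,3,3,0,0,0,0,7,7,7,7,4,4,4,4,11,11,11,11,8,8,8,8,11,11,4,4,0,0], .exc [false,false,false,true] 2, .go 43 [0,1,2,3,4,5] [0,1,2,3,4,5] [1,1,1,1,3,3,3,3,9,4,9,9,4,9,9,9,11,6,11,11,6,11,6,6,11,11,4,4], .go 14 [0,1,2,3] [0,1,2,3] [1,1], .go 14 [0,1,2,3] [0,1,2,3] [3,3], .no, .go 43 [0,1,2,3,4,5] [0,1,2,3,4,5] [5,5,5,5,7,7,7,7,9,0,9,9,0,9,9,9,11,2,11,11,2,11,2,2,11,11,0,0], .go 14 [0,1,2,3] [0,1,2,3] [5,5], .go 14 [0,1,2,3] [0,1,2,3] [7,7], .no, .go 3 [0,1,3,2] [0,1,3,2] [9,11], .no, .no, .no, .go 43 [0,1,2,3,4,5] [0,1,2,3,4,5] [11,11,11,11,9,9,9,9,7,0,7,7,0,7,7,7,5,2,5,5,2,5,2,2,5,5,0,0], .go 14 [0,1,2,3] [0,1,2,3] [11,11], .go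 14 [0,1,2,3] [0,1,2,3] [9,9], .no, .go 3 [0,1,3,2] [0,1,3,2] [7,5], .no, .no, .no, .go 3 [0,1,3,2] [0,1,3,2] [3,1], .no, .no, .no, .no, .no, .no, .no]
/-- the steps from the class 31 -/
def s31 : List Stp := [.no, .no, .no, .exc [false,false,false,false,true] 1, .no, .go 50 [0,1,2,3,4] [0,1,2,3,4] [1,1,22,12,52,44], .go 50 [0,1,2,3,4] [0,1,2,3,4] [5,5,26,8,54,38], .exc [false,false,false] 2, .no, .go 48 [0,1,2,3,4] [0,1,2,3,4] [9,9,19,20,4,39], .go 48 [0,1,2,3,4] [0,1,2,3,4] [13,13,15,24,0,45], .exc [false,false,false] 2, .exc [false,false,false,false,true] 2, .exc [false,false,false] 3, .exc [false,false,false] 3, .no, .no, .go 9 [2,0,1,3,4] [1,2,0,3,4] [32,4,13,38], .go 9 [2,0,1,3,4] [1,2,0,3,4] [34,0,9,44], .exc [false,false,false] 2, .go 8 [0,4,2,3,1] [0,4,2,3,1] [8,10,12,16,60,62], .close false 14, .close false 15, .no, .go 8 [0,1,2,3,4] [0,1,2,3,4] [39,41,45,49,53,55], .close true 19, .close true 22, .no,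 .exc [true,false,false] 1, .no, .no, .no, .no, .go 9 [2,0,1,3,4] [1,2,0,3,4] [45,55,13,63], .go 9 [2,0,1,3,4] [1,2,0,3,4] [39,53,9,61], .exc [false,false,false] 2, .go 8 [0,1,2,3,4] [0,1,2,3,4] [45,47,39,51,57,59], .close true 22, .close true 19, .no, .go 8 [0,4,2,3,1] [0,4,2,3,1] [0,2,4,6,34,32], .close false 15, .close false 14, .no, .exc [true,false,false] 1, .no, .no, .no, .go 8 [0,4,2,3,1] [0,4,2,3,1] [0,2,4,6,24,20], .exc [false,false,true] 2, .exc [false,false,true] 2, .no, .exc [true,false,false] 1, .no, .no, .no, .exc [true,false,false] 1, .no, .no, .no, .no, .no, .no, .no]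
/-- the steps from the class 32 -/
def s32 : List Stp := [.no, .no, .no, .exc [false,false,false,false,true] 1, .no, .go 29 [0,1,2,3,4] [0,1,2,3,4] [1,1,11,16,27,52], .go 29 [0,1,2,3,4] [0,1,2,3,4] [5,5,7,12,31,54], .exc [false,false,false] 2, .no, .go 51 [0,1,2,3,4] [0,1,2,3,4] [13,13,20,4,43,30], .go 51 [0,1,2,3,4] [0,1,2,3,4] [17,17,22,0,49,26], .exc [false,false,false] 2, .exc [false,false,false,false,true] 2, .exc [false,false,false] 3, .exc [false,false,false] 3, .no, .no, .go 9 [2,0,1,3,4] [1,2,0,3,4] [27,39,17,57], .go 9 [2,0,1,3,4] [1,2,0,3,4] [31,37,13,59], .exc [false,false,false] 2, .go 8 [0,4,2,3,1] [0,4,2,3,1] [12,14,16,18,60,62], .close true 13, .close true 15, .no, .go 8 [0,1,2,3,4] [0,1,2,3,4] [43,45,49,51,53,55], .close true 21, .close true 24, .no, .exc [true,false,false] 1, .no, .no, .no, .no, .go 9 [2,0,1,3,4] [1,2,0,3,4] [49,55,17,63], .go 9 [2,0,1,3,4] [1,2,0,3,4] [43,53,13,61], .exc [false,false,false]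 2, .go 8 [0,4,2,3,1] [0,4,2,3,1] [12,14,16,18,58,56], .close true 24, .close true 21, .no, .go 8 [0,1,2,3,4] [0,1,2,3,4] [31,33,27,35,37,39], .close true 15, .close true 13, .no, .exc [true,false,false] 1, .no, .no, .no, .go 8 [0,4,2,3,1] [0,4,2,3,1] [0,2,4,8,22,20], .exc [false,false,true] 2, .exc [false,false,true] 2, .no, .exc [true,false,false] 1, .no, .no, .no, .exc [true,false,false] 1, .no, .no, .no, .no, .no, .no, .no]
/-- the steps from the class 33 -/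
def s33 : List Stp := [.no, .no, .no, .exc [false,false,false,false,true] 1, .no, .go 29 [0,1,2,3,4] [0,1,2,3,4] [9,9,4,18,31,49], .go 29 [0,1,2,3,4] [0,1,2,3,4] [13,13,2,16,37,51], .exc [false,false,false] 2, .no, .go 48 [1,0,2,3,4] [1,0,2,3,4] [17,17,4,24,12,37], .go 48 [1,0,2,3,4] [1,0,2,3,4] [19,19,2,26,8,31], .exc [false,false,false] 2, .go 18 [0,1,3,4,2] [0,1,4,2,3] [0,2,4,6], .close false 10, .close false 11, .no, .no, .go 51 [0,1,2,4,3] [0,1,2,4,3] [0,4,12,31,18,49], .go 51 [0,1,2,4,3] [0,1,2,4,3] [0,2,8,37,16,51], .exc [false,false,false] 2, .go 8 [0,1,2,3,4] [0,1,2,3,4] [31,33,37,39,57,59], .close true 15, .close true 18, .no, .go 8 [0,4,2,3,1] [0,4,2,3,1] [8,10,12,14,52,54], .close false 22, .close false 23, .no, .exc [true,false,false] 1, .no, .no, .no, .no, .go 48 [0,1,2,3,4] [0,1,2,3,4] [51,51,4,54,12,37], .go 48 [0,1,2,3,4] [0,1,2,3,4] [49,49,2,52,8,31], .exc [false,false,false] 2, .go 18 [0,1,3,4,2]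 [0,1,4,2,3] [0,2,4,6], .close false 23, .close false 22, .no, .go 8 [0,4,2,3,1] [0,4,2,3,1] [8,10,12,14,42,40], .close true 18, .close true 15, .no, .exc [true,false,false] 1, .no, .no, .no, .go 8 [0,4,2,3,1] [0,4,2,3,1] [8,10,12,14,26,24], .close false 11, .close false 10, .no, .exc [true,false,false] 1, .no, .no, .no, .exc [true,false,false] 1, .no, .no, .no, .no, .no, .no, .no]
/-- the steps from the class 34 -/
def s34 : List Stp := [.no, .no, .no, .exc [false,false,false,false,true] 1, .no, .go 29 [0,1,2,4,3] [0,1,2,4,3] [9,4,9,19,34,50], .go 29 [0,1,2,4,3] [0,1,2,4,3] [13,2,13,25,32,46], .exc [false,false,false] 2, .no, .go 50 [1,0,2,4,3] [1,0,2,4,3] [0,4,12,19,46,35], .go 50 [1,0,2,4,3] [1,0,2,4,3] [0,2,8,25,50,33], .exc [false,false,false] 2, .go 8 [0,1,2,3,4] [0,1,2,3,4] [19,21,25,27,65,67], .close true 9, .close true 12, .no, .no, .go 29 [0,1,2,3,4] [0,1,2,3,4] [33,33,4,12,47,64], .go 29 [0,1,2,3,4] [0,1,2,3,4]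 [35,35,2,8,51,66], .exc [false,false,false] 2, .go 18 [0,1,3,4,2] [0,1,4,2,3] [0,2,4,6], .close false 18, .close false 19, .no, .go 8 [0,4,2,3,1] [0,4,2,3,1] [8,10,12,14,56,58], .close true 23, .close true 25, .no, .exc [true,false,false] 1, .no, .no, .no, .no, .go 50 [0,1,2,4,3] [0,1,2,4,3] [0,4,12,51,24,35], .go 50 [0,1,2,4,3] [0,1,2,4,3] [0,2,8,47,18,33], .exc [false,false,false] 2, .go 8 [0,1,2,3,4] [0,1,2,3,4] [51,53,47,55,61,63], .close true 25, .close true 23, .no, .go 8 [0,4,2,3,1] [0,4,2,3,1] [8,10,12,14,42,40], .close false 19, .close false 18, .no, .exc [true,false,false] 1, .no, .no, .no, .go 8 [0,4,2,3,1] [0,4,2,3,1] [8,10,12,14,30,28], .close true 12, .close true 9, .no, .exc [true,false,false] 1, .no, .no, .no, .exc [true,false,false] 1, .no, .no, .no, .no, .no, .no, .no]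
/-- the steps from the class 35 -/
def s35 : List Stp := [.no, .no, .no, .exc [false,false,false,false,true] 1, .no, .go 46 [1,0,2,3,4] [1,0,2,3,4] [1,1,31,17,26,29,31,12,41,69,81,90,100], .go 46 [1,0,2,3,4] [1,0,2,3,4] [5,5,47,19,42,45,47,8,51,63,87,88,102], .exc [false,false,false] 2, .no, .go 46 [0,1,2,3,4] [0,1,2,3,4] [9,9,25,17,22,21,25,4,49,63,93,76,58], .go 46 [0,1,2,3,4] [0,1,2,3,4] [13,13,37,19,34,33,37,0,39,69,97,82,56], .exc [false,false,false] 2, .exc [false,false,false,false,true] 2, .exc [false,false,false] 3, .exc [false,false,false] 3, .no, .no, .go 9 [2,0,1,3,4] [1,2,0,3,4] [56,4,13,89], .go 9 [2,0,1,3,4] [1,2,0,3,4] [58,0,9,91], .exc [false,false,false] 2, .go 8 [0,4,2,3,1] [0,4,2,3,1] [8,10,12,14,100,102], .close false 26, .close false 27, .no, .go 8 [0,1,2,3,4] [0,1,2,3,4] [63,65,69,73,79,85], .close true 31, .close true 34, .no, .exc [true,false,false] 1, .no, .no, .no, .no, .go 9 [2,0,1,3,4]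 [1,2,0,3,4] [69,85,13,103], .go 9 [2,0,1,3,4] [1,2,0,3,4] [63,79,9,101], .exc [false,false,false] 2, .go 8 [0,1,2,3,4] [0,1,2,3,4] [69,71,63,75,95,99], .close true 34, .close true 31, .no, .go 8 [0,4,2,3,1] [0,4,2,3,1] [0,2,4,6,58,56], .close false 27, .close false 26, .no, .exc [true,false,false] 1, .no, .no, .no, .go 8 [0,4,2,3,1] [0,4,2,3,1] [39,2,49,6,34,22], .exc [false,false,true] 2, .exc [false,false,true] 2, .no, .exc [true,false,false] 1, .no, .no, .no, .exc [true,false,false] 1, .no, .no, .no, .no, .no, .no, .no]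
/-- the steps from the class 36 -/
def s36 : List Stp := [.no, .no, .no, .exc [false,false,false,false,true] 1, .no, .go 48 [1,0,2,3,4] [1,0,2,3,4] [1,1,11,21,16,57], .go 48 [1,0,2,3,4] [1,0,2,3,4] [5,5,7,23,12,51], .exc [false,false,false] 2, .no, .go 46 [0,1,2,3,4] [0,1,2,3,4] [13,13,29,21,26,25,29,4,39,51,73,60,46], .go 46 [0,1,2,3,4] [0,1,2,3,4] [17,17,35,23,32,31,35,0,37,57,75,64,44], .exc [false,false,false] 2, .exc [false,false,false,false,true] 2, .exc [false,false,false] 3, .exc [false,false,false] 3, .no, .no, .go 9 [2,0,1,3,4] [1,2,0,3,4] [44,4,17,69], .go 9 [2,0,1,3,4] [1,2,0,3,4] [46,0,13,71], .exc [false,false,false] 2, .go 8 [0,4,2,3,1] [0,4,2,3,1] [12,14,16,18,76,78], .close false 20, .close false 21, .no, .go 8 [0,1,2,3,4] [0,1,2,3,4] [51,53,57,59,63,67], .close true 25, .close true 28, .no, .exc [true,false,false] 1, .no, .no, .no, .no, .go 9 [2,0,1,3,4] [1,2,0,3,4] [57,67,17,79], .go 9 [2,0,1,3,4]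 [1,2,0,3,4] [51,63,13,77], .exc [false,false,false] 2, .go 8 [0,4,2,3,1] [0,4,2,3,1] [12,14,16,18,70,68], .close true 28, .close true 25, .no, .go 8 [0,4,2,3,1] [0,4,2,3,1] [0,2,4,8,46,44], .close false 21, .close false 20, .no, .exc [true,false,false] 1, .no, .no, .no, .go 8 [0,4,2,3,1] [0,4,2,3,1] [37,2,39,8,32,26], .exc [false,false,true] 2, .exc [false,false,true] 2, .no, .exc [true,false,false] 1, .no, .no, .no, .exc [true,false,false] 1, .no, .no, .no, .no, .no, .no, .no]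
/-- the steps from the class 37 -/
def s37 : List Stp := [.no, .no, .no, .exc [false,false,false,false,true] 1, .no, .go 45 [0,1,2,3,4] [0,1,2,3,4] [11,11,39,21,36,35,39,42,53,59,74,95,88], .go 45 [0,1,2,3,4] [0,1,2,3,4] [19,19,27,21,24,23,27,40,55,67,68,99,82], .exc [false,false,false] 2, .no, .go 48 [1,0,2,3,4] [1,0,2,3,4] [41,41,4,48,18,67], .go 48 [1,0,2,3,4] [1,0,2,3,4] [43,43,2,50,10,59], .exc [false,false,false] 2, .go 18 [0,1,3,4,2] [0,1,4,2,3] [0,2,4,6], .close false 22, .close false 23, .no, .no, .go 46 [0,1,2,4,3] [0,1,2,4,3] [0,4,8,18,28,30,32,59,74,42,90,50,92], .go 46 [0,1,2,4,3] [0,1,2,4,3] [0,2,8,10,12,14,16,67,68,40,86,48,96], .exc [false,false,false] 2, .go 8 [0,1,2,3,4] [0,1,2,3,4] [59,61,67,71,101,103], .close true 29, .close true 33, .no, .go 8 [0,4,2,3,1] [0,4,2,3,1] [10,12,18,28,92,96], .close false 40, .close false 42, .no, .exc [true,false,false] 1, .no, .no, .no, .no, .go 46 [0,1,2,4,3]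 [0,1,2,4,3] [0,4,8,18,28,30,32,96,88,103,72,50,78], .go 46 [0,1,2,4,3] [0,1,2,4,3] [0,2,8,10,12,14,16,92,82,101,62,48,76], .exc [false,false,false] 2, .go 18 [0,1,3,4,2] [0,1,4,2,3] [0,2,4,6], .close false 42, .close false 40, .no, .go 8 [0,4,2,3,1] [0,4,2,3,1] [10,12,18,28,78,76], .close true 33, .close true 29, .no, .exc [true,false,false] 1, .no, .no, .no, .go 8 [0,4,2,3,1] [0,4,2,3,1] [10,12,18,28,50,48], .close false 23, .close false 22, .no, .exc [true,false,false] 1, .no, .no, .no, .exc [true,false,false] 1, .no, .no, .no, .no, .no, .no, .no]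
/-- the steps from the class 38 -/
def s38 : List Stp := [.no, .no, .no, .exc [false,false,false,false,true] 1, .no, .go 46 [1,2,0,3,4] [2,0,1,3,4] [1,1,35,19,30,33,35,14,39,57,67,76,84], .go 46 [1,2,0,3,4] [2,0,1,3,4] [5,5,45,25,40,43,45,12,47,51,71,72,86], .exc [false,false,false] 2, .no, .go 30 [0,1,2,3,4] [0,1,2,3,4] [8,4,51,75,80,24], .go 30 [0,1,2,3,4] [0,1,2,3,4] [10,0,57,79,82,18], .exc [false,false,false] 2, .exc [false,false,false,false,true] 2, .exc [false,false,false] 3, .exc [false,false,false] 3, .no, .no, .go 9 [2,0,1,3,4] [1,2,0,3,4] [19,4,78,50], .go 9 [2,0,1,3,4] [1,2,0,3,4] [25,0,74,56], .exc [false,false,false] 2, .go 8 [0,1,2,3,4] [0,1,2,3,4] [19,21,25,27,81,83], .close true 9, .close true 12, .no, .go 8 [0,1,2,3,4] [0,1,2,3,4] [51,53,57,61,65,69], .close true 25, .close true 28, .no, .exc [true,false,false] 1, .no, .no, .no, .no, .go 9 [2,0,1,3,4] [1,2,0,3,4] [57,69,82,24], .go 9 [2,0,1,3,4]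 [1,2,0,3,4] [51,65,80,18], .exc [false,false,false] 2, .go 8 [0,1,2,3,4] [0,1,2,3,4] [57,59,51,63,75,79], .close true 28, .close true 25, .no, .go 8 [0,4,2,3,1] [0,4,2,3,1] [0,2,4,6,36,28], .close true 12, .close true 9, .no, .exc [true,false,false] 1, .no, .no, .no, .go 8 [0,4,2,3,1] [0,4,2,3,1] [0,2,4,6,10,8], .exc [false,false,true] 2, .exc [false,false,true] 2, .no, .exc [true,false,false] 1, .no, .no, .no, .exc [true,false,false] 1, .no, .no, .no, .no, .no, .no, .no]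
/-- the steps from the class 39 -/
def s39 : List Stp := [.no, .no, .no, .exc [false,false,false,false,true] 1, .no, .go 48 [1,2,0,3,4] [2,0,1,3,4] [1,1,11,27,20,61], .go 48 [1,2,0,3,4] [2,0,1,3,4] [5,5,7,33,16,55], .exc [false,false,false] 2, .no, .go 30 [0,1,2,3,4] [0,1,2,3,4] [12,4,55,20,80,32], .go 30 [0,1,2,3,4] [0,1,2,3,4] [14,0,61,16,82,26], .exc [false,false,false] 2, .exc [false,false,false,false,true] 2, .exc [false,false,false] 3, .exc [false,false,false] 3, .no, .no, .go 46 [0,1,2,3,4] [0,1,2,3,4] [17,17,41,27,38,37,41,4,51,55,79,64,14], .go 46 [0,1,2,3,4] [0,1,2,3,4] [21,21,47,33,44,43,47,0,49,61,75,68,12], .exc [false,false,false] 2, .go 8 [0,1,2,3,4] [0,1,2,3,4] [27,29,33,35,81,83], .close true 13, .close true 16, .no, .go 8 [0,1,2,3,4] [0,1,2,3,4] [55,57,61,63,67,71], .close true 27, .close true 30, .no, .exc [true,false,false] 1, .no, .no, .no, .no, .go 9 [2,0,1,3,4] [1,2,0,3,4] [61,71,82,32], .go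 9 [2,0,1,3,4] [1,2,0,3,4] [55,67,80,26], .exc [false,false,false] 2, .go 8 [4,0,2,3,1] [1,4,2,3,0] [16,18,20,22,76,72], .close true 30, .close true 27, .no, .go 8 [0,4,2,3,1] [0,4,2,3,1] [49,2,51,8,44,38], .close true 16, .close true 13, .no, .exc [true,false,false] 1, .no, .no, .no, .go 8 [0,4,2,3,1] [0,4,2,3,1] [0,2,4,8,14,12], .exc [false,false,true] 2, .exc [false,false,true] 2, .no, .exc [true,false,false] 1, .no, .no, .no, .exc [true,false,false] 1, .no, .no, .no, .no, .no, .no, .no]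
/-- the steps from the class 40 -/
def s40 : List Stp := [.no, .no, .no, .exc [false,false,false,false,true] 1, .no, .go 45 [0,1,2,3,4] [0,1,2,3,4] [11,11,39,21,36,35,39,42,49,55,66,87,80], .go 45 [0,1,2,3,4] [0,1,2,3,4] [19,19,27,21,24,23,27,40,51,61,62,91,74], .exc [false,false,false] 2, .no, .go 48 [1,0,2,3,4] [1,0,2,3,4] [41,41,4,44,18,61], .go 48 [1,0,2,3,4] [1,0,2,3,4] [43,43,2,46,10,55], .exc [false,false,false] 2, .exc [false,false,false,false,true] 2, .exc [false,false,false] 3, .exc [false,false,false] 3, .no, .no, .go 46 [0,1,2,4,3] [0,1,2,4,3] [0,4,8,18,28,30,32,55,66,42,82,46,84], .go 46 [0,1,2,4,3] [0,1,2,4,3] [0,2,8,10,12,14,16,61,62,40,78,44,88], .exc [false,false,false] 2, .go 8 [0,1,2,3,4] [0,1,2,3,4] [55,57,61,65,93,95], .close true 27, .close true 30, .no, .go 8 [0,4,2,3,1] [0,4,2,3,1] [10,12,18,28,84,88], .close false 36, .close false 38, .no, .exc [true,false,false] 1, .no, .no, .no, .no, .go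 9 [2,0,1,3,4] [1,2,0,3,4] [88,18,43,60], .go 9 [2,0,1,3,4] [1,2,0,3,4] [84,10,41,54], .exc [false,false,false] 2, .go 18 [0,1,3,4,2] [0,1,4,2,3] [0,2,4,6], .close false 38, .close false 36, .no, .go 8 [0,4,2,3,1] [0,4,2,3,1] [10,12,18,28,70,68], .close true 30, .close true 27, .no, .exc [true,false,false] 1, .no, .no, .no, .go 8 [0,4,2,3,1] [0,4,2,3,1] [10,12,18,28,46,44], .exc [false,false,true] 2, .exc [false,false,true] 2, .no, .exc [true,false,false] 1, .no, .no, .no, .exc [true,false,false] 1, .no, .no, .no, .no, .no, .no, .no]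
/-- the steps from the class 41 -/
def s41 : List Stp := [.no, .no, .no, .exc [false,false,false,false,true] 1, .no, .go 46 [0,1,2,3,4] [0,1,2,3,4] [1,1,39,23,34,37,39,12,43,55,69,84,82], .go 46 [0,1,2,3,4] [0,1,2,3,4] [5,5,49,29,44,47,49,8,51,61,71,88,80], .exc [false,false,false] 2, .no, .go 48 [1,0,2,3,4] [1,0,2,3,4] [9,9,19,23,4,61], .go 48 [1,0,2,3,4] [1,0,2,3,4] [13,13,15,29,0,55], .exc [false,false,false] 2, .go 8 [0,1,2,3,4] [0,1,2,3,4] [23,25,29,31,93,95], .close true 11, .close true 14, .no, .no, .go 30 [0,1,2,3,4] [0,1,2,3,4] [55,4,80,12,92,28], .go 30 [0,1,2,3,4] [0,1,2,3,4] [61,0,82,8,94,22], .exc [false,false,false] 2, .go 8 [0,1,2,3,4] [0,1,2,3,4] [55,57,61,63,87,91], .close true 27, .close true 30, .no, .go 8 [0,4,2,3,1] [0,4,2,3,1] [0,2,4,6,76,78], .close false 36, .close false 37, .no, .exc [true,false,false] 1, .no, .no, .no, .no, .go 30 [0,1,2,3,4] [0,1,2,3,4] [78,4,61,91,94,28], .go 30 [0,1,2,3,4]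 [0,1,2,3,4] [76,0,55,87,92,22], .exc [false,false,false] 2, .go 8 [0,4,2,3,1] [0,4,2,3,1] [8,10,12,16,82,80], .close false 37, .close false 36, .no, .go 8 [0,4,2,3,1] [0,4,2,3,1] [0,2,4,6,66,64], .close true 30, .close true 27, .no, .exc [true,false,false] 1, .no, .no, .no, .go 8 [0,4,2,3,1] [0,4,2,3,1] [0,2,4,6,40,32], .close true 14, .close true 11, .no, .exc [true,false,false] 1, .no, .no, .no, .exc [true,false,false] 1, .no, .no, .no, .no, .no, .no, .no]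
/-- the steps from the class 42 -/
def s42 : List Stp := [.no, .no, .no, .exc [false,false,false,false,true] 1, .no, .go 46 [0,1,2,4,3] [0,1,2,4,3] [0,4,8,18,28,30,32,43,58,66,78,86,92], .go 46 [0,1,2,4,3] [0,1,2,4,3] [0,2,8,10,12,14,16,51,52,64,74,84,96], .exc [false,false,false] 2, .no, .go 45 [0,1,2,4,3] [0,1,2,4,3] [11,39,11,21,35,36,39,43,58,66,89,76,95], .go 45 [0,1,2,4,3] [0,1,2,4,3] [19,27,19,21,23,24,27,51,52,64,91,70,99], .exc [false,false,false] 2, .go 8 [0,1,2,3,4] [0,1,2,3,4] [43,45,51,55,101,103], .close true 21, .close true 25, .no, .no, .go 48 [1,2,0,3,4] [2,0,1,3,4] [65,65,4,84,18,51], .go 48 [1,2,0,3,4] [2,0,1,3,4] [67,67,2,86,10,43], .exc [false,false,false] 2, .go 8 [0,4,2,3,1] [0,4,2,3,1] [10,12,18,28,92,96], .close false 34, .close false 36, .no, .go 18 [0,1,3,4,2] [0,1,4,2,3] [0,2,4,6], .close false 40, .close false 41, .no, .exc [true,false,false] 1, .no, .no, .no, .no, .go 46 [1,2,0,4,3]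 [2,0,1,4,3] [0,4,8,18,28,30,32,96,76,103,56,86,62], .go 46 [1,2,0,4,3] [2,0,1,4,3] [0,2,8,10,12,14,16,92,70,101,46,84,60], .exc [false,false,false] 2, .go 8 [0,4,2,3,1] [0,4,2,3,1] [10,12,18,28,86,84], .close false 41, .close false 40, .no, .go 9 [0,2,3,4,1] [0,4,1,2,3] [74,78,67,65], .close false 36, .close false 34, .no, .exc [true,false,false] 1, .no, .no, .no, .go 8 [4,0,2,3,1] [1,4,2,3,0] [10,12,18,28,62,60], .close true 25, .close true 21, .no, .exc [true,false,false] 1, .no, .no, .no, .exc [true,false,false] 1, .no, .no, .no, .no, .no, .no, .no]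
/-- the steps from the class 43 -/
def s43 : List Stp := [.no, .no, .no, .exc [false,false,false,false,true] 1, .no, .go 29 [0,1,2,3,4] [0,1,2,3,4] [1,1,7,10,17,44], .go 29 [0,1,2,3,4] [0,1,2,3,4] [3,3,5,8,21,46], .exc [false,false,false] 2, .no, .go 29 [0,1,2,3,4] [0,1,2,3,4] [9,9,15,2,33,52], .go 29 [0,1,2,3,4] [0,1,2,3,4] [11,11,13,0,37,54], .exc [false,false,false] 2, .exc [false,false,false,false,true] 2, .exc [false,false,false] 3, .exc [false,false,false] 3, .no, .no, .go 9 [2,0,1,3,4] [1,2,0,3,4] [17,31,11,32], .go 9 [2,0,1,3,4] [1,2,0,3,4] [21,29,9,36], .exc [false,false,false] 2, .go 8 [0,1,2,3,4] [0,1,2,3,4] [17,19,21,25,53,55], .close true 8, .close true 10, .no, .go 8 [0,1,2,3,4] [0,1,2,3,4] [33,35,37,41,45,47], .close true 16, .close true 18, .no, .exc [true,false,false] 1, .no, .no, .no, .no, .go 9 [2,0,1,3,4] [1,2,0,3,4] [37,47,11,20], .go 9 [2,0,1,3,4] [1,2,0,3,4] [33,45,9,16], .exc [false,false,false]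 2, .go 8 [0,1,2,3,4] [0,1,2,3,4] [37,39,33,43,49,51], .close true 18, .close true 16, .no, .go 8 [0,1,2,3,4] [0,1,2,3,4] [21,23,17,27,29,31], .close true 10, .close true 8, .no, .exc [true,false,false] 1, .no, .no, .no, .go 9 [0,1,3,4,2] [0,1,4,2,3] [0,2,11,9], .exc [false,false,true] 2, .exc [false,false,true] 2, .no, .exc [true,false,false] 1, .no, .no, .no, .exc [true,false,false] 1, .no, .no, .no, .no, .no, .no, .no]
/-- the steps from the class 44 -/
def s44 : List Stp := [.no, .no, .no, .exc [false,false,false,false,true] 1, .no, .go 30 [0,1,2,3,4] [0,1,2,3,4] [9,2,25,18,41,34], .go 30 [0,1,2,3,4] [0,1,2,3,4] [13,0,29,16,45,32], .exc [false,false,false] 2, .no, .go 29 [0,1,2,4,3] [0,1,2,4,3] [1,7,1,9,49,28], .go 29 [0,1,2,4,3] [0,1,2,4,3] [3,5,3,13,51,24], .exc [false,false,false] 2, .go 8 [0,1,2,3,4] [0,1,2,3,4] [9,11,13,15,57,59], .close true 4, .close true 6, .no, .no, .go 29 [0,1,2,4,3] [0,1,2,4,3] [17,23,17,25,51,12],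 .go 29 [0,1,2,4,3] [0,1,2,4,3] [19,21,19,29,49,8], .exc [false,false,false] 2, .go 8 [0,1,2,3,4] [0,1,2,3,4] [25,27,29,31,53,55], .close true 12, .close true 14, .no, .go 9 [0,2,3,4,1] [0,4,1,2,3] [33,35,41,45], .close true 16, .close true 17, .no, .exc [true,false,false] 1, .no, .no, .no, .no, .go 29 [0,1,2,4,3] [0,1,2,4,3] [45,47,45,35,55,12], .go 29 [0,1,2,4,3] [0,1,2,4,3] [41,43,41,33,53,8], .exc [false,false,false] 2, .go 8 [0,1,2,3,4] [0,1,2,3,4] [35,37,33,39,49,51], .close true 17, .close true 16, .no, .go 9 [0,2,3,4,1] [0,4,1,2,3] [29,25,19,17], .close true 14, .close true 12, .no, .exc [true,false,false] 1, .no, .no, .no, .go 9 [0,2,3,4,1] [0,4,1,2,3] [13,9,3,1], .close true 6, .close true 4, .no, .exc [true,false,false] 1, .no, .no, .no, .exc [true,false,false] 1, .no, .no, .no, .no, .no, .no, .no]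
/-- the steps from the class 45 -/
def s45 : List Stp := [.no, .go 37 [0,2,1,3,4,5] [0,2,1,3,4,5] [3,3,3,3,13,7,4,11,13,7,8,8,11,7,4,11,13,8,11,7,19,19,0,0,4,4,20,20,17,14,14,17,17,14,17,14,17,17,4,4,23,23,23,23,23,23,4,24,4,24,14,14], .go 37 [0,1,2,3,4,5] [0,1,2,3,4,5] [5,5,5,5,13,7,2,9,13,7,10,10,9,7,2,9,13,10,9,7,15,15,0,0,2,2,16,16,21,18,18,21,21,18,21,18,21,21,2,2,25,25,25,25,25,25,2,22,2,22,18,18], .exc [false,false,false,true] 2, .go 36 [0,1,3,2,4,5] [0,1,3,2,4,5] [15,4,15,15,4,15,2,2,2,2,6,6,10,4,12,10,4,12,16,16,0,0,4,4,0,18,18,0,18,18,4,18,4,18,2,2,22,22,2,2], .go 14 [0,1,3,2] [0,1,3,2] [0,4], .go 14 [0,1,2,3] [0,1,2,3] [15,15], .no, .go 36 [0,1,2,3,4,5] [0,1,2,3,4,5] [19,2,19,19,2,19,4,4,4,4,6,6,8,2,12,8,2,12,20,20,0,0,2,2,0,14,14,0,14,14,2,14,2,14,4,4,24,24,4,4], .go 14 [0,1,2,3] [0,1,2,3] [19,19], .go 14 [0,1,3,2] [0,1,3,2] [0,2], .no, .go 3 [0,1,3,2] [0,1,3,2] [22,24], .no, .no, .no, .go 35 [0,1,2,3,4,5]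 [0,1,2,3,4,5] [2,2,2,2,4,4,4,4,6,6,8,2,12,4,10,12,8,2,12,24,22,4,10,12,24,22,0,0,2,2,0,19,14,0,19,19,14,19,2,14,16,2,14,16,4,4,20,19,20,19,4,4], .go 14 [0,1,3,2] [0,1,3,2] [0,4], .go 14 [0,1,3,2] [0,1,3,2] [0,2], .no, .go 14 [0,1,3,2] [0,1,3,2] [0,2], .no, .no, .no, .go 14 [0,1,3,2] [0,1,3,2] [0,2], .no, .no, .no, .no, .no, .no, .no]
/-- the steps from the class 46 -/
def s46 : List Stp := [.no, .go 42 [0,1,2,3,4,5] [0,1,2,3,4,5] [3,3,3,3,13,7,4,11,13,7,8,8,11,7,4,11,13,8,11,7,17,14,14,17,17,14,17,14,17,17,4,4,19,19,21,21,21,21,21,21,0,0,4,4,22,22,4,24,4,24,14,14], .go 41 [0,1,2,3,4,5] [0,1,2,3,4,5] [2,2,2,2,15,4,15,15,4,15,0,6,6,0,6,6,2,4,10,12,2,16,4,10,12,16,0,18,18,0,18,18,2,2,20,20,0,0,2,2,4,4,4,18,4,18,6,6], .exc [false,false,false,true] 2, .go 40 [0,1,2,3,4,5] [0,1,2,3,4,5] [5,5,5,5,13,7,2,9,13,7,10,10,9,7,2,9,13,10,9,7,15,15,2,2,16,16,23,18,18,23,18,23,18,23,2,2,25,25,25,25,25,25,2,20,2,20,18,18], .go 14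 [0,1,2,3] [0,1,2,3] [7,7], .go 14 [0,1,2,3] [0,1,2,3] [15,15], .no, .go 39 [0,1,2,3,4,5] [0,1,2,3,4,5] [19,2,19,19,2,19,2,2,4,4,4,4,0,6,6,0,6,6,8,2,12,8,2,12,22,22,0,14,14,0,14,14,2,14,2,14,4,24,4,24,6,6], .go 14 [0,1,2,3] [0,1,2,3] [19,19], .go 14 [0,1,3,2] [0,1,3,2] [0,2], .no, .go 14 [0,1,3,2] [0,1,3,2] [0,2], .no, .no, .no, .go 38 [0,1,2,3,4,5] [0,1,2,3,4,5] [2,2,2,2,2,2,4,4,0,6,6,0,6,6,2,4,10,12,2,20,4,10,12,20,0,19,14,0,19,19,14,19,14,16,14,16,4,19,4,19,6,6,4,4], .go 14 [0,3,1,2] [0,2,3,1] [0,4], .go 14 [0,1,3,2] [0,1,3,2] [0,2], .no, .go 3 [0,1,3,2] [0,1,3,2] [20,19], .no, .no, .no, .go 3 [0,1,3,2] [0,1,3,2] [15,7], .no, .no, .no, .no, .no, .no, .no]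
/-- the steps from the class 47 -/
def s47 : List Stp := [.no, .go 49 [1,4,0,2,3] [2,0,3,4,1] [3,3,5,5], .go 49 [1,4,0,2,3] [2,0,3,4,1] [5,5,3,3], .close false 0, .go 49 [0,1,4,2,3] [0,1,3,4,2] [3,3,5,5], .close true 1, .close true 2, .no, .go 49 [0,1,4,2,3] [0,1,3,4,2] [5,5,3,3], .close true 2, .close true 1, .no, .close false 0, .no, .no, .no]
/-- the steps from the class 48 -/
def s48 : List Stp := [.no, .go 56 [0,1,2,3,4,5] [0,1,2,3,4,5] [3,3,3,3,4,4,4,4,7,7,0,8,8,0,8,8,4,4,11,11,0,0,4,4,0,0,4,4,8,8], .go 55 [0,1,2,3,4,5] [0,1,2,3,4,5] [5,5,5,5,2,2,2,2,9,9,0,6,6,0,6,6,2,2,0,10,10,0,10,10,2,2,0,0,2,2,10,10,6,6], .exc [false,false,false,true] 2, .go 54 [0,1,2,3,4,5] [0,1,2,3,4,5] [7,2,7,7,2,7,9,4,9,9,4,9,2,4,2,4,0,10,10,0,10,10,2,2,0,0,2,2,4,4,10,10], .go 14 [0,1,2,3] [0,1,2,3] [7,7], .go 14 [0,1,2,3] [0,1,2,3] [9,9], .no, .go 53 [0,1,2,3,4,5] [0,1,2,3,4,5] [11,2,11,11,2,11,4,4,4,4,2,2,0,6,6,0,6,6,2,2,0,8,8,0,8,8,8,8,4,4,6,6],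 .go 14 [0,1,2,3] [0,1,2,3] [11,11], .go 14 [0,1,3,2] [0,1,3,2] [0,2], .no, .go 14 [0,1,3,2] [0,1,3,2] [0,2], .no, .no, .no, .go 52 [0,1,2,3,4,5] [0,1,2,3,4,5] [2,2,2,2,4,4,2,4,2,4,0,6,6,0,6,6,2,2,0,11,8,0,11,11,8,11,8,8,11,11,6,6], .go 14 [0,1,3,2] [0,1,3,2] [0,4], .go 14 [0,1,3,2] [0,1,3,2] [0,2], .no, .go 14 [0,1,3,2] [0,1,3,2] [0,2], .no, .no, .no, .go 3 [0,1,3,2] [0,1,3,2] [9,7], .no, .no, .no, .no, .no, .no, .no]
/-- the steps from the class 49 -/
def s49 : List Stp := [.no, .go 16 [1,0,2,3,4,5] [1,0,2,3,4,5] [1,1,1,1,3,3,3,3,7,7,7,7,7,7,5,5,5,5,5,5], .go 16 [1,2,0,3,4,5] [2,0,1,3,4,5] [1,1,1,1,5,5,5,5,7,7,7,7,7,7,3,3,3,3,3,3], .go 14 [0,1,2,3] [0,1,2,3] [1,1], .go 16 [1,2,0,3,4,5] [2,0,1,3,4,5] [3,3,3,3,7,7,7,7,5,5,5,5,5,5,1,1,1,1,1,1], .go 14 [0,1,2,3] [0,1,2,3] [3,3], .exc [false,false,false,true] 1, .no, .go 16 [1,2,3,0,4,5] [3,0,1,2,4,5] [5,5,5,5,7,7,7,7,3,3,3,3,3,3,1,1,1,1,1,1], .exc [true,false,false,true]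 1, .go 14 [0,1,2,3] [0,1,2,3] [5,5], .no, .go 14 [0,1,2,3] [0,1,2,3] [7,7], .no, .no, .no, .go 17 [0,2,3,1,4,5] [0,3,1,2,4,5] [7,0,7,7,0,7,7,7,5,2,5,5,2,5,2,2,5,5,0,0], .exc [true,false,false,true] 1, .go 3 [0,1,2,3] [0,1,2,3] [7,2], .no, .go 3 [0,1,2,3] [0,1,2,3] [5,0], .no, .no, .no, .exc [false,false,true,true] 1, .no, .no, .no, .no, .no, .no, .no]
/-- the steps from the class 50 -/
def s50 : List Stp := [.no, .go 60 [0,1,2,3,4,5] [0,1,2,3,4,5] [3,3,3,3,5,5,0,6,6,0,6,6,0,0,0,9,0,9,9,9,10,10,9,9,6,6], .go 59 [0,1,2,3,4,5] [0,1,2,3,4,5] [2,2,2,2,7,7,7,7,0,4,4,0,4,4,2,2,0,0,2,2,0,11,0,11,11,11,8,8,8,8,2,2,11,11,4,4], .exc [false,false,false,true] 2, .go 57 [1,0,2,3,4,5] [1,0,2,3,4,5] [5,2,5,5,2,5,7,7,7,7,2,2,0,10,10,0,10,10,2,2,0,8,8,0,8,8,8,8,10,10], .go 14 [0,1,2,3] [0,1,2,3] [5,5], .go 14 [0,1,2,3] [0,1,2,3] [7,7], .no, .go 58 [0,1,2,3,4,5] [0,1,2,3,4,5] [2,2,2,2,2,2,0,9,4,0,9,9,4,9,9,9,0,11,6,0,11,11,6,11,6,6,11,11,4,4],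 .go 47 [0,1,2,3] [0,1,2,3] [0,9,6], .go 14 [0,1,3,2] [0,1,3,2] [0,2], .no, .go 3 [0,1,3,2] [0,1,3,2] [9,11], .no, .no, .no, .go 57 [0,1,2,3,4,5] [0,1,2,3,4,5] [11,2,11,11,2,11,9,9,9,9,2,2,0,4,4,0,4,4,2,2,0,6,6,0,6,6,6,6,4,4], .go 14 [0,1,2,3] [0,1,2,3] [11,11], .go 14 [0,1,2,3] [0,1,2,3] [9,9], .no, .go 14 [0,1,3,2] [0,1,3,2] [0,2], .no, .no, .no, .go 3 [0,1,3,2] [0,1,3,2] [7,5], .no, .no, .no, .no, .no, .no, .no]
/-- the steps from the class 51 -/
def s51 : List Stp := [.no, .go 64 [0,1,2,3,4,5] [0,1,2,3,4,5] [3,3,3,3,5,5,0,6,6,0,6,6,9,9,0,0,0,0,10,10,6,6], .go 63 [0,1,2,3,4,5] [0,1,2,3,4,5] [2,2,2,2,7,7,7,7,0,4,4,0,4,4,2,2,0,8,8,0,8,8,2,2,0,11,0,11,11,11,2,2,11,11,8,8,4,4], .exc [false,false,false,true] 2, .go 62 [0,1,2,3,4,5] [0,1,2,3,4,5] [5,2,5,5,2,5,7,7,7,7,2,2,0,8,8,0,8,8,2,2,0,11,0,11,11,11,2,2,11,11,8,8], .go 14 [0,1,2,3] [0,1,2,3] [5,5], .go 14 [0,1,2,3] [0,1,2,3] [7,7], .no, .go 61 [0,1,2,3,4,5] [0,1,2,3,4,5]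 [9,2,9,9,2,9,2,2,0,4,4,0,4,4,2,2,0,11,6,0,11,11,6,11,6,6,11,11,4,4], .go 14 [0,1,2,3] [0,1,2,3] [9,9], .go 14 [0,1,3,2] [0,1,3,2] [0,2], .no, .go 14 [0,1,3,2] [0,1,3,2] [0,2], .no, .no, .no, .go 61 [0,1,2,3,4,5] [0,1,2,3,4,5] [11,2,11,11,2,11,2,2,0,4,4,0,4,4,2,2,0,9,6,0,9,9,6,9,6,6,9,9,4,4], .go 14 [0,1,2,3] [0,1,2,3] [11,11], .go 14 [0,1,3,2] [0,1,3,2] [0,2], .no, .go 14 [0,1,3,2] [0,1,3,2] [0,2], .no, .no, .no, .go 3 [0,1,3,2] [0,1,3,2] [7,5], .no, .no, .no, .no, .no, .no, .no]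
/-- the steps from the class 52 -/
def s52 : List Stp := [.no, .no, .no, .exc [false,false,false,false,true] 1, .no, .go 50 [0,1,2,3,4] [0,1,2,3,4] [1,1,14,10,52,44], .go 50 [0,1,2,3,4] [0,1,2,3,4] [5,5,18,8,54,38], .exc [false,false,false] 2, .no, .go 30 [0,1,2,3,4] [0,1,2,3,4] [12,4,39,57,60,28], .go 30 [0,1,2,3,4] [0,1,2,3,4] [16,0,45,59,62,22], .exc [false,false,false] 2, .exc [false,false,false,false,true] 2, .exc [false,false,false] 3, .exc [false,false,false] 3, .no, .no, .go 9 [2,0,1,3,4] [1,2,0,3,4] [23,4,11,38], .go 9 [2,0,1,3,4] [1,2,0,3,4] [29,0,9,44], .exc [false,false,false] 2, .go 8 [0,1,2,3,4] [0,1,2,3,4] [23,25,29,31,61,63], .close true 11, .close true 14, .no, .go 8 [0,1,2,3,4] [0,1,2,3,4] [39,41,45,49,53,55], .close true 19, .close true 22, .no, .exc [true,false,false] 1, .no, .no, .no, .no, .go 9 [2,0,1,3,4] [1,2,0,3,4] [45,55,11,28], .go 9 [2,0,1,3,4] [1,2,0,3,4] [39,53,9,22], .exc [false,false,false]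 2, .go 8 [0,1,2,3,4] [0,1,2,3,4] [45,47,39,51,57,59], .close true 22, .close true 19, .no, .go 8 [0,4,2,3,1] [0,4,2,3,1] [0,2,4,6,34,32], .close true 14, .close true 11, .no, .exc [true,false,false] 1, .no, .no, .no, .go 8 [0,4,2,3,1] [0,4,2,3,1] [0,2,4,6,16,12], .exc [false,false,true] 2, .exc [false,false,true] 2, .no, .exc [true,false,false] 1, .no, .no, .no, .exc [true,false,false] 1, .no, .no, .no, .no, .no, .no, .no]
/-- the steps from the class 53 -/
def s53 : List Stp := [.no, .no, .no, .exc [false,false,false,false,true] 1, .no, .go 29 [0,1,2,3,4] [0,1,2,3,4] [1,1,11,16,27,52], .go 29 [0,1,2,3,4] [0,1,2,3,4] [5,5,7,12,33,54], .exc [false,false,false] 2, .no, .go 50 [0,1,2,3,4] [0,1,2,3,4] [13,13,20,4,60,32], .go 50 [0,1,2,3,4] [0,1,2,3,4] [17,17,22,0,62,26], .exc [false,false,false] 2, .exc [false,false,false,false,true] 2, .exc [false,false,false] 3, .exc [false,false,false] 3, .no, .no, .go 9 [2,0,1,3,4]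 [1,2,0,3,4] [27,4,17,57], .go 9 [2,0,1,3,4] [1,2,0,3,4] [33,0,13,59], .exc [false,false,false] 2, .go 8 [0,1,2,3,4] [0,1,2,3,4] [27,29,33,35,61,63], .close true 13, .close true 16, .no, .go 8 [0,1,2,3,4] [0,1,2,3,4] [43,45,49,51,53,55], .close true 21, .close true 24, .no, .exc [true,false,false] 1, .no, .no, .no, .no, .go 9 [2,0,1,3,4] [1,2,0,3,4] [49,55,17,32], .go 9 [2,0,1,3,4] [1,2,0,3,4] [43,53,13,26], .exc [false,false,false] 2, .go 8 [0,4,2,3,1] [0,4,2,3,1] [12,14,16,18,58,56], .close true 24, .close true 21, .no, .go 8 [0,4,2,3,1] [0,4,2,3,1] [0,2,4,8,38,36], .close true 16, .close true 13, .no, .exc [true,false,false] 1, .no, .no, .no, .go 8 [0,4,2,3,1] [0,4,2,3,1] [0,2,4,8,22,20], .exc [false,false,true] 2, .exc [false,false,true] 2, .no, .exc [true,false,false] 1, .no, .no, .no, .exc [true,false,false] 1, .no, .no, .no, .no, .no, .no, .no]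
/-- the steps from the class 54 -/
def s54 : List Stp := [.no, .no, .no, .exc [false,false,false,false,true] 1, .no, .go 48 [0,1,2,3,4] [0,1,2,3,4] [1,1,11,26,16,35], .go 48 [0,1,2,3,4] [0,1,2,3,4] [5,5,7,30,12,41], .exc [false,false,false] 2, .no, .go 48 [1,0,2,3,4] [1,0,2,3,4] [13,13,23,24,4,41], .go 48 [1,0,2,3,4] [1,0,2,3,4] [17,17,19,28,0,35], .exc [false,false,false] 2, .exc [false,false,false,false,true] 2, .exc [false,false,false] 3, .exc [false,false,false] 3, .no, .no, .go 9 [2,0,1,3,4] [1,2,0,3,4] [35,4,17,57], .go 9 [2,0,1,3,4] [1,2,0,3,4] [41,0,13,59], .exc [false,false,false] 2, .go 8 [0,1,2,3,4] [0,1,2,3,4] [35,37,41,43,61,63], .close true 17, .close true 20, .no, .go 8 [0,4,2,3,1] [0,4,2,3,1] [0,2,4,8,52,54], .close false 24, .close false 25, .no, .exc [true,false,false] 1, .no, .no, .no, .no, .go 9 [2,0,1,3,4] [1,2,0,3,4] [54,4,17,40], .go 9 [2,0,1,3,4] [1,2,0,3,4] [52,0,13,34], .exc [false,false,false]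 2, .go 8 [0,4,2,3,1] [0,4,2,3,1] [12,14,16,20,58,56], .close false 25, .close false 24, .no, .go 8 [0,4,2,3,1] [0,4,2,3,1] [0,2,4,8,46,44], .close true 20, .close true 17, .no, .exc [true,false,false] 1, .no, .no, .no, .go 8 [0,4,2,3,1] [0,4,2,3,1] [0,2,4,8,28,24], .exc [false,false,true] 2, .exc [false,false,true] 2, .no, .exc [true,false,false] 1, .no, .no, .no, .exc [true,false,false] 1, .no, .no, .no, .no, .no, .no, .no]
/-- the steps from the class 55 -/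
def s55 : List Stp := [.no, .no, .no, .exc [false,false,false,false,true] 1, .no, .go 48 [0,1,2,3,4] [0,1,2,3,4] [9,9,4,23,18,39], .go 48 [0,1,2,3,4] [0,1,2,3,4] [13,13,2,29,16,45], .exc [false,false,false] 2, .no, .go 48 [1,0,2,3,4] [1,0,2,3,4] [17,17,4,23,12,45], .go 48 [1,0,2,3,4] [1,0,2,3,4] [19,19,2,29,8,39], .exc [false,false,false] 2, .go 8 [0,1,2,3,4] [0,1,2,3,4] [23,25,29,31,65,67], .close true 11, .close true 14, .no, .no, .go 50 [0,1,2,4,3] [0,1,2,4,3] [0,4,12,39,28,64], .go 50 [0,1,2,4,3] [0,1,2,4,3] [0,2,8,45,22,66], .exc [false,false,false] 2, .go 8 [0,1,2,3,4] [0,1,2,3,4] [39,41,45,47,61,63], .close true 19, .close true 22, .no, .go 8 [0,4,2,3,1] [0,4,2,3,1] [8,10,12,14,56,58], .close false 26, .close false 27, .no, .exc [true,false,false] 1, .no, .no, .no, .no, .go 30 [0,1,2,3,4] [0,1,2,3,4] [58,12,45,63,66,28], .go 30 [0,1,2,3,4] [0,1,2,3,4] [56,8,39,61,64,22], .exc [false,false,false] 2, .go 18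 [0,1,3,4,2] [0,1,4,2,3] [0,2,4,6], .close false 27, .close false 26, .no, .go 8 [0,4,2,3,1] [0,4,2,3,1] [8,10,12,14,50,48], .close true 22, .close true 19, .no, .exc [true,false,false] 1, .no, .no, .no, .go 8 [0,4,2,3,1] [0,4,2,3,1] [8,10,12,14,34,32], .close true 14, .close true 11, .no, .exc [true,false,false] 1, .no, .no, .no, .exc [true,false,false] 1, .no, .no, .no, .no, .no, .no, .no]
/-- the steps from the class 56 -/
def s56 : List Stp := [.no, .no, .no, .exc [false,false,false,false,true] 1, .no, .go 48 [0,1,2,4,3] [0,1,2,4,3] [9,4,9,18,23,38], .go 48 [0,1,2,4,3] [0,1,2,4,3] [13,2,13,16,29,36], .exc [false,false,false] 2, .no, .go 48 [0,1,2,4,3] [0,1,2,4,3] [17,4,17,12,23,38], .go 48 [0,1,2,4,3] [0,1,2,4,3] [19,2,19,8,29,36], .exc [false,false,false] 2, .go 8 [0,1,2,3,4] [0,1,2,3,4] [23,25,29,31,57,59], .close true 11, .close true 14, .no, .no, .go 29 [0,1,2,4,3] [0,1,2,4,3] [37,4,37,44,18,28], .go 29 [0,1,2,4,3]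 [0,1,2,4,3] [39,2,39,46,16,22], .exc [false,false,false] 2, .go 18 [0,1,3,4,2] [0,1,4,2,3] [0,2,4,6], .close false 20, .close false 21, .no, .go 8 [0,4,2,3,1] [0,4,2,3,1] [8,10,12,14,52,54], .close false 24, .close false 25, .no, .exc [true,false,false] 1, .no, .no, .no, .no, .go 50 [0,1,2,4,3] [0,1,2,4,3] [0,4,12,54,28,39], .go 50 [0,1,2,4,3] [0,1,2,4,3] [0,2,8,52,22,37], .exc [false,false,false] 2, .go 18 [0,1,3,4,2] [0,1,4,2,3] [0,2,4,6], .close false 25, .close false 24, .no, .go 8 [0,4,2,3,1] [0,4,2,3,1] [8,10,12,14,46,44], .close false 21, .close false 20, .no, .exc [true,false,false] 1, .no, .no, .no, .go 8 [0,4,2,3,1] [0,4,2,3,1] [8,10,12,14,34,32], .close true 14, .close true 11, .no, .exc [true,false,false] 1, .no, .no, .no, .exc [true,false,false] 1, .no, .no, .no, .no, .no, .no, .no]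
/-- the steps from the class 57 -/
def s57 : List Stp := [.no, .no, .no, .exc [false,false,false,false,true] 1, .no, .go 29 [0,1,2,3,4] [0,1,2,3,4] [1,1,11,14,27,52], .go 29 [0,1,2,3,4] [0,1,2,3,4] [5,5,7,12,33,54], .exc [false,false,false] 2, .no, .go 29 [0,1,2,3,4] [0,1,2,3,4] [13,13,19,4,43,56], .go 29 [0,1,2,3,4] [0,1,2,3,4] [15,15,17,0,49,58], .exc [false,false,false] 2, .exc [false,false,false,false,true] 2, .exc [false,false,false] 3, .exc [false,false,false] 3, .no, .no, .go 9 [2,0,1,3,4] [1,2,0,3,4] [27,4,15,42], .go 9 [2,0,1,3,4] [1,2,0,3,4] [33,0,13,48], .exc [false,false,false] 2, .go 8 [0,1,2,3,4] [0,1,2,3,4] [27,29,33,35,57,59], .close true 13, .close true 16, .no, .go 8 [0,1,2,3,4] [0,1,2,3,4] [43,45,49,51,53,55], .close true 21, .close true 24, .no, .exc [true,false,false] 1, .no, .no, .no, .no, .go 9 [2,0,1,3,4] [1,2,0,3,4] [49,55,15,32], .go 9 [2,0,1,3,4] [1,2,0,3,4] [43,53,13,26], .exc [false,false,false]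 2, .go 49 [0,1,2,3,4] [0,1,2,3,4] [49,43,12,14], .close true 24, .close true 21, .no, .go 8 [0,4,2,3,1] [0,4,2,3,1] [0,2,4,8,38,36], .close true 16, .close true 13, .no, .exc [true,false,false] 1, .no, .no, .no, .go 8 [0,4,2,3,1] [0,4,2,3,1] [0,2,4,8,22,20], .exc [false,false,true] 2, .exc [false,false,true] 2, .no, .exc [true,false,false] 1, .no, .no, .no, .exc [true,false,false] 1, .no, .no, .no, .no, .no, .no, .no]
/-- the steps from the class 58 -/
def s58 : List Stp := [.no, .no, .no, .exc [false,false,false,false,true] 1, .no, .go 50 [0,2,1,3,4] [0,2,1,3,4] [1,1,15,29,48,40], .go 50 [0,2,1,3,4] [0,2,1,3,4] [5,5,21,31,50,34], .exc [false,false,false] 2, .no, .go 30 [0,1,2,3,4] [0,1,2,3,4] [8,4,35,53,56,20], .go 30 [0,1,2,3,4] [0,1,2,3,4] [10,0,41,55,58,14], .exc [false,false,false] 2, .exc [false,false,false,false,true] 2, .exc [false,false,false] 3, .exc [false,false,false] 3, .no, .no, .go 9 [2,0,1,3,4] [1,2,0,3,4]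 [15,31,54,34], .go 9 [2,0,1,3,4] [1,2,0,3,4] [21,29,52,40], .exc [false,false,false] 2, .go 8 [0,1,2,3,4] [0,1,2,3,4] [15,17,21,25,57,59], .close true 7, .close true 10, .no, .go 8 [0,1,2,3,4] [0,1,2,3,4] [35,37,41,45,49,51], .close true 17, .close true 20, .no, .exc [true,false,false] 1, .no, .no, .no, .no, .go 9 [2,0,1,3,4] [1,2,0,3,4] [41,51,58,20], .go 9 [2,0,1,3,4] [1,2,0,3,4] [35,49,56,14], .exc [false,false,false] 2, .go 8 [0,1,2,3,4] [0,1,2,3,4] [41,43,35,47,53,55], .close true 20, .close true 17, .no, .go 8 [0,1,2,3,4] [0,1,2,3,4] [21,23,15,27,29,31], .close true 10, .close true 7, .no, .exc [true,false,false] 1, .no, .no, .no, .go 8 [0,4,2,3,1] [0,4,2,3,1] [0,2,4,6,10,8], .exc [false,false,true] 2, .exc [false,false,true] 2, .no, .exc [true,false,false] 1, .no, .no, .no, .exc [true,false,false] 1, .no, .no, .no, .no, .no, .no, .no]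
/-- the steps from the class 59 -/
def s59 : List Stp := [.no, .no, .no, .exc [false,false,false,false,true] 1, .no, .go 50 [0,1,2,3,4] [0,1,2,3,4] [1,1,19,10,53,46], .go 50 [0,1,2,3,4] [0,1,2,3,4] [5,5,25,8,57,42], .exc [false,false,false] 2, .no, .go 29 [0,1,2,3,4] [0,1,2,3,4] [9,9,15,4,43,53], .go 29 [0,1,2,3,4] [0,1,2,3,4] [11,11,13,0,47,57], .exc [false,false,false] 2, .go 8 [0,1,2,3,4] [0,1,2,3,4] [19,21,25,27,69,71], .close true 9, .close true 12, .no, .no, .go 30 [0,1,2,3,4] [0,1,2,3,4] [36,4,43,67,53,24], .go 30 [0,1,2,3,4] [0,1,2,3,4] [38,0,47,65,57,18], .exc [false,false,false] 2, .go 49 [1,4,2,3,0] [4,0,2,3,1] [8,10,56,52], .close false 16, .close false 17, .no, .go 8 [0,4,2,3,1] [0,4,2,3,1] [0,2,4,6,60,62], .close true 21, .close true 23, .no, .exc [true,false,false] 1, .no, .no, .no, .no, .go 29 [0,1,2,4,3] [0,1,2,4,3] [57,59,57,47,10,24], .go 29 [0,1,2,4,3] [0,1,2,4,3] [53,55,53,43,8,18], .exc [false,false,false]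 2, .go 8 [0,1,2,3,4] [0,1,2,3,4] [47,49,43,51,65,67], .close true 23, .close true 21, .no, .go 8 [0,4,2,3,1] [0,4,2,3,1] [0,2,4,6,38,36], .close false 17, .close false 16, .no, .exc [true,false,false] 1, .no, .no, .no, .go 8 [0,4,2,3,1] [0,4,2,3,1] [0,2,4,6,30,28], .close true 12, .close true 9, .no, .exc [true,false,false] 1, .no, .no, .no, .exc [true,false,false] 1, .no, .no, .no, .no, .no, .no, .no]
/-- the steps from the class 60 -/
def s60 : List Stp := [.no, .no, .no, .exc [false,false,false,false,true] 1, .no, .go 50 [0,1,2,4,3] [0,1,2,4,3] [0,4,10,15,34,41], .go 50 [0,1,2,4,3] [0,1,2,4,3] [0,2,8,21,30,43], .exc [false,false,false] 2, .no, .go 29 [0,2,1,3,4] [0,2,1,3,4] [9,9,4,45,15,41], .go 29 [0,2,1,3,4] [0,2,1,3,4] [11,11,2,47,21,43], .exc [false,false,false] 2, .go 8 [0,1,2,3,4] [0,1,2,3,4] [15,17,21,23,49,51], .close true 7, .close true 10, .no, .no, .go 50 [0,2,1,4,3] [0,2,1,4,3] [0,4,47,31,20,41],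 .go 50 [0,2,1,4,3] [0,2,1,4,3] [0,2,45,35,14,43], .exc [false,false,false] 2, .go 18 [0,1,3,4,2] [0,1,4,2,3] [0,2,4,6], .close false 12, .close false 13, .no, .go 9 [0,2,3,4,1] [0,4,1,2,3] [31,35,41,43], .close true 15, .close true 17, .no, .exc [true,false,false] 1, .no, .no, .no, .no, .go 29 [0,1,2,4,3] [0,1,2,4,3] [43,4,43,35,10,20], .go 29 [0,1,2,4,3] [0,1,2,4,3] [41,2,41,31,8,14], .exc [false,false,false] 2, .go 8 [0,1,2,3,4] [0,1,2,3,4] [35,37,31,39,45,47], .close true 17, .close true 15, .no, .go 18 [0,1,3,4,2] [0,1,4,2,3] [0,2,4,6], .close false 13, .close false 12, .no, .exc [true,false,false] 1, .no, .no, .no, .go 9 [0,2,3,4,1] [0,4,1,2,3] [21,15,11,9], .close true 10, .close true 7, .no, .exc [true,false,false] 1, .no, .no, .no, .exc [true,false,false] 1, .no, .no, .no, .no, .no, .no, .no]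
/-- the steps from the class 61 -/
def s61 : List Stp := [.no, .no, .no, .exc [false,false,false,false,true] 1, .no, .go 48 [2,1,0,3,4] [2,1,0,3,4] [1,1,11,41,49,19], .go 48 [2,1,0,3,4] [2,1,0,3,4] [5,5,7,35,51,25], .exc [false,false,false] 2, .no, .go 30 [0,1,2,3,4] [0,1,2,3,4] [12,4,35,53,56,24], .go 30 [0,1,2,3,4] [0,1,2,3,4] [14,0,41,55,58,18], .exc [false,false,false] 2, .exc [false,false,false,false,true] 2, .exc [false,false,false] 3, .exc [false,false,false] 3, .no, .no, .go 9 [2,0,1,3,4] [1,2,0,3,4] [19,4,54,34], .go 9 [2,0,1,3,4] [1,2,0,3,4] [25,0,52,40], .exc [false,false,false] 2, .go 8 [0,1,2,3,4] [0,1,2,3,4] [19,21,25,27,57,59], .close true 9, .close true 12, .no, .go 8 [0,1,2,3,4] [0,1,2,3,4] [35,37,41,45,49,51], .close true 17, .close true 20, .no, .exc [true,false,false] 1, .no, .no, .no, .no, .go 9 [2,0,1,3,4] [1,2,0,3,4] [41,51,58,24], .go 9 [2,0,1,3,4] [1,2,0,3,4] [35,49,56,18], .exc [false,false,false]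 2, .go 8 [0,1,2,3,4] [0,1,2,3,4] [41,43,35,47,53,55], .close true 20, .close true 17, .no, .go 8 [0,4,2,3,1] [0,4,2,3,1] [0,2,4,8,30,28], .close true 12, .close true 9, .no, .exc [true,false,false] 1, .no, .no, .no, .go 8 [0,4,2,3,1] [0,4,2,3,1] [0,2,4,8,14,12], .exc [false,false,true] 2, .exc [false,false,true] 2, .no, .exc [true,false,false] 1, .no, .no, .no, .exc [true,false,false] 1, .no, .no, .no, .no, .no, .no, .no]
/-- the steps from the class 62 -/
def s62 : List Stp := [.no, .no, .no, .exc [false,false,false,false,true] 1, .no, .go 29 [0,2,1,4,3] [0,2,1,4,3] [1,11,1,27,14,46], .go 29 [0,2,1,4,3] [0,2,1,4,3] [5,7,5,33,12,42], .exc [false,false,false] 2, .no, .go 29 [0,1,2,3,4] [0,1,2,3,4] [13,13,19,4,43,60], .go 29 [0,1,2,3,4] [0,1,2,3,4] [15,15,17,0,47,62], .exc [false,false,false] 2, .exc [false,false,false,false,true] 2, .exc [false,false,false] 3, .exc [false,false,false] 3, .no, .no, .go 9 [2,0,1,3,4]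 [1,2,0,3,4] [27,4,15,42], .go 9 [2,0,1,3,4] [1,2,0,3,4] [33,0,13,46], .exc [false,false,false] 2, .go 8 [0,1,2,3,4] [0,1,2,3,4] [27,29,33,35,61,63], .close true 13, .close true 16, .no, .go 8 [0,4,2,3,1] [0,4,2,3,1] [0,2,4,8,52,54], .close true 21, .close true 23, .no, .exc [true,false,false] 1, .no, .no, .no, .no, .go 9 [2,0,1,3,4] [1,2,0,3,4] [47,4,15,32], .go 9 [2,0,1,3,4] [1,2,0,3,4] [43,0,13,26], .exc [false,false,false] 2, .go 8 [0,1,2,3,4] [0,1,2,3,4] [47,49,43,51,57,59], .close true 23, .close true 21, .no, .go 8 [0,4,2,3,1] [0,4,2,3,1] [0,2,4,8,38,36], .close true 16, .close true 13, .no, .exc [true,false,false] 1, .no, .no, .no, .go 8 [0,4,2,3,1] [0,4,2,3,1] [0,2,4,8,22,20], .exc [false,false,true] 2, .exc [false,false,true] 2, .no, .exc [true,false,false] 1, .no, .no, .no, .exc [true,false,false] 1, .no, .no, .no, .no, .no, .no, .no]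
/-- the steps from the class 63 -/
def s63 : List Stp := [.no, .no, .no, .exc [false,false,false,false,true] 1, .no, .go 51 [0,1,2,3,4] [0,1,2,3,4] [1,1,19,10,35,54], .go 51 [0,1,2,3,4] [0,1,2,3,4] [5,5,25,8,41,50], .exc [false,false,false] 2, .no, .go 29 [0,1,2,3,4] [0,1,2,3,4] [9,9,15,4,51,68], .go 29 [0,1,2,3,4] [0,1,2,3,4] [11,11,13,0,55,70], .exc [false,false,false] 2, .go 8 [0,1,2,3,4] [0,1,2,3,4] [19,21,25,27,73,75], .close true 9, .close true 12, .no, .no, .go 30 [0,1,2,3,4] [0,1,2,3,4] [35,4,51,67,72,24], .go 30 [0,1,2,3,4] [0,1,2,3,4] [41,0,55,65,74,18], .exc [false,false,false] 2, .go 8 [0,1,2,3,4] [0,1,2,3,4] [35,37,41,43,69,71], .close true 17, .close true 20, .no, .go 8 [0,4,2,3,1] [0,4,2,3,1] [0,2,4,6,60,62], .close true 25, .close true 27, .no, .exc [true,false,false] 1, .no, .no, .no, .no, .go 30 [0,1,2,3,4] [0,1,2,3,4] [55,4,41,71,74,24], .go 30 [0,1,2,3,4] [0,1,2,3,4] [51,0,35,69,72,18], .exc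 [false,false,false] 2, .go 8 [0,1,2,3,4] [0,1,2,3,4] [55,57,51,59,65,67], .close true 27, .close true 25, .no, .go 8 [0,4,2,3,1] [0,4,2,3,1] [0,2,4,6,46,44], .close true 20, .close true 17, .no, .exc [true,false,false] 1, .no, .no, .no, .go 8 [0,4,2,3,1] [0,4,2,3,1] [0,2,4,6,30,28], .close true 12, .close true 9, .no, .exc [true,false,false] 1, .no, .no, .no, .exc [true,false,false] 1, .no, .no, .no, .no, .no, .no, .no]
/-- the steps from the class 64 -/
def s64 : List Stp := [.no, .no, .no, .exc [false,false,false,false,true] 1, .no, .go 51 [0,1,2,4,3] [0,1,2,4,3] [0,4,10,15,26,37], .go 51 [0,1,2,4,3] [0,1,2,4,3] [0,2,8,21,24,39], .exc [false,false,false] 2, .no, .go 29 [0,2,1,3,4] [0,2,1,3,4] [9,9,4,26,15,37], .go 29 [0,2,1,3,4] [0,2,1,3,4] [11,11,2,24,21,39], .exc [false,false,false] 2, .go 8 [0,1,2,3,4] [0,1,2,3,4] [15,17,21,23,41,43], .close true 7, .close true 10, .no, .no, .go 48 [2,1,0,4,3] [2,1,0,4,3] [25,4,25,41,21,10],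 .go 48 [2,1,0,4,3] [2,1,0,4,3] [27,2,27,43,15,8], .exc [false,false,false] 2, .go 18 [0,1,3,4,2] [0,1,4,2,3] [0,2,4,6], .close false 14, .close false 15, .no, .go 18 [0,1,3,4,2] [0,1,4,2,3] [0,2,4,6], .close false 16, .close false 17, .no, .exc [true,false,false] 1, .no, .no, .no, .no, .go 48 [2,1,0,4,3] [2,1,0,4,3] [39,4,39,43,21,10], .go 48 [2,1,0,4,3] [2,1,0,4,3] [37,2,37,41,15,8], .exc [false,false,false] 2, .go 18 [0,1,3,4,2] [0,1,4,2,3] [0,2,4,6], .close false 17, .close false 16, .no, .go 18 [0,1,3,4,2] [0,1,4,2,3] [0,2,4,6], .close false 15, .close false 14, .no, .exc [true,false,false] 1, .no, .no, .no, .go 9 [0,2,3,4,1] [0,4,1,2,3] [21,15,11,9], .close true 10, .close true 7, .no, .exc [true,false,false] 1, .no, .no, .no, .exc [true,false,false] 1, .no, .no, .no, .no, .no, .no, .no]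

theorem k0 : chkC cs c0 s0 = true := by decide +kernel
theorem k1 : chkC cs c1 s1 = true := by decide +kernel
theorem k2 : chkC cs c2 s2 = true := by decide +kernel
theorem k3 : chkC cs c3 s3 = true := by decide +kernel
theorem k4 : chkC cs c4 s4 = true := by decide +kernel
theorem k5 : chkC cs c5 s5 = true := by decide +kernel
theorem k6 : chkC cs c6 s6 = true := by decide +kernel
theorem k7 : chkC cs c7 s7 = true := by decide +kernel
theorem k8 : chkC cs c8 s8 = true := by decide +kernel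
theorem k9 : chkC cs c9 s9 = true := by decide +kernel
theorem k10 : chkC cs c10 s10 = true := by decide +kernel
theorem k11 : chkC cs c11 s11 = true := by decide +kernel
theorem k12 : chkC cs c12 s12 = true := by decide +kernel
theorem k13 : chkC cs c13 s13 = true := by decide +kernel
theorem k14 : chkC cs c14 s14 = true := by decide +kernel
theorem k15 : chkC cs c15 s15 = true := by decide +kernel
theorem k16 : chkC cs c16 s16 = true := by decide +kernel
theorem k17 : chkC cs c17 s17 = true := by decide +kernel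
theorem k18 : chkC cs c18 s18 = true := by decide +kernel
theorem k19 : chkC cs c19 s19 = true := by decide +kernel
theorem k20 : chkC cs c20 s20 = true := by decide +kernel
theorem k21 : chkC cs c21 s21 = true := by decide +kernel
theorem k22 : chkC cs c22 s22 = true := by decide +kernel
theorem k23 : chkC cs c23 s23 = true := by decide +kernel
theorem k24 : chkC cs c24 s24 = true := by decide +kernel
theorem k25 : chkC cs c25 s25 = true := by decide +kernel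
theorem k26 : chkC cs c26 s26 = true := by decide +kernel
theorem k27 : chkC cs c27 s27 = true := by decide +kernel
theorem k28 : chkC cs c28 s28 = true := by decide +kernel
theorem k29 : chkC cs c29 s29 = true := by decide +kernel
theorem k30 : chkC cs c30 s30 = true := by decide +kernel
theorem k31 : chkC cs c31 s31 = true := by decide +kernel
theorem k32 : chkC cs c32 s32 = true := by decide +kernel
theorem k33 : chkC cs c33 s33 = true := by decide +kernel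
theorem k34 : chkC cs c34 s34 = true := by decide +kernel
theorem k35 : chkC cs c35 s35 = true := by decide +kernel
theorem k36 : chkC cs c36 s36 = true := by decide +kernel
theorem k37 : chkC cs c37 s37 = true := by decide +kernel
theorem k38 : chkC cs c38 s38 = true := by decide +kernel
theorem k39 : chkC cs c39 s39 = true := by decide +kernel
theorem k40 : chkC cs c40 s40 = true := by decide +kernel
theorem k41 : chkC cs c41 s41 = true := by decide +kernel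
theorem k42 : chkC cs c42 s42 = true := by decide +kernel
theorem k43 : chkC cs c43 s43 = true := by decide +kernel
theorem k44 : chkC cs c44 s44 = true := by decide +kernel
theorem k45 : chkC cs c45 s45 = true := by decide +kernel
theorem k46 : chkC cs c46 s46 = true := by decide +kernel
theorem k47 : chkC cs c47 s47 = true := by decide +kernel
theorem k48 : chkC cs c48 s48 = true := by decide +kernel
theorem k49 : chkC cs c49 s49 = true := by decide +kernel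
theorem k50 : chkC cs c50 s50 = true := by decide +kernel
theorem k51 : chkC cs c51 s51 = true := by decide +kernel
theorem k52 : chkC cs c52 s52 = true := by decide +kernel
theorem k53 : chkC cs c53 s53 = true := by decide +kernel
theorem k54 : chkC cs c54 s54 = true := by decide +kernel
theorem k55 : chkC cs c55 s55 = true := by decide +kernel
theorem k56 : chkC cs c56 s56 = true := by decide +kernel
theorem k57 : chkC cs c57 s57 = true := by decide +kernel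
theorem k58 : chkC cs c58 s58 = true := by decide +kernel
theorem k59 : chkC cs c59 s59 = true := by decide +kernel
theorem k60 : chkC cs c60 s60 = true := by decide +kernel
theorem k61 : chkC cs c61 s61 = true := by decide +kernel
theorem k62 : chkC cs c62 s62 = true := by decide +kernel
theorem k63 : chkC cs c63 s63 = true := by decide +kernel
theorem k64 : chkC cs c64 s64 = true := by decide +kernel

end Pool.CW.Dt
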