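import Pool.Agent.Lib.MP_fc2a59_co.CW.Base
import Pool.Agent.Lib.MP_fc2a59_co.CW.Stp
import Pool.Agent.Lib.MP_fc2a59_co.Jg.Fin

/-!
# MP_fc2a59_co (Jaeger): cubic graphs of cutwidth at most six
-/

set_option autoImplicit false

namespace Pool.CW

open Finset Relation Pool.Jg

theorem all_ok : ∀ D ∈ Dt.cs, ∃ T, chkC Dt.cs D T = true := by
  intro D hD
  simp only [Dt.cs, List.mem_cons, List.not_mem_nil, or_false] at hD
  rcases hD with rfl | rfl | rfl | rfl | rfl | rfl | rfl | rfl | rfl | rfl | rfl | rfl | rfl |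
    rfl | rfl | rfl | rfl | rfl | rfl | rfl | rfl | rfl | rfl | rfl | rfl | rfl | rfl | rfl |
    rfl | rfl | rfl | rfl | rfl | rfl | rfl | rfl | rfl | rfl | rfl | rfl | rfl | rfl | rfl |
    rfl | rfl | rfl | rfl | rfl | rfl | rfl | rfl | rfl | rfl | rfl | rfl | rfl | rfl | rfl |
    rfl | rfl | rfl | rfl | rfl | rfl | rfl
  · exact ⟨_, Dt.k0⟩
  · exact ⟨_, Dt.k1⟩
  · exact ⟨_, Dt.k2⟩
  · exact ⟨_, Dt.k3⟩
  · exact ⟨_, Dt.k4⟩
  · exact ⟨_, Dt.k5⟩
  · exact ⟨_, Dt.k6⟩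
  · exact ⟨_, Dt.k7⟩
  · exact ⟨_, Dt.k8⟩
  · exact ⟨_, Dt.k9⟩
  · exact ⟨_, Dt.k10⟩
  · exact ⟨_, Dt.k11⟩
  · exact ⟨_, Dt.k12⟩
  · exact ⟨_, Dt.k13⟩
  · exact ⟨_, Dt.k14⟩
  · exact ⟨_, Dt.k15⟩
  · exact ⟨_, Dt.k16⟩
  · exact ⟨_, Dt.k17⟩
  · exact ⟨_, Dt.k18⟩
  · exact ⟨_, Dt.k19⟩
  · exact ⟨_, Dt.k20⟩
  · exact ⟨_, Dt.k21⟩
  · exact ⟨_, Dt.k22⟩
  · exact ⟨_, Dt.k23⟩
  · exact ⟨_, Dt.k24⟩
  · exact ⟨_, Dt.k25⟩
  · exact ⟨_, Dt.k26⟩
  · exact ⟨_, Dt.k27⟩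
  · exact ⟨_, Dt.k28⟩
  · exact ⟨_, Dt.k29⟩
  · exact ⟨_, Dt.k30⟩
  · exact ⟨_, Dt.k31⟩
  · exact ⟨_, Dt.k32⟩
  · exact ⟨_, Dt.k33⟩
  · exact ⟨_, Dt.k34⟩
  · exact ⟨_, Dt.k35⟩
  · exact ⟨_, Dt.k36⟩
  · exact ⟨_, Dt.k37⟩
  · exact ⟨_, Dt.k38⟩
  · exact ⟨_, Dt.k39⟩
  · exact ⟨_, Dt.k40⟩
  · exact ⟨_, Dt.k41⟩
  · exact ⟨_, Dt.k42⟩
  · exact ⟨_, Dt.k43⟩
  · exact ⟨_, Dt.k44⟩
  · exact ⟨_, Dt.k45⟩
  · exact ⟨_, Dt.k46⟩
  · exact ⟨_, Dt.k47⟩
  · exact ⟨_, Dt.k48⟩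
  · exact ⟨_, Dt.k49⟩
  · exact ⟨_, Dt.k50⟩
  · exact ⟨_, Dt.k51⟩
  · exact ⟨_, Dt.k52⟩
  · exact ⟨_, Dt.k53⟩
  · exact ⟨_, Dt.k54⟩
  · exact ⟨_, Dt.k55⟩
  · exact ⟨_, Dt.k56⟩
  · exact ⟨_, Dt.k57⟩
  · exact ⟨_, Dt.k58⟩
  · exact ⟨_, Dt.k59⟩
  · exact ⟨_, Dt.k60⟩
  · exact ⟨_, Dt.k61⟩
  · exact ⟨_, Dt.k62⟩
  · exact ⟨_, Dt.k63⟩
  · exact ⟨_, Dt.k64⟩

variable {V : Type} [Fintype V] [DecidableEq V] {G : SimpleGraph V} [DecidableRel G.Adj]

/-- the next vertex -/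
theorem exists_next {r : V → ℕ} (hr : Function.Injective r) {U : Finset V}
    (hlow : ∀ x ∈ U, ∀ y, r y < r x → y ∈ U) (hne : U ≠ univ) :
    ∃ v, v ∉ U ∧ (∀ x ∈ insert v U, ∀ y, r y < r x → y ∈ insert v U) ∧
      ∀ x, x ∈ insert v U ↔ r x < r v + 1 := by
  have h1 : (Uᶜ).Nonempty := by
    rw [nonempty_iff_ne_empty]
    intro h
    exact hne (by rw [compl_eq_empty_iff] at h; exact h)
  obtain ⟨v, hv, hmin⟩ := exists_min_image Uᶜ r h1
  have hv' : v ∉ U := mem_compl.1 hv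
  have key : ∀ x, x ∈ insert v U ↔ r x < r v + 1 := by
    intro x
    rw [mem_insert]
    constructor
    · rintro (rfl | hx)
      · exact Nat.lt_succ_self _
      · by_contra hcon
        exact hv' (hlow x hx v (by omega))
    · intro hx
      by_cases hxU : x ∈ U
      · exact Or.inr hxU
      · left
        apply hr
        have := hmin x (mem_compl.2 hxU)
        omega
  refine ⟨v, hv', ?_, key⟩
  intro x hx y hy
  rw [key] at hx ⊢
  omega

theorem good_of_cutwidth (h3 : ∀ v, G.degree v = 3) (hV : 2 < Fintype.card V) (hc : CutHyp G)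
    (r : V → ℕ) (hr : Function.Injective r)
    (hw : ∀ t : ℕ, ((univ ×ˢ univ).filter
      (fun e : V × V => r e.1 < t ∧ t ≤ r e.2 ∧ G.Adj e.1 e.2)).card ≤ 6) :
    ∃ χ : V → Bool, Good G.Adj univ χ := by
  classical
  have hw' : ∀ (U : Finset V) (v : V), (∀ x, x ∈ insert v U ↔ r x < r v + 1) →
      cutn G (insert v U) ≤ 6 := by
    intro U v h
    rw [← cutn_eq]
    refine le_trans (le_of_eq ?_) (hw (r v + 1))
    congr 1
    ext e
    rw [mem_filter, mem_filter, h, h, not_lt]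
  have hne0 : Nonempty V := Fintype.card_pos_iff.1 (by omega)
  -- four vertices
  have h4 : 4 ≤ Fintype.card V := by
    obtain ⟨v⟩ := hne0
    have h1 : (G.neighborFinset v).card = 3 := by
      rw [SimpleGraph.card_neighborFinset_eq_degree, h3]
    have h2 : (insert v (G.neighborFinset v)).card = 4 := by
      rw [card_insert_of_notMem, h1]
      rw [SimpleGraph.mem_neighborFinset]
      exact G.irrefl
    rw [← h2]
    exact card_le_univ _
  -- the induction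
  have ind : ∀ m : ℕ, 1 ≤ m → m + 2 ≤ Fintype.card V → ∃ U : Finset V, U.card = m ∧
      (∀ x ∈ U, ∀ y, r y < r x → y ∈ U) ∧ ∃ D ∈ Dt.cs, ∃ L, Inv G U L D := by
    intro m hm
    induction m, hm using Nat.le_induction with
    | base =>
      intro _
      obtain ⟨v, hv, hlow, _⟩ := exists_next hr (U := ∅) (by simp) (by
        intro h
        have := card_univ (α := V)
        rw [← h, card_empty] at this
        omega)
      rw [insert_empty_eq] at hlow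
      exact ⟨{v}, card_singleton v, hlow, Dt.c0, by simp [Dt.cs], _, inv_base h3 v⟩
    | succ m hm ih =>
      intro hmn
      obtain ⟨U, hU, hlow, D, hD, L, I⟩ := ih (by omega)
      obtain ⟨T, hT⟩ := all_ok D hD
      obtain ⟨v, hv, hlow', hkey⟩ := exists_next hr hlow (by
        rintro rfl
        rw [card_univ] at hU
        omega)
      have hcard : (insert v U).card = m + 1 := by rw [card_insert_of_notMem hv, hU]
      obtain ⟨D', hD', L', I'⟩ := Inv.step h3 hc hT I (card_pos.1 (by omega)) hv (hw' U v hkey)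
        (by rw [card_compl]; omega)
      exact ⟨insert v U, hcard, hlow', D', hD', L', I'⟩
  obtain ⟨U, hU, hlow, D, hD, L, I⟩ := ind (Fintype.card V - 2) (by omega) (by omega)
  obtain ⟨T, hT⟩ := all_ok D hD
  obtain ⟨v, hv, _, _⟩ := exists_next hr hlow (by
    rintro rfl
    rw [card_univ] at hU
    omega)
  have hcard : (insert v U).card = Fintype.card V - 1 := by
    rw [card_insert_of_notMem hv, hU]
    omega
  have hcc : (insert v U)ᶜ.card = 1 := by rw [card_compl]; omega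
  obtain ⟨w, hw1⟩ := card_eq_one.1 hcc
  have hcut : cutn G (insert v U) = 3 := by
    rw [← cutn_compl, hw1, cutn, sum_singleton, ← h3 w,
      ← SimpleGraph.card_neighborFinset_eq_degree]
    congr 1
    ext x
    rw [mem_filter, SimpleGraph.mem_neighborFinset, mem_singleton]
    constructor
    · exact fun h => h.2.2
    · exact fun h => ⟨mem_univ _, h.ne', h⟩
  have hne : insert v U ≠ univ := by
    intro h
    rw [h, compl_univ, card_empty] at hcc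
    omega
  exact good_of_solZ hw1 (I.toBd.nxt hv) (by rw [(I.toBd.nxt hv).length, hcut])
    (Inv.close h3 hc hT I (card_pos.1 (by omega)) hv hcut hne)

end Pool.CW
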