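import Pool.Agent.Lib.MP_fc2a59_co.CW.Stz

/-!
# MP_fc2a59_co (Jaeger), bounded cutwidth: cut facts, one more vertex
-/

set_option autoImplicit false

namespace Pool.CW

open Finset Relation Pool.Jg

variable {V : Type} [Fintype V] [DecidableEq V] (G : SimpleGraph V) [DecidableRel G.Adj]

/-- edges between `S` and the rest of `U` -/
def intc (U S : Finset V) : ℕ := ((S ×ˢ (U \ S)).filter fun p => G.Adj p.1 p.2).card

/-- there is a set `S` with at least `s` vertices, the pattern `X` and the value `n` -/
def FOK (U : Finset V) (L : List (V × V)) (s : ℕ) (X : List Bool) (n : ℕ) : Prop :=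
  ∀ ξ : V × V → Bool, L.map ξ = X → ∃ S, S ⊆ U ∧ S ≠ U ∧ s ≤ S.card ∧
    intc G U S + L.countP (fun p => xor (decide (p.1 ∈ S)) (ξ p)) ≤ n

variable {G}

omit [Fintype V] in
theorem intc_out {U S : Finset V} {v : V} (hv : v ∉ U) (hS : S ⊆ U) :
    intc G (insert v U) S = intc G U S + (U.filter fun u => G.Adj u v ∧ u ∈ S).card := by
  have h1 : ((S ×ˢ (insert v U \ S)).filter fun p => G.Adj p.1 p.2) =
      ((S ×ˢ (U \ S)).filter fun p => G.Adj p.1 p.2) ∪
        (U.filter fun u => G.Adj u v ∧ u ∈ S).image fun u => (u, v) := by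
    ext ⟨a, b⟩
    simp only [mem_filter, mem_product, mem_sdiff, mem_insert, mem_union, mem_image,
      Prod.mk.injEq]
    constructor
    · rintro ⟨⟨h1, h2 | h2, h3⟩, h4⟩
      · right
        subst h2
        exact ⟨a, ⟨hS h1, h4, h1⟩, rfl, rfl⟩
      · exact Or.inl ⟨⟨h1, h2, h3⟩, h4⟩
    · rintro (⟨⟨h1, h2, h3⟩, h4⟩ | ⟨u, ⟨h1, h2, h3⟩, rfl, rfl⟩)
      · exact ⟨⟨h1, Or.inr h2, h3⟩, h4⟩
      · exact ⟨⟨h3, Or.inl rfl, fun h => hv (hS h)⟩, h2⟩
  rw [intc, h1, card_union_of_disjoint, card_image_of_injective, intc]
  · intro a b hab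
    exact congrArg Prod.fst hab
  · rw [disjoint_left]
    rintro ⟨a, b⟩ h2 h3
    simp only [mem_filter, mem_product, mem_sdiff, mem_image, Prod.mk.injEq] at h2 h3
    obtain ⟨u, _, _, rfl⟩ := h3
    exact hv h2.1.2.1

omit [Fintype V] in
theorem intc_in {U S : Finset V} {v : V} (hv : v ∉ U) (hS : S ⊆ U) :
    intc G (insert v U) (insert v S) =
      intc G U S + (U.filter fun u => G.Adj u v ∧ u ∉ S).card := by
  have h1 : ((insert v S ×ˢ (insert v U \ insert v S)).filter fun p => G.Adj p.1 p.2) =
      ((S ×ˢ (U \ S)).filter fun p => G.Adj p.1 p.2) ∪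
        (U.filter fun u => G.Adj u v ∧ u ∉ S).image fun u => (v, u) := by
    ext ⟨a, b⟩
    simp only [mem_filter, mem_product, mem_sdiff, mem_insert, mem_union, mem_image,
      Prod.mk.injEq]
    constructor
    · rintro ⟨⟨h1, h2, h3⟩, h4⟩
      push Not at h3
      have h5 := h2.resolve_left h3.1
      rcases h1 with h1 | h1
      · right
        subst h1
        exact ⟨b, ⟨h5, h4.symm, h3.2⟩, rfl, rfl⟩
      · exact Or.inl ⟨⟨h1, h5, h3.2⟩, h4⟩
    · rintro (⟨⟨h1, h2, h3⟩, h4⟩ | ⟨u, ⟨h1, h2, h3⟩, rfl, rfl⟩)
      · refine ⟨⟨Or.inr h1, Or.inr h2, ?_⟩, h4⟩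
        push Not
        refine ⟨?_, h3⟩
        rintro rfl
        exact hv h2
      · refine ⟨⟨Or.inl rfl, Or.inr h1, ?_⟩, h2.symm⟩
        push Not
        refine ⟨?_, h3⟩
        rintro rfl
        exact hv h1
  rw [intc, h1, card_union_of_disjoint, card_image_of_injective, intc]
  · intro a b hab
    exact congrArg Prod.snd hab
  · rw [disjoint_left]
    rintro ⟨a, b⟩ h2 h3
    simp only [mem_filter, mem_product, mem_sdiff, mem_image, Prod.mk.injEq] at h2 h3
    obtain ⟨u, _, rfl, _⟩ := h3
    exact hv (hS h2.1.1)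

theorem cnt_adj {U : Finset V} {v : V} (hv : v ∉ U) {L : List (V × V)} (hL : Bd G U L)
    (P : V → Prop) [DecidablePred P] :
    (U.filter fun u => G.Adj u v ∧ P u).card = L.countP fun p => msk v p && decide (P p.1) := by
  classical
  rw [List.countP_eq_length_filter, ← List.toFinset_card_of_nodup (hL.nd.filter _)]
  refine card_bij (fun u _ => (u, v)) ?_ ?_ ?_
  · intro u hu
    rw [mem_filter] at hu
    rw [List.mem_toFinset, List.mem_filter, hL.mem, mem_dts]
    exact ⟨⟨hu.1, hv, hu.2.1⟩, by simp [msk, hu.2.2]⟩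
  · intro a _ b _ hab
    exact congrArg Prod.fst hab
  · rintro ⟨a, b⟩ hp
    rw [List.mem_toFinset, List.mem_filter, hL.mem, mem_dts] at hp
    obtain ⟨⟨h1, _, h3⟩, h4⟩ := hp
    have h5 : b = v ∧ P a := by simpa [msk] using h4
    refine ⟨a, ?_, by rw [h5.1]⟩
    rw [mem_filter]
    refine ⟨h1, ?_, h5.2⟩
    rw [← h5.1]; exact h3

theorem countP_split {α : Type} (L : List α) (m f : α → Bool) :
    L.countP f = (L.filter fun p => !m p).countP f + L.countP fun p => m p && f p := by
  induction L with
  | nil => rfl
  | cons a L ih =>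
    rw [List.countP_cons, List.filter_cons, List.countP_cons, ih]
    rcases m a with _ | _
    · simp only [Bool.not_false, if_true, List.countP_cons, Bool.false_and]
      simp
      omega
    · simp
      omega

theorem countP_le_add {α : Type} (L : List α) (f g h : α → Bool)
    (H : ∀ a ∈ L, f a = true → g a = true ∨ h a = true) :
    L.countP f ≤ L.countP g + L.countP h := by
  induction L with
  | nil => simp
  | cons a L ih =>
    rw [List.countP_cons, List.countP_cons, List.countP_cons]
    have h1 := ih (fun b hb => H b (List.mem_cons_of_mem _ hb))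
    have h2 := H a List.mem_cons_self
    rcases hf : f a with _ | _
    · simp only [Bool.false_eq_true, if_false]
      omega
    · rcases h2 hf with h3 | h3
      · rw [h3]; simp only [if_true]; omega
      · rw [h3]; simp only [if_true]; omega

theorem countP_congr' {α : Type} {L : List α} {f g : α → Bool} (h : ∀ a ∈ L, f a = g a) :
    L.countP f = L.countP g := List.countP_congr fun a ha => by rw [h a ha]

/-- the total of a set without `v` -/
theorem tot_out {U S : Finset V} {v : V} (hv : v ∉ U) {L : List (V × V)} (hL : Bd G U L)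
    (hS : S ⊆ U) (ξ : V × V → Bool) :
    intc G (insert v U) S + (nxt G U v L).countP (fun p => xor (decide (p.1 ∈ S)) (ξ p)) =
      intc G U S + L.countP (fun p => msk v p && decide (p.1 ∈ S)) +
        (L.filter fun p => !msk v p).countP (fun p => xor (decide (p.1 ∈ S)) (ξ p)) +
        (nwd G U v).countP ξ := by
  rw [intc_out hv hS, cnt_adj hv hL (fun u => u ∈ S), nxt, List.countP_append]
  have h1 : (nwd G U v).countP (fun p => xor (decide (p.1 ∈ S)) (ξ p)) =
      (nwd G U v).countP ξ := by
    refine countP_congr' fun p hp => ?_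
    have h2 := (mem_nwd.1 hp).2
    have h3 : p.1 ∉ S := fun h => hv (hS (by rw [← h2]; exact h))
    simp [h3]
  rw [h1]
  omega

/-- the total of a set with `v` -/
theorem tot_in {U S : Finset V} {v : V} (hv : v ∉ U) {L : List (V × V)} (hL : Bd G U L)
    (hS : S ⊆ U) (ξ : V × V → Bool) :
    intc G (insert v U) (insert v S) +
        (nxt G U v L).countP (fun p => xor (decide (p.1 ∈ insert v S)) (ξ p)) =
      intc G U S + L.countP (fun p => msk v p && decide (p.1 ∉ S)) +
        (L.filter fun p => !msk v p).countP (fun p => xor (decide (p.1 ∈ S)) (ξ p)) +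
        (nwd G U v).countP (fun p => !ξ p) := by
  rw [intc_in hv hS, cnt_adj hv hL (fun u => u ∉ S), nxt, List.countP_append]
  have h1 : (nwd G U v).countP (fun p => xor (decide (p.1 ∈ insert v S)) (ξ p)) =
      (nwd G U v).countP (fun p => !ξ p) := by
    refine countP_congr' fun p hp => ?_
    have h2 := (mem_nwd.1 hp).2
    have h3 : p.1 ∈ insert v S := by rw [h2]; exact mem_insert_self _ _
    simp [h3]
  have h4 : (L.filter fun p => !msk v p).countP
      (fun p => xor (decide (p.1 ∈ insert v S)) (ξ p)) =
      (L.filter fun p => !msk v p).countP (fun p => xor (decide (p.1 ∈ S)) (ξ p)) := by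
    refine countP_congr' fun p hp => ?_
    have h2 := ((mem_rem hv hL).1 hp).2
    have h3 : (p.1 ∈ insert v S) ↔ p.1 ∈ S := by rw [mem_insert]; tauto
    simp [h3]
  rw [h1, h4]
  omega

theorem FOK.der {U : Finset V} {v : V} (hv : v ∉ U) (hU : U.Nonempty) {L : List (V × V)}
    (hL : Bd G U L) {D : Cls} (hk : L.length = D.k) (hm : D.m ≤ U.card)
    (hF : ∀ f ∈ D.F, FOK G U L f.s f.X f.v) (hlen : ∀ f ∈ D.F, f.X.length = D.k)
    {s : ℕ} {X : List Bool} {n : ℕ} (h : der D (L.map (msk v)) s X n = true) :
    FOK G (insert v U) (nxt G U v L) s X n := by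
  intro ξ hξ
  have hXr : X.take (cntF (L.map (msk v))) = (L.filter fun p => !msk v p).map ξ := by
    rw [← hξ, nxt, List.map_append, cntF_map]
    exact List.take_left' (by rw [List.length_map])
  have hXn : X.drop (cntF (L.map (msk v))) = (nwd G U v).map ξ := by
    rw [← hξ, nxt, List.map_append, cntF_map]
    exact List.drop_left' (by rw [List.length_map])
  rw [Pool.CW.der, hXr, hXn] at h
  simp only [orB_iff, andB_iff, cntT_map, cntF_map', Nat.ble_eq, anyB_iff, beqL_iff] at h
  rcases h with ⟨h1, h2⟩ | ⟨h1, h2⟩ | ⟨f, hf, h1, h2⟩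
  · -- the set `{v}`
    refine ⟨insert v ∅, ?_, ?_, ?_, ?_⟩
    · exact insert_subset_insert _ (empty_subset _)
    · intro h3
      obtain ⟨u, hu⟩ := hU
      have h4 : u ∈ insert v (∅ : Finset V) := by rw [h3]; exact mem_insert_of_mem hu
      rw [mem_insert] at h4
      rcases h4 with rfl | h4
      · exact hv hu
      · simp at h4
    · simpa using h1
    · rw [tot_in hv hL (empty_subset _)]
      have h3 : intc G U ∅ = 0 := by simp [intc]
      have h4 : L.countP (fun p => msk v p && decide (p.1 ∉ (∅ : Finset V))) =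
          L.countP (msk v) := countP_congr' fun p _ => by simp
      have h5 : (L.filter fun p => !msk v p).countP
          (fun p => xor (decide (p.1 ∈ (∅ : Finset V))) (ξ p)) =
          (L.filter fun p => !msk v p).countP ξ := countP_congr' fun p _ => by simp
      rw [h3, h4, h5]
      omega
  · -- the set `U`
    refine ⟨U, subset_insert _ _, ?_, h1.trans hm, ?_⟩
    · intro h3
      exact hv (by rw [h3]; exact mem_insert_self _ _)
    · rw [tot_out hv hL (Subset.refl _)]
      have h3 : intc G U U = 0 := by simp [intc]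
      have h6 : ∀ p ∈ L, p.1 ∈ U := fun p hp => ((mem_dts G).1 ((hL.mem p).1 hp)).1
      have h4 : L.countP (fun p => msk v p && decide (p.1 ∈ U)) =
          L.countP (msk v) := countP_congr' fun p hp => by simp [h6 p hp]
      have h5 : (L.filter fun p => !msk v p).countP
          (fun p => xor (decide (p.1 ∈ U)) (ξ p)) =
          (L.filter fun p => !msk v p).countP (fun p => !ξ p) :=
        countP_congr' fun p hp => by simp [h6 p (List.mem_filter.1 hp).1]
      rw [h3, h4, h5]
      omega
  · -- a set of the smaller set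
    obtain ⟨ξ0, hξ0⟩ := exists_map hL.nd (z := f.X) ((hlen f hf).trans hk.symm)
    obtain ⟨S, hS, hSU, hs, hval⟩ := hF f hf ξ0 hξ0
    rw [← hξ0, remL_map, List.map_inj_left] at h1
    rw [← hξ0, cntM_map] at h2
    have h3 : (L.filter fun p => !msk v p).countP (fun p => xor (decide (p.1 ∈ S)) (ξ p)) =
        (L.filter fun p => !msk v p).countP (fun p => xor (decide (p.1 ∈ S)) (ξ0 p)) :=
      countP_congr' fun p hp => by rw [h1 p hp]
    have h4 := countP_split L (msk v) (fun p => xor (decide (p.1 ∈ S)) (ξ0 p))
    rcases h2 with ⟨h5, h6⟩ | ⟨h5, h6, h7⟩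
    · refine ⟨S, hS.trans (subset_insert _ _), ?_, h5.trans hs, ?_⟩
      · intro h7
        exact hv (hS (by rw [h7]; exact mem_insert_self _ _))
      · rw [tot_out hv hL hS, h3]
        have h7 := countP_le_add L (fun p => msk v p && decide (p.1 ∈ S))
          (fun p => msk v p && ξ0 p)
          (fun p => msk v p && xor (decide (p.1 ∈ S)) (ξ0 p)) (by
            intro p _
            cases msk v p <;> cases decide (p.1 ∈ S) <;> cases ξ0 p <;> decide)
        omega
    · refine ⟨insert v S, insert_subset_insert _ hS, ?_, ?_, ?_⟩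
      · intro h8
        apply hSU
        apply Subset.antisymm hS
        intro u hu
        have h9 : u ∈ insert v S := by rw [h8]; exact mem_insert_of_mem hu
        rcases mem_insert.1 h9 with rfl | h9
        · exact absurd hu hv
        · exact h9
      · rw [card_insert_of_notMem (fun h => hv (hS h))]
        omega
      · rw [tot_in hv hL hS, h3]
        have h8 := countP_le_add L (fun p => msk v p && decide (p.1 ∉ S))
          (fun p => msk v p && !ξ0 p)
          (fun p => msk v p && xor (decide (p.1 ∈ S)) (ξ0 p)) (by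
            intro p _
            by_cases h9 : p.1 ∈ S
            · simp [h9]
            · cases msk v p <;> cases ξ0 p <;> simp [h9])
        have h9 : L.countP (fun p => msk v p && !ξ0 p) + L.countP (fun p => msk v p && ξ0 p) =
            L.countP (msk v) := by
          clear * -
          induction L with
          | nil => rfl
          | cons a L ih =>
            rw [List.countP_cons, List.countP_cons, List.countP_cons, ← ih]
            cases msk v a <;> cases ξ0 a <;> simp <;> omega
        omega

end Pool.CW
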