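import Pool.Agent.Lib.MP_fc2a59_co.CW.Hub
import Pool.Agent.Lib.MP_fc2a59_co.CW.Lem

/-!
# MP_fc2a59_co (Jaeger), bounded cutwidth: solvable states, one more vertex
-/

set_option autoImplicit false

namespace Pool.CW

open Finset Relation Pool.Jg

variable {V : Type} [Fintype V] [DecidableEq V] (G : SimpleGraph V) [DecidableRel G.Adj]

/-- the graph with contracted outside has a two-tree partition with the given colours of the hubs -/
def Sol (U : Finset V) (h : V × V → V) (γ : V → Bool) : Prop :=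
  ∃ c : V → Bool, (∀ x, x ∉ U → c x = γ x) ∧ ∀ b, HT G U h c b

/-- every labelling with the pattern `z` is solvable -/
def SolZ (U : Finset V) (L : List (V × V)) (z : List ℕ) : Prop :=
  ∀ (h : V × V → V) (γ : V → Bool) (ζ : V × V → ℕ), (∀ p ∈ L, h p ∉ U) → L.map ζ = z →
    (∀ p ∈ L, ∀ q ∈ L, (h p = h q ↔ ζ p = ζ q)) →
    (∃ s, ∀ p ∈ L, γ (h p) = xor s (colN (ζ p))) → Sol G U h γ

/-- `L` lists the darts of `U` -/
structure Bd (U : Finset V) (L : List (V × V)) : Prop where
  nd : L.Nodup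
  mem : ∀ p, p ∈ L ↔ p ∈ dts G U

/-- the darts of `v` -/
noncomputable def nwd (U : Finset V) (v : V) : List (V × V) :=
  ((dts G (insert v U)).filter fun p => p.1 = v).toList

/-- the mask of `v` -/
def msk (v : V) (p : V × V) : Bool := decide (p.2 = v)

/-- the darts after `v` has been added -/
noncomputable def nxt (U : Finset V) (v : V) (L : List (V × V)) : List (V × V) :=
  (L.filter fun p => !msk v p) ++ nwd G U v

variable {G}

omit [Fintype V] in
theorem msk_iff {v : V} {p : V × V} : msk v p = true ↔ p.2 = v := by simp [msk]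

theorem mem_nwd {U : Finset V} {v : V} {p : V × V} :
    p ∈ nwd G U v ↔ p ∈ dts G (insert v U) ∧ p.1 = v := by simp [nwd]

theorem mem_rem {U : Finset V} {v : V} (hv : v ∉ U) {L : List (V × V)} (hL : Bd G U L)
    {p : V × V} : p ∈ (L.filter fun p => !msk v p) ↔ p ∈ dts G (insert v U) ∧ p.1 ≠ v := by
  rw [List.mem_filter, hL.mem, dts_iff hv]
  simp [msk]

theorem Bd.nxt {U : Finset V} {v : V} (hv : v ∉ U) {L : List (V × V)} (hL : Bd G U L) :
    Bd G (insert v U) (nxt G U v L) where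
  nd := by
    rw [Pool.CW.nxt, List.nodup_append]
    refine ⟨hL.nd.filter _, Finset.nodup_toList _, ?_⟩
    rintro p hp q hq rfl
    exact ((mem_rem hv hL).1 hp).2 (mem_nwd.1 hq).2
  mem p := by
    rw [Pool.CW.nxt, List.mem_append, mem_rem hv hL, mem_nwd]
    tauto

theorem inj_of_nodup {α : Type} {L : List α} {ζ : α → ℕ} {P : ℕ → Bool}
    (h : ((L.map ζ).filter P).Nodup) {p q : α} (hp : p ∈ L) (hq : q ∈ L) (hP : P (ζ p) = true)
    (hpq : ζ p = ζ q) : p = q := by
  rw [List.filter_map] at h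
  refine List.inj_on_of_nodup_map h ?_ ?_ hpq
  · rw [List.mem_filter]; exact ⟨hp, hP⟩
  · rw [List.mem_filter]; exact ⟨hq, by rw [Function.comp, ← hpq]; exact hP⟩

theorem SolZ.step {U : Finset V} {v : V} (hv : v ∉ U) {L : List (V × V)} (hL : Bd G U L)
    {z zt : List ℕ} {c : Bool} (htr : trOK (L.map (msk v)) z c zt = true)
    (hz : SolZ G U L zt) : SolZ G (insert v U) (nxt G U v L) z := by
  classical
  intro h' γ' ζ' hout hmap hiff ⟨s, hs⟩
  have hL' := hL.nxt hv
  have hzr : z.take (cntF (L.map (msk v))) = (L.filter fun p => !msk v p).map ζ' := by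
    rw [← hmap, nxt, List.map_append, cntF_map]
    exact List.take_left' (by rw [List.length_map])
  have hzn : z.drop (cntF (L.map (msk v))) = (nwd G U v).map ζ' := by
    rw [← hmap, nxt, List.map_append, cntF_map]
    exact List.drop_left' (by rw [List.length_map])
  rw [trOK, hzr, hzn, hubsOf_eq] at htr
  simp only [andB_iff] at htr
  obtain ⟨h1, h2, h3, h4, h5⟩ := htr
  rw [nodupB_iff] at h1
  rw [allB_iff] at h2 h4
  rw [orB_iff, anyB_iff, anyB_iff] at h3
  generalize hNz : ((nwd G U v).map ζ').filter (fun x => colN x == c) = Nz at *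
  have hνc : colN (nuN c) = c := by cases c <;> rfl
  have hlt : ∀ p ∈ nxt G U v L, ζ' p ≠ nuN c := by
    intro p hp h6
    have h7 := h4 (ζ' p) (by rw [← hmap]; exact List.mem_map_of_mem hp)
    rw [h6] at h7
    cases c <;> exact absurd h7 (by decide)
  let N : Finset V := ((nwd G U v).toFinset.filter fun p => γ' (h' p) = xor s c).image h'
  have hinNew : ∀ p ∈ nwd G U v, p ∈ nxt G U v L := fun p hp => List.mem_append_right _ hp
  have hinRem : ∀ p ∈ L, p.2 ≠ v → p ∈ nxt G U v L := fun p hp h6 =>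
    List.mem_append_left _ (by rw [List.mem_filter]; exact ⟨hp, by simp [msk, h6]⟩)
  have hcolN : ∀ p ∈ nxt G U v L, (γ' (h' p) = xor s c ↔ colN (ζ' p) = c) := by
    intro p hp
    rw [hs p hp]
    exact ⟨fun h => by simpa using h, fun h => by rw [h]⟩
  have hNN : ∀ p ∈ nxt G U v L, (h' p ∈ N ↔ ζ' p ∈ Nz) := by
    intro p hp
    rw [mem_image]
    constructor
    · rintro ⟨r, hr, hrp⟩
      rw [mem_filter, List.mem_toFinset] at hr
      have h6 := (hiff r (hinNew r hr.1) p hp).1 hrp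
      rw [← hNz, List.mem_filter, ← h6]
      exact ⟨List.mem_map_of_mem hr.1, beq_iff_eq.2 ((hcolN r (hinNew r hr.1)).1 hr.2)⟩
    · intro h6
      rw [← hNz, List.mem_filter, List.mem_map] at h6
      obtain ⟨⟨r, hr, hrp⟩, h7⟩ := h6
      refine ⟨r, ?_, (hiff r (hinNew r hr) p hp).2 hrp⟩
      rw [mem_filter, List.mem_toFinset]
      refine ⟨hr, (hcolN r (hinNew r hr)).2 ?_⟩
      rw [hrp]; exact beq_iff_eq.1 h7
  -- the labelling of the smaller set
  have hγ : ∀ x, x ≠ v → Function.update γ' v (xor s c) x = γ' x := fun x hx => by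
    rw [Function.update_of_ne hx]
  let ζ : V × V → ℕ := fun p => if msk v p = true then nuN c else relN (nuN c) Nz (ζ' p)
  have hw : weave (nuN c) (L.map (msk v)) (((L.filter fun p => !msk v p).map ζ').map
      (relN (nuN c) Nz)) = L.map ζ := by
    rw [List.map_map, weave_map]
    rfl
  rw [hw] at h5
  have hlen := eqv_length h5
  obtain ⟨ξ, hξ⟩ := exists_map hL.nd (z := zt) (by rw [← hlen, List.length_map])
  rw [← hξ] at h5
  obtain ⟨h6, s2, h7⟩ := eqv_spec h5
  -- merged darts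
  have hrelT : ∀ p ∈ L, (p.2 = v ∨ h' p ∈ N) → rel v N h' p = v ∧ ζ p = nuN c := by
    intro p hp h8
    by_cases h9 : p.2 = v
    · refine ⟨by rw [rel, if_pos h9], ?_⟩
      show (if msk v p = true then nuN c else relN (nuN c) Nz (ζ' p)) = nuN c
      rw [if_pos (msk_iff.2 h9)]
    · have h10 := h8.resolve_left h9
      refine ⟨by rw [rel, if_neg h9, if_pos h10], ?_⟩
      show (if msk v p = true then nuN c else relN (nuN c) Nz (ζ' p)) = nuN c
      rw [if_neg (fun h => h9 (msk_iff.1 h)), relN, memB_iff.2 ((hNN p (hinRem p hp h9)).1 h10)]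
  have hrelF : ∀ p ∈ L, ¬ (p.2 = v ∨ h' p ∈ N) → p ∈ nxt G U v L ∧ rel v N h' p = h' p ∧
      ζ p = ζ' p := by
    intro p hp h8
    push Not at h8
    refine ⟨hinRem p hp h8.1, by rw [rel, if_neg h8.1, if_neg h8.2], ?_⟩
    show (if msk v p = true then nuN c else relN (nuN c) Nz (ζ' p)) = ζ' p
    rw [if_neg (fun h => h8.1 (msk_iff.1 h)), relN]
    rcases h9 : memB (ζ' p) Nz with _ | _
    · rfl
    · exact absurd ((hNN p (hinRem p hp h8.1)).2 (memB_iff.1 h9)) h8.2
  have hne : ∀ p ∈ nxt G U v L, h' p ≠ v := fun p hp h8 => hout p hp (by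
    rw [h8]; exact mem_insert_self _ _)
  have hsol : Sol G U (rel v N h') (Function.update γ' v (xor s c)) := by
    refine hz (rel v N h') _ ξ ?_ hξ ?_ ?_
    · intro p hp
      by_cases h8 : p.2 = v ∨ h' p ∈ N
      · rw [(hrelT p hp h8).1]; exact hv
      · obtain ⟨h9, h10, _⟩ := hrelF p hp h8
        rw [h10]
        exact fun h11 => hout p h9 (mem_insert_of_mem h11)
    · intro p hp q hq
      rw [← h6 p hp q hq]
      by_cases h8 : p.2 = v ∨ h' p ∈ N
      · obtain ⟨h9, h10⟩ := hrelT p hp h8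
        by_cases h11 : q.2 = v ∨ h' q ∈ N
        · obtain ⟨h12, h13⟩ := hrelT q hq h11
          rw [h9, h10, h12, h13]
          simp
        · obtain ⟨h12, h13, h14⟩ := hrelF q hq h11
          rw [h9, h10, h13, h14]
          exact ⟨fun h => absurd h.symm (hne q h12), fun h => absurd h.symm (hlt q h12)⟩
      · obtain ⟨h9, h10, h10'⟩ := hrelF p hp h8
        by_cases h11 : q.2 = v ∨ h' q ∈ N
        · obtain ⟨h12, h13⟩ := hrelT q hq h11
          rw [h10, h10', h12, h13]
          exact ⟨fun h => absurd h (hne p h9), fun h => absurd h (hlt p h9)⟩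
        · obtain ⟨h12, h13, h14⟩ := hrelF q hq h11
          rw [h10, h10', h13, h14]
          exact hiff p h9 q h12
    · refine ⟨xor s s2, fun p hp => ?_⟩
      rw [h7 p hp]
      have h8 : Function.update γ' v (xor s c) (rel v N h' p) = xor s (colN (ζ p)) := by
        by_cases h8 : p.2 = v ∨ h' p ∈ N
        · obtain ⟨h9, h10⟩ := hrelT p hp h8
          rw [h9, h10, Function.update_self, hνc]
        · obtain ⟨h9, h10, h10'⟩ := hrelF p hp h8
          rw [h10, h10', hγ _ (hne p h9), hs p h9]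
      rw [h8]
      cases s <;> cases s2 <;> cases colN (ζ p) <;> rfl
  obtain ⟨c1, hc1, hHT⟩ := hsol
  have hc1v : c1 v = xor s c := by rw [hc1 v hv, Function.update_self]
  have hc1' : ∀ x, x ∉ insert v U → c1 x = γ' x := by
    intro x hx
    rw [hc1 x (fun h => hx (mem_insert_of_mem h)), hγ]
    rintro rfl
    exact hx (mem_insert_self _ _)
  refine ⟨c1, hc1', HT.step hv ?_ (N := N) ?_ ?_ ?_ ?_ hHT⟩
  · intro p hp
    exact hout p ((hL'.mem p).2 hp)
  · intro x
    rw [mem_image]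
    constructor
    · rintro ⟨p, hp, rfl⟩
      rw [mem_filter, List.mem_toFinset] at hp
      have h8 := mem_nwd.1 hp.1
      exact ⟨p, h8.1, h8.2, rfl, by rw [hc1' _ (hout p (hinNew p hp.1)), hc1v]; exact hp.2⟩
    · rintro ⟨p, hp, h8, rfl, h9⟩
      have h10 : p ∈ nwd G U v := mem_nwd.2 ⟨hp, h8⟩
      refine ⟨p, ?_, rfl⟩
      rw [mem_filter, List.mem_toFinset]
      rw [hc1' _ (hout p (hinNew p h10)), hc1v] at h9
      exact ⟨h10, h9⟩
  · intro p hp q hq hp1 hq1 h8 h9
    have hp' : p ∈ nwd G U v := mem_nwd.2 ⟨hp, hp1⟩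
    have hq' : q ∈ nwd G U v := mem_nwd.2 ⟨hq, hq1⟩
    rw [hc1' _ (hout p (hinNew p hp')), hc1v] at h8
    have h10 := (hcolN p (hinNew p hp')).1 h8
    rw [← hNz] at h1
    exact inj_of_nodup h1 hp' hq' (beq_iff_eq.2 h10)
      ((hiff p (hinNew p hp') q (hinNew q hq')).1 h9)
  · intro p hp hp1 h8
    have hp' : p ∈ nwd G U v := mem_nwd.2 ⟨hp, hp1⟩
    rw [hc1' _ (hout p (hinNew p hp')), hc1v] at h8
    have h9 := h2 (ζ' p) (List.mem_map_of_mem hp')
    rw [orB_iff, beqB_iff, memB_iff, List.mem_map] at h9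
    rcases h9 with h9 | ⟨q, hq, h9⟩
    · exact absurd ((hcolN p (hinNew p hp')).2 h9) h8
    · have h10 := (mem_rem hv hL).1 hq
      exact ⟨q, h10.1, h10.2, (hiff q (List.mem_append_left _ hq) p (hinNew p hp')).2 h9⟩
  · rcases h3 with ⟨x, hx, h3⟩ | ⟨x, hx, h3⟩
    · obtain ⟨p, hp, rfl⟩ := List.mem_map.1 hx
      exact ⟨p, (hL.mem p).1 hp, by rw [rel, if_pos (msk_iff.1 h3)]⟩
    · obtain ⟨p, hp, rfl⟩ := List.mem_map.1 hx
      have h8 : p ∈ L := (List.mem_filter.1 hp).1
      have h9 : h' p ∈ N := (hNN p (List.mem_append_left _ hp)).2 (memB_iff.1 h3)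
      exact ⟨p, (hL.mem p).1 h8, (hrelT p h8 (Or.inr h9)).1⟩

end Pool.CW
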